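import Pool.Agent.Helper47.AQ.SR

/-!
# Volumes: Laplace transform, decomposition into orthants, the main inequality for dual pairs
-/

open MeasureTheory Set Filter Topology
open scoped ENNReal Pointwise

noncomputable section

namespace Pool.Agent.Helper47.AQ

variable {ι : Type} [Fintype ι]

theorem lint_exp (a : ℝ) : ∫⁻ t in Ici a, ENNReal.ofReal (Real.exp (-t)) =
    ENNReal.ofReal (Real.exp (-a)) := by
  rw [← restrict_Ioi_eq_restrict_Ici]
  have h1 : IntegrableOn (fun t => Real.exp (-t)) (Ioi a) := by
    have := exp_neg_integrableOn_Ioi a one_pos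
    simpa using this
  rw [← ofReal_integral_eq_lintegral_ofReal h1
    (Eventually.of_forall fun t => (Real.exp_pos _).le)]
  congr 1
  exact integral_exp_neg_Ioi a

theorem lint_gamma (n : ℕ) : ∫⁻ t in Ioi (0 : ℝ), ENNReal.ofReal (Real.exp (-t) * t ^ n) =
    (n.factorial : ℝ≥0∞) := by
  have h1 : IntegrableOn (fun t : ℝ => Real.exp (-t) * t ^ ((n : ℝ) + 1 - 1)) (Ioi 0) :=
    Real.GammaIntegral_convergent (by positivity)
  have h2 : EqOn (fun t : ℝ => Real.exp (-t) * t ^ ((n : ℝ) + 1 - 1))
      (fun t : ℝ => Real.exp (-t) * t ^ n) (Ioi 0) := by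
    intro t _
    simp only [add_sub_cancel_right, Real.rpow_natCast]
  have h3 : IntegrableOn (fun t : ℝ => Real.exp (-t) * t ^ n) (Ioi 0) :=
    h1.congr_fun h2 measurableSet_Ioi
  rw [← ofReal_integral_eq_lintegral_ofReal h3]
  · rw [← setIntegral_congr_fun measurableSet_Ioi h2, ← Real.Gamma_eq_integral (by positivity),
      Real.Gamma_nat_eq_factorial]
    simp
  · rw [EventuallyLE, ae_restrict_iff' measurableSet_Ioi]
    refine Eventually.of_forall fun t (ht : 0 < t) => ?_
    simp only [Pi.zero_apply]
    positivity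

theorem vol_scale (C : Set (ι → ℝ))
    (hCs : ∀ t : ℝ, 0 < t → ∀ x, t • x ∈ C ↔ x ∈ C) (h : (ι → ℝ) → ℝ)
    (hh : ∀ t : ℝ, 0 < t → ∀ x, h (t • x) = t * h x) (t : ℝ) (ht : 0 < t) :
    volume (C ∩ {x | h x ≤ t}) =
      ENNReal.ofReal (t ^ Fintype.card ι) * volume (C ∩ {x | h x ≤ 1}) := by
  have hset : C ∩ {x | h x ≤ t} = t • (C ∩ {x | h x ≤ 1}) := by
    ext x
    rw [mem_smul_set_iff_inv_smul_mem₀ ht.ne']
    simp only [mem_inter_iff, mem_ofPred_eq]
    rw [hCs t⁻¹ (inv_pos.2 ht), hh t⁻¹ (inv_pos.2 ht), inv_mul_le_iff₀ ht, mul_one]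
  rw [hset, Measure.addHaar_smul, Module.finrank_fintype_fun_eq_card, abs_of_pos (pow_pos ht _)]

/-- The Laplace transform formula for the volume. -/
theorem laplace (C : Set (ι → ℝ))
    (hCs : ∀ t : ℝ, 0 < t → ∀ x, t • x ∈ C ↔ x ∈ C) (h : (ι → ℝ) → ℝ) (hm : Measurable h)
    (hh : ∀ t : ℝ, 0 < t → ∀ x, h (t • x) = t * h x) (h0 : ∀ x, 0 ≤ h x) :
    ∫⁻ x in C, ENNReal.ofReal (Real.exp (-(h x))) =
      ((Fintype.card ι).factorial : ℝ≥0∞) * volume (C ∩ {x | h x ≤ 1}) := by
  have hvol := vol_scale C hCs h hh
  have h1 : ∀ x, ENNReal.ofReal (Real.exp (-(h x))) =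
      ∫⁻ t in Ioi (0 : ℝ), (Ici (h x)).indicator (fun t => ENNReal.ofReal (Real.exp (-t))) t := by
    intro x
    rw [restrict_Ioi_eq_restrict_Ici, setLIntegral_indicator measurableSet_Ici,
      inter_eq_self_of_subset_left (Ici_subset_Ici.2 (h0 x)), lint_exp]
  simp_rw [h1]
  rw [lintegral_lintegral_swap]
  · have h2 : ∀ t ∈ Ioi (0 : ℝ), ∫⁻ x in C, (Ici (h x)).indicator
        (fun t => ENNReal.ofReal (Real.exp (-t))) t =
        ENNReal.ofReal (Real.exp (-t) * t ^ Fintype.card ι) * volume (C ∩ {x | h x ≤ 1}) := by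
      intro t ht
      have h3 : ∀ x, (Ici (h x)).indicator (fun t => ENNReal.ofReal (Real.exp (-t))) t =
          {x | h x ≤ t}.indicator (fun _ => ENNReal.ofReal (Real.exp (-t))) x := by
        intro x
        by_cases hx : h x ≤ t
        · rw [indicator_of_mem (s := Ici (h x)) hx, indicator_of_mem (s := {x | h x ≤ t}) hx]
        · rw [indicator_of_notMem (s := Ici (h x)) hx,
            indicator_of_notMem (s := {x | h x ≤ t}) hx]
      simp_rw [h3]
      have hms : MeasurableSet {x | h x ≤ t} := measurableSet_le hm measurable_const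
      rw [lintegral_indicator hms, setLIntegral_const, Measure.restrict_apply hms, inter_comm,
        hvol t ht, ← mul_assoc, ← ENNReal.ofReal_mul (Real.exp_pos _).le]
    rw [setLIntegral_congr_fun measurableSet_Ioi h2, lintegral_mul_const, lint_gamma]
    fun_prop
  · have hms : MeasurableSet {z : (ι → ℝ) × ℝ | h z.1 ≤ z.2} :=
      measurableSet_le (hm.comp measurable_fst) measurable_snd
    have h4 : (Function.uncurry fun (x : ι → ℝ) (t : ℝ) =>
        (Ici (h x)).indicator (fun t => ENNReal.ofReal (Real.exp (-t))) t) =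
        {z : (ι → ℝ) × ℝ | h z.1 ≤ z.2}.indicator
          (fun z => ENNReal.ofReal (Real.exp (-z.2))) := by
      funext z
      simp only [Function.uncurry]
      by_cases hz : h z.1 ≤ z.2
      · rw [indicator_of_mem (s := Ici (h z.1)) hz,
          indicator_of_mem (s := {z : (ι → ℝ) × ℝ | h z.1 ≤ z.2}) hz]
      · rw [indicator_of_notMem (s := Ici (h z.1)) hz,
          indicator_of_notMem (s := {z : (ι → ℝ) × ℝ | h z.1 ≤ z.2}) hz]
    rw [h4]
    refine (Measurable.indicator ?_ hms).aemeasurable
    fun_prop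

theorem GP_eq {N : (ι → ℝ) → ℝ} (h : UNorm N) :
    GP N = ((Fintype.card ι).factorial : ℝ≥0∞) * volume (P ι ∩ {x | N x ≤ 1}) := by
  refine laplace (P ι) (fun t ht x => ?_) N h.continuous.measurable
    (fun t ht x => by rw [h.smul, abs_of_pos ht]) h.nonneg
  simp [P, mul_pos_iff_of_pos_left ht]

/-- Reflect the coordinates outside `s`. -/
def flip (s : Finset ι) [DecidableEq ι] (x : ι → ℝ) : ι → ℝ := fun i => if i ∈ s then x i else - x i

theorem flip_flip (s : Finset ι) [DecidableEq ι] (x : ι → ℝ) : flip s (flip s x) = x := by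
  funext i
  by_cases h : i ∈ s <;> simp [flip, h]

theorem measurePreserving_flip (s : Finset ι) [DecidableEq ι] :
    MeasurePreserving (flip s) (volume : Measure (ι → ℝ)) volume := by
  have h : ∀ i : ι, MeasurePreserving (fun t : ℝ => if i ∈ s then t else - t) volume volume := by
    intro i
    by_cases hi : i ∈ s
    · rw [show (fun t : ℝ => if i ∈ s then t else - t) = id from by funext t; simp [hi]]
      exact MeasurePreserving.id _
    · rw [show (fun t : ℝ => if i ∈ s then t else - t) = Neg.neg from by funext t; simp [hi]]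
      exact Measure.measurePreserving_neg (volume : Measure ℝ)
  exact volume_preserving_pi h

/-- Decomposition of an integral into the integrals over the orthants. -/
theorem lint_orthants [DecidableEq ι] (F : (ι → ℝ) → ℝ≥0∞) (hF : Measurable F) :
    ∫⁻ x, F x = ∑ s : Finset ι, ∫⁻ x in P ι, F (flip s x) := by
  have hfm : ∀ s : Finset ι, Measurable (flip s) := fun s => (measurePreserving_flip s).measurable
  have h1 : ∀ s : Finset ι, ∫⁻ x in P ι, F (flip s x) =
      ∫⁻ x, (flip s ⁻¹' P ι).indicator F x := by
    intro s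
    rw [← lintegral_indicator measurableSet_P,
      ← (measurePreserving_flip s).lintegral_comp (hF.indicator (hfm s measurableSet_P))]
    refine lintegral_congr fun x => ?_
    by_cases hx : x ∈ P ι
    · have : flip s x ∈ flip s ⁻¹' P ι := by
        rw [mem_preimage, flip_flip]; exact hx
      rw [indicator_of_mem hx, indicator_of_mem this]
    · have : flip s x ∉ flip s ⁻¹' P ι := by
        rw [mem_preimage, flip_flip]; exact hx
      rw [indicator_of_notMem hx, indicator_of_notMem this]
  simp_rw [h1]
  rw [← lintegral_finsetSum]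
  swap
  · exact fun s _ => hF.indicator (hfm s measurableSet_P)
  have hnull : ∀ᵐ x : ι → ℝ, ∀ i, x i ≠ 0 := by
    rw [ae_all_iff]
    intro i
    have h2 : volume {x : ι → ℝ | x i = 0} = 0 := by
      have h3 := Measure.addHaar_affineSubspace (volume : Measure (ι → ℝ))
        (LinearMap.ker (LinearMap.proj i : (ι → ℝ) →ₗ[ℝ] ℝ)).toAffineSubspace ?_
      · rw [← h3]
        congr 1
      · intro htop
        have h4 : (fun _ => 1 : ι → ℝ) ∈
            (LinearMap.ker (LinearMap.proj i : (ι → ℝ) →ₗ[ℝ] ℝ)).toAffineSubspace := by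
          rw [htop]; trivial
        have h5 : (1 : ℝ) = 0 := h4
        exact one_ne_zero h5
    rw [ae_iff]
    simpa using h2
  refine lintegral_congr_ae ?_
  filter_upwards [hnull] with x hx
  rw [Finset.sum_eq_single (Finset.univ.filter fun i => 0 < x i)]
  · rw [indicator_of_mem]
    intro i
    by_cases hi : 0 < x i
    · simp [flip, hi]
    · simp only [flip, Finset.mem_filter, Finset.mem_univ, true_and, hi, if_false]
      exact neg_pos.2 (lt_of_le_of_ne (not_lt.1 hi) (hx i))
  · intro s _ hs
    refine indicator_of_notMem (fun hmem => hs ?_) _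
    ext i
    have hi := hmem i
    by_cases his : i ∈ s
    · simp only [flip, his, if_true] at hi
      simp [his, hi]
    · simp only [flip, his, if_false] at hi
      simp only [his, Finset.mem_filter, Finset.mem_univ, true_and, false_iff, not_lt]
      linarith
  · intro h; exact absurd (Finset.mem_univ _) h

/-- The support function of the difference body in terms of the positive and negative parts. -/
def dif (N : (ι → ℝ) → ℝ) (x : ι → ℝ) : ℝ :=
  N (fun i => max (x i) 0) + N (fun i => max (-(x i)) 0)

theorem orthant_term {N : (ι → ℝ) → ℝ} (h : UNorm N) [DecidableEq ι] (s : Finset ι)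
    (p : ι → Prop) [DecidablePred p] (hp : ∀ i, p i ↔ i ∈ s)
    (hm : Measurable fun x => ENNReal.ofReal (Real.exp (-(dif N (flip s x))))) :
    ∫⁻ x in P ι, ENNReal.ofReal (Real.exp (-(dif N (flip s x)))) =
      GF N p * GF N (fun i => ¬ p i) := by
  rw [lint_split_P p _ hm]
  unfold GF GP
  rw [mul_comm, ← lintegral_const_mul _ (h.face p).measurable]
  refine setLIntegral_congr_fun measurableSet_P fun x hx => ?_
  beta_reduce
  rw [mul_comm, ← lintegral_const_mul _ (h.face fun i => ¬ p i).measurable]
  refine setLIntegral_congr_fun measurableSet_P fun y hy => ?_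
  beta_reduce
  rw [← ENNReal.ofReal_mul (Real.exp_pos _).le, ← Real.exp_add]
  have e1 : (fun i => max (flip s (glue p x y) i) 0) = ext p x := by
    funext i
    by_cases hi : p i
    · have hi' := (hp i).1 hi
      simp only [flip, glue, ext, hi, hi', if_true, dite_true]
      exact max_eq_left (hx ⟨i, hi⟩).le
    · have hi' : ¬ i ∈ s := fun h => hi ((hp i).2 h)
      simp only [flip, glue, ext, hi, hi', if_false, dite_false]
      have := hy ⟨i, hi⟩
      exact max_eq_right (by linarith)
  have e2 : (fun i => max (-(flip s (glue p x y) i)) 0) =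
      ext (fun i => ¬ p i) y := by
    funext i
    by_cases hi : p i
    · have hi' := (hp i).1 hi
      simp only [flip, glue, ext, hi, hi', if_true, dite_true, not_true_eq_false, dite_false]
      have := hx ⟨i, hi⟩
      exact max_eq_right (by linarith)
    · have hi' : ¬ i ∈ s := fun h => hi ((hp i).2 h)
      simp only [flip, glue, ext, hi, hi', if_false, dite_false, not_false_eq_true, dite_true,
        neg_neg]
      exact max_eq_left (hy ⟨i, hi⟩).le
  unfold dif
  rw [e1, e2]
  congr 2
  ring

theorem dif_vol {N : (ι → ℝ) → ℝ} (h : UNorm N) [DecidableEq ι] :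
    ((Fintype.card ι).factorial : ℝ≥0∞) * volume {x | dif N x ≤ 1} =
      ∑ s : Finset ι, GF N (fun i => i ∈ s) * GF N (fun i => ¬ i ∈ s) := by
  have hc : Continuous (dif N) := by
    unfold dif
    refine Continuous.add (h.continuous.comp ?_) (h.continuous.comp ?_)
    · exact continuous_pi fun i => (continuous_apply i).max continuous_const
    · exact continuous_pi fun i => (continuous_apply i).neg.max continuous_const
  have hhom : ∀ t : ℝ, 0 < t → ∀ x, dif N (t • x) = t * dif N x := by
    intro t ht x
    unfold dif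
    have e1 : (fun i => max ((t • x) i) 0) = t • (fun i => max (x i) 0) := by
      funext i
      simp only [Pi.smul_apply, smul_eq_mul]
      rw [mul_max_of_nonneg _ _ ht.le, mul_zero]
    have e2 : (fun i => max (-((t • x) i)) 0) = t • (fun i => max (-(x i)) 0) := by
      funext i
      simp only [Pi.smul_apply, smul_eq_mul]
      rw [mul_max_of_nonneg _ _ ht.le, mul_zero, mul_neg]
    rw [e1, e2, h.smul, h.smul, abs_of_pos ht]
    ring
  have h1 := laplace univ (fun t _ x => by simp) (dif N) hc.measurable hhom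
    (fun x => add_nonneg (h.nonneg _) (h.nonneg _))
  rw [univ_inter] at h1
  rw [← h1, Measure.restrict_univ, lint_orthants]
  swap
  · exact (ENNReal.continuous_ofReal.comp (Real.continuous_exp.comp hc.neg)).measurable
  refine Finset.sum_congr rfl fun s _ => ?_
  have hm : Measurable fun x => ENNReal.ofReal (Real.exp (-(dif N (flip s x)))) :=
    (ENNReal.continuous_ofReal.comp (Real.continuous_exp.comp hc.neg)).measurable.comp
      (measurePreserving_flip s).measurable
  exact orthant_term h s (fun i => i ∈ s) (fun _ => Iff.rfl) hm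

theorem sum_factorials [DecidableEq ι] :
    ∑ s : Finset ι, (s.card.factorial : ℝ) * ((Fintype.card ι - s.card).factorial : ℝ) =
      ((Fintype.card ι : ℝ) + 1) * ((Fintype.card ι).factorial : ℝ) := by
  have h1 := Finset.sum_powerset_apply_card (x := (Finset.univ : Finset ι))
    (fun m => (m.factorial : ℝ) * ((Fintype.card ι - m).factorial : ℝ))
  rw [Finset.powerset_univ] at h1
  rw [h1, Finset.card_univ]
  have h2 : ∀ m ∈ Finset.range (Fintype.card ι + 1),
      (Fintype.card ι).choose m • ((m.factorial : ℝ) * ((Fintype.card ι - m).factorial : ℝ)) =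
        ((Fintype.card ι).factorial : ℝ) := by
    intro m hm
    rw [Finset.mem_range] at hm
    rw [nsmul_eq_mul, ← mul_assoc]
    exact_mod_cast Nat.choose_mul_factorial_mul_factorial (Nat.le_of_lt_succ hm)
  rw [Finset.sum_congr rfl h2, Finset.sum_const, Finset.card_range, nsmul_eq_mul]
  push_cast
  ring

end Pool.Agent.Helper47.AQ
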