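import Pool.Agent.Helper47.AQ.Body

/-!
# The inequality for convex corners and unconditional bodies
-/

open MeasureTheory Set Filter Topology
open scoped ENNReal

noncomputable section

namespace Pool.Agent.Helper47.AQ

variable {ι : Type} [Fintype ι]

/-- The right angled simplex with the weights `w` is a simplex. -/
theorem simplexW [DecidableEq ι] (w : ι → ℝ) (hw : ∀ i, 0 < w i) :
    ∃ (σ : Type) (_ : Fintype σ) (v : σ → ι → ℝ), AffineIndependent ℝ v ∧
      {x : ι → ℝ | (∀ i, 0 ≤ x i) ∧ ∑ i, x i * w i ≤ 1} = convexHull ℝ (range v) := by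
  set v : Option ι → ι → ℝ := fun o => match o with
    | none => 0
    | some i => Pi.single i (1 / w i) with hv
  refine ⟨Option ι, inferInstance, v, ?_, ?_⟩
  · rw [affineIndependent_iff]
    intro s c hc1 hc2
    have hsome : ∀ j, some j ∈ s → c (some j) = 0 := by
      intro j hj
      have h1 := congrFun hc2 j
      rw [Finset.sum_apply] at h1
      rw [Finset.sum_eq_single (some j)] at h1
      · simp only [hv, Pi.smul_apply, Pi.single_eq_same, smul_eq_mul, Pi.zero_apply] at h1
        have h2 := (hw j).ne'
        field_simp at h1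
        rw [h1, mul_zero]
      · intro b _ hb
        cases b with
        | none => simp [hv]
        | some k =>
          have : j ≠ k := fun h => hb (by rw [h])
          simp [hv, this]
      · intro h; exact absurd hj h
    intro e he
    cases e with
    | some j => exact hsome j he
    | none =>
      rw [Finset.sum_eq_single none] at hc1
      · exact hc1
      · intro b hb hbn
        cases b with
        | none => exact absurd rfl hbn
        | some k => exact hsome k hb
      · intro h; exact absurd he h
  · apply Subset.antisymm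
    · rintro x ⟨hx0, hx1⟩
      set c : Option ι → ℝ := fun o => match o with
        | none => 1 - ∑ i, x i * w i
        | some i => x i * w i with hc
      have h1 : x = ∑ o : Option ι, c o • v o := by
        rw [Fintype.sum_option]
        ext j
        simp only [hc, hv, smul_zero, zero_add, Finset.sum_apply, Pi.smul_apply, smul_eq_mul]
        rw [Finset.sum_eq_single j]
        · have := (hw j).ne'
          simp only [Pi.single_eq_same]
          field_simp
        · intro b _ hb
          simp [hb.symm]
        · intro h; exact absurd (Finset.mem_univ j) h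
      rw [h1]
      refine (convex_convexHull ℝ (range v)).sum_mem (fun o _ => ?_) ?_
        (fun o _ => subset_convexHull ℝ _ (mem_range_self o))
      · cases o with
        | none => simp only [hc]; linarith
        | some i => exact mul_nonneg (hx0 i) (hw i).le
      · rw [Fintype.sum_option]
        simp [hc]
    · refine convexHull_min ?_ ?_
      · rintro _ ⟨o, rfl⟩
        cases o with
        | none => simp [hv]
        | some i =>
          refine ⟨fun j => ?_, ?_⟩
          · simp only [hv, Pi.single_apply]
            split_ifs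
            · exact (div_pos one_pos (hw i)).le
            · exact le_rfl
          · rw [Finset.sum_eq_single i]
            · simp only [hv, Pi.single_eq_same]
              rw [one_div, inv_mul_cancel₀ (hw i).ne']
            · intro b _ hb
              simp [hv, hb]
            · intro h; exact absurd (Finset.mem_univ i) h
      · intro x hx y hy a b ha hb hab
        refine ⟨fun i => ?_, ?_⟩
        · simp only [Pi.add_apply, Pi.smul_apply, smul_eq_mul]
          exact add_nonneg (mul_nonneg ha (hx.1 i)) (mul_nonneg hb (hy.1 i))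
        · have h1 : ∑ i, (a • x + b • y) i * w i = a * ∑ i, x i * w i + b * ∑ i, y i * w i := by
            rw [Finset.mul_sum, Finset.mul_sum, ← Finset.sum_add_distrib]
            refine Finset.sum_congr rfl fun i _ => ?_
            simp only [Pi.add_apply, Pi.smul_apply, smul_eq_mul]; ring
          rw [h1]
          nlinarith [hx.2, hy.2]

theorem IsCorner.main {K : Set (ι → ℝ)} (h : IsCorner K) :
    ((Fintype.card ι : ℝ) + 1) / ((Fintype.card ι).factorial : ℝ) ≤ F K ∧
    (F K = ((Fintype.card ι : ℝ) + 1) / ((Fintype.card ι).factorial : ℝ) → IsSimplex K) := by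
  classical
  have h1 := ineq h.adm.dualPair
  have hF : F K = (volume (P ι ∩ {x | supp (dual K) x ≤ 1})).toReal *
      (volume {x | dif (supp K) x ≤ 1}).toReal := by
    unfold F
    rw [h.vol, h.dpol_eq]
  rw [hF]
  refine ⟨h1.1, fun heq => ?_⟩
  obtain ⟨w, _, hw⟩ := h1.2 heq
  have hun := h.adm.dual.unorm
  have hw1 : ∀ i, 0 < w i := by
    intro i
    have h2 := hw (Pi.single i 1) (fun j => by
      simp only [Pi.single_apply]; split_ifs <;> norm_num)
    rw [Finset.sum_eq_single i (fun b _ hb => by simp [hb])
      (fun h => absurd (Finset.mem_univ i) h), Pi.single_eq_same, one_mul] at h2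
    obtain ⟨c, hc, h3⟩ := hun.pos
    have h4 := h3 (Pi.single i 1)
    rw [Finset.sum_eq_single i (fun b _ hb => by simp [hb])
      (fun h => absurd (Finset.mem_univ i) h), Pi.single_eq_same, abs_one, mul_one] at h4
    linarith
  have hK : K = {x : ι → ℝ | (∀ i, 0 ≤ x i) ∧ ∑ i, x i * w i ≤ 1} := by
    ext x
    constructor
    · intro hx
      refine ⟨h.nonneg x hx, ?_⟩
      rw [← hw x (h.nonneg x hx)]
      exact h.supp_le_one hx
    · rintro ⟨hx0, hx1⟩
      refine h.mem_of_supp hx0 ?_
      rw [hw x hx0]
      exact hx1
  refine ⟨h.body.int, ?_⟩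
  rw [hK]
  exact simplexW w hw1

/-! ### Unconditional bodies -/

theorem IsUncond.update_mem [DecidableEq ι] {K : Set (ι → ℝ)} (h : IsUncond K) {z : ι → ℝ}
    (hz : z ∈ K) (a : ι) (t : ℝ) (ht : |t| ≤ |z a|) : Function.update z a t ∈ K := by
  by_cases h0 : z a = 0
  · rw [h0, abs_zero] at ht
    have ht0 : t = 0 := abs_nonpos_iff.1 ht
    have : Function.update z a t = z := by
      rw [ht0, ← h0, Function.update_eq_self]
    rw [this]; exact hz
  · have hpos : 0 < |z a| := abs_pos.2 h0
    set m := |z a| with hm
    have m1 : Function.update z a m ∈ K := h.refl z hz _ fun i => by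
      by_cases hi : i = a
      · subst hi; simp [hm]
      · simp [hi]
    have m2 : Function.update z a (-m) ∈ K := h.refl z hz _ fun i => by
      by_cases hi : i = a
      · subst hi; simp [hm]
      · simp [hi]
    obtain ⟨ht1, ht2⟩ := abs_le.1 ht
    have hcomb : Function.update z a t = ((m + t) / (2 * m)) • Function.update z a m +
        ((m - t) / (2 * m)) • Function.update z a (-m) := by
      ext i
      by_cases hi : i = a
      · subst hi
        simp only [Function.update_self, Pi.add_apply, Pi.smul_apply, smul_eq_mul]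
        field_simp
        ring
      · simp only [Function.update_of_ne hi, Pi.add_apply, Pi.smul_apply, smul_eq_mul]
        field_simp
        ring
    rw [hcomb]
    refine h.body.conv m1 m2 (div_nonneg (by linarith) (by linarith))
      (div_nonneg (by linarith) (by linarith)) ?_
    field_simp
    ring

theorem IsUncond.down {K : Set (ι → ℝ)} (h : IsUncond K) {x y : ι → ℝ}
    (hx : x ∈ K) (hy : ∀ i, |y i| ≤ |x i|) : y ∈ K := by
  classical
  have key : ∀ T : Finset ι, (fun i => if i ∈ T then y i else x i) ∈ K := by
    intro T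
    induction T using Finset.induction_on with
    | empty => simpa using hx
    | insert a T ha ih =>
      have h1 := h.update_mem ih a (y a) (by simpa [ha] using hy a)
      have h2 : Function.update (fun i => if i ∈ T then y i else x i) a (y a) =
          fun i => if i ∈ insert a T then y i else x i := by
        ext i
        by_cases hi : i = a
        · subst hi; simp
        · simp [hi]
      rwa [h2] at h1
  have := key Finset.univ
  simpa using this

/-- The part of an unconditional body in the closed positive orthant. -/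
def posPart (K : Set (ι → ℝ)) : Set (ι → ℝ) := K ∩ {x | ∀ i, 0 ≤ x i}

theorem IsUncond.const_mem {K : Set (ι → ℝ)} (h : IsUncond K) :
    ∃ δ : ℝ, 0 < δ ∧ (fun _ => δ) ∈ K := by
  obtain ⟨x, hx⟩ := h.body.int
  obtain ⟨ε, hε, h1⟩ := Metric.isOpen_iff.1 isOpen_interior x hx
  set s : ι → ℝ := fun i => if 0 ≤ x i then ε / 2 else -(ε / 2) with hsdef
  have h2 : x + s ∈ K := by
    refine interior_subset (h1 ?_)
    rw [Metric.mem_ball, dist_eq_norm, add_sub_cancel_left]
    refine lt_of_le_of_lt ((pi_norm_le_iff_of_nonneg (by positivity : (0 : ℝ) ≤ ε / 2)).2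
      fun i => ?_) (half_lt_self hε)
    by_cases hi : 0 ≤ x i
    · simp [hsdef, hi, abs_of_pos hε]
    · simp [hsdef, hi, abs_of_pos hε]
  refine ⟨ε / 2, half_pos hε, h.down h2 fun i => ?_⟩
  rw [abs_of_pos (half_pos hε)]
  by_cases hi : 0 ≤ x i
  · simp only [hsdef, Pi.add_apply, hi, if_true]
    rw [abs_of_nonneg (by linarith [half_pos hε])]
    linarith
  · simp only [hsdef, Pi.add_apply, hi, if_false]
    rw [abs_of_neg (by linarith [half_pos hε, not_le.1 hi])]
    linarith [not_le.1 hi]

theorem IsUncond.corner {K : Set (ι → ℝ)} (h : IsUncond K) : IsCorner (posPart K) where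
  body := {
    conv := h.body.conv.inter (by
      intro x hx y hy a b ha hb _ i
      simp only [Pi.add_apply, Pi.smul_apply, smul_eq_mul]
      exact add_nonneg (mul_nonneg ha (hx i)) (mul_nonneg hb (hy i)))
    comp := h.body.comp.inter_right (by
      have : {x : ι → ℝ | ∀ i, 0 ≤ x i} = ⋂ i, {x : ι → ℝ | 0 ≤ x i} := by ext x; simp
      rw [this]
      exact isClosed_iInter fun i => isClosed_le continuous_const (continuous_apply i))
    int := by
      obtain ⟨δ, hδ, h1⟩ := h.const_mem
      refine ⟨fun _ => δ / 2, ?_⟩
      rw [mem_interior]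
      refine ⟨Set.pi univ fun _ => Ioo 0 δ, fun x hx => ⟨h.down h1 fun i => ?_, fun i => ?_⟩,
        isOpen_set_pi finite_univ fun _ _ => isOpen_Ioo, fun i _ => ⟨by positivity, by linarith⟩⟩
      · have := hx i (mem_univ i)
        rw [abs_of_pos this.1, abs_of_pos hδ]
        exact this.2.le
      · exact (hx i (mem_univ i)).1.le }
  nonneg x hx := hx.2
  down x hx y hy := ⟨h.down hx.1 fun i => by
    rw [abs_of_nonneg (hy i).1, abs_of_nonneg (hx.2 i)]
    exact (hy i).2, fun i => (hy i).1⟩

/-- Volume of a measurable set invariant under the reflections. -/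
theorem vol_orthants [DecidableEq ι] (A : Set (ι → ℝ)) (hA : MeasurableSet A)
    (hAs : ∀ s : Finset ι, ∀ x, flip s x ∈ A ↔ x ∈ A) :
    volume A = 2 ^ Fintype.card ι * volume (P ι ∩ A) := by
  have h1 := lint_orthants (A.indicator fun _ => (1 : ℝ≥0∞)) (measurable_const.indicator hA)
  rw [lintegral_indicator_const hA, one_mul] at h1
  rw [h1]
  have h2 : ∀ s : Finset ι, ∫⁻ x in P ι, A.indicator (fun _ => (1 : ℝ≥0∞)) (flip s x) =
      volume (P ι ∩ A) := by
    intro s
    have h3 : ∀ x, A.indicator (fun _ => (1 : ℝ≥0∞)) (flip s x) =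
        A.indicator (fun _ => (1 : ℝ≥0∞)) x := by
      intro x
      by_cases hx : x ∈ A
      · rw [indicator_of_mem hx, indicator_of_mem ((hAs s x).2 hx)]
      · rw [indicator_of_notMem hx, indicator_of_notMem (fun h => hx ((hAs s x).1 h))]
    simp_rw [h3]
    rw [lintegral_indicator_const hA, one_mul, Measure.restrict_apply hA, inter_comm]
  simp_rw [h2]
  rw [Finset.sum_const, Finset.card_univ, Fintype.card_finset, nsmul_eq_mul]
  push_cast
  rfl

theorem abs_flip [DecidableEq ι] (s : Finset ι) (x : ι → ℝ) (i : ι) : |flip s x i| = |x i| := by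
  by_cases h : i ∈ s <;> simp [flip, h]

theorem IsUncond.main {K : Set (ι → ℝ)} (h : IsUncond K) :
    (2 : ℝ) ^ Fintype.card ι / ((Fintype.card ι).factorial : ℝ) ≤ F K := by
  classical
  set n := Fintype.card ι with hn
  have hc := h.corner
  set μ := supp (dual (posPart K)) with hμ
  set N := supp (posPart K) with hN
  have hd : Dual μ N := hc.adm.dualPair
  have hK : volume K = 2 ^ n * volume (P ι ∩ {x | μ x ≤ 1}) := by
    rw [vol_orthants K h.body.comp.isClosed.measurableSet fun s x =>
      ⟨fun hx => h.refl _ hx _ fun i => (abs_flip s x i).symm,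
        fun hx => h.refl _ hx _ fun i => abs_flip s x i⟩]
    congr 2
    ext x
    constructor
    · rintro ⟨h1, h2⟩
      exact ⟨h1, hc.supp_le_one ⟨h2, fun i => (h1 i).le⟩⟩
    · rintro ⟨h1, h2⟩
      exact ⟨h1, (hc.mem_of_supp (fun i => (h1 i).le) h2).1⟩
  have hD : dpol K = {x | N x ≤ 1 / 2} := by
    ext p
    constructor
    · intro hp
      refine hc.adm.supp_le _ _ fun x hx => ?_
      set s : ι → ℝ := fun i => if 0 ≤ p i then x i else - x i with hs
      have hs1 : s ∈ K := h.refl x hx.1 _ fun i => by
        by_cases hi : 0 ≤ p i <;> simp [hs, hi]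
      have hs2 : -s ∈ K := h.refl x hx.1 _ fun i => by
        by_cases hi : 0 ≤ p i <;> simp [hs, hi]
      have h1 := hp s hs1 (-s) hs2
      have h2 : ∑ i, p i * (s i - (-s) i) = 2 * ∑ i, |p i| * |x i| := by
        rw [Finset.mul_sum]
        refine Finset.sum_congr rfl fun i _ => ?_
        have hxi := hx.2 i
        by_cases hi : 0 ≤ p i
        · simp only [hs, Pi.neg_apply, hi, if_true, abs_of_nonneg hi, abs_of_nonneg hxi]; ring
        · simp only [hs, Pi.neg_apply, hi, if_false, abs_of_neg (not_le.1 hi),
            abs_of_nonneg hxi]; ring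
      rw [h2] at h1
      linarith
    · intro hp x hx y hy
      have hp' : N p ≤ 1 / 2 := hp
      have habs : ∀ z ∈ K, (fun i => |z i|) ∈ posPart K := fun z hz =>
        ⟨h.refl z hz _ fun i => abs_abs _, fun i => abs_nonneg _⟩
      have h1 := hc.adm.le_supp p (habs x hx)
      have h2 := hc.adm.le_supp p (habs y hy)
      simp only [abs_abs] at h1 h2
      have h3 : ∑ i, p i * (x i - y i) ≤ ∑ i, |p i| * |x i| + ∑ i, |p i| * |y i| := by
        rw [← Finset.sum_add_distrib]
        refine Finset.sum_le_sum fun i _ => ?_
        calc p i * (x i - y i) ≤ |p i * (x i - y i)| := le_abs_self _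
          _ = |p i| * |x i - y i| := abs_mul _ _
          _ ≤ |p i| * (|x i| + |y i|) :=
              mul_le_mul_of_nonneg_left (abs_sub _ _) (abs_nonneg _)
          _ = _ := by ring
      have h4 : supp (posPart K) p = N p := rfl
      rw [h4] at h1 h2
      linarith
  have hDv : volume (dpol K) = volume (P ι ∩ {x | N x ≤ 1}) := by
    have h1 := vol_scale univ (fun t _ x => by simp) N
      (fun t ht x => by rw [hd.hN.smul, abs_of_pos ht]) (1 / 2) (by norm_num)
    rw [univ_inter, univ_inter] at h1
    rw [hD, h1, vol_orthants {x | N x ≤ 1} (measurableSet_le hd.hN.continuous.measurable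
      measurable_const) fun s x => by
        have : N (flip s x) = N x := hd.hN.abs_eq _ _ fun i => abs_flip s x i
        simp only [mem_ofPred_eq, this], ← mul_assoc, ← hn]
    have h2 : ENNReal.ofReal ((1 / 2 : ℝ) ^ n) * 2 ^ n = 1 := by
      have h3 : (2 : ℝ≥0∞) ^ n = ENNReal.ofReal ((2 : ℝ) ^ n) := by
        rw [ENNReal.ofReal_pow (by norm_num)]
        congr 1
        simp
      rw [h3, ← ENNReal.ofReal_mul (by positivity), ← mul_pow]
      norm_num
    rw [h2, one_mul]
  have hfac : (0 : ℝ) < (n.factorial : ℝ) := by exact_mod_cast n.factorial_pos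
  have h5 := saint_raymond n ι hn.symm μ N hd
  rw [GP_eq hd.hμ, GP_eq hd.hN, ENNReal.toReal_mul, ENNReal.toReal_mul, ← hn,
    ENNReal.toReal_natCast] at h5
  unfold F
  rw [hK, hDv, ENNReal.toReal_mul, ENNReal.toReal_pow]
  simp only [ENNReal.toReal_ofNat]
  set a := (volume (P ι ∩ {x | μ x ≤ 1})).toReal
  set b := (volume (P ι ∩ {x | N x ≤ 1})).toReal
  have h6 : (1 : ℝ) ≤ n.factorial * (a * b) := by
    have : (n.factorial : ℝ) * 1 ≤ n.factorial * (n.factorial * (a * b)) := by linarith
    exact le_of_mul_le_mul_left this hfac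
  rw [div_le_iff₀ hfac]
  have h7 : (0 : ℝ) < 2 ^ n := by positivity
  nlinarith

end Pool.Agent.Helper47.AQ
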