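import Pool.Agent.Helper47.AQ.Join

/-!
# Affine invariance
-/

open MeasureTheory Set Filter Topology
open scoped ENNReal

set_option linter.deprecated false

noncomputable section

namespace Pool.Agent.Helper47.AQ

variable {ι κ : Type} [Fintype ι] [Fintype κ]

theorem F_translate (K : Set (ι → ℝ)) (c : ι → ℝ) : F ((fun x => x + c) '' K) = F K := by
  have h1 : dpol ((fun x => x + c) '' K) = dpol K := by
    ext p
    constructor
    · intro hp x hx y hy
      have := hp _ ⟨x, hx, rfl⟩ _ ⟨y, hy, rfl⟩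
      simpa using this
    · rintro hp _ ⟨x, hx, rfl⟩ _ ⟨y, hy, rfl⟩
      have := hp x hx y hy
      simpa using this
  have h2 : volume ((fun x => x + c) '' K) = volume K := by
    rw [Set.image_add_right]
    exact measure_preimage_add_right _ _ _
  unfold F
  rw [h1, h2]

theorem F_linear (L : (ι → ℝ) ≃ₗ[ℝ] (ι → ℝ)) (K : Set (ι → ℝ)) : F (L '' K) = F K := by
  classical
  set M := LinearMap.toMatrix' (L : (ι → ℝ) →ₗ[ℝ] (ι → ℝ)) with hM
  have hL : ∀ x, L x = M.mulVec x := by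
    intro x
    rw [hM, ← Matrix.toLin'_apply, Matrix.toLin'_toMatrix']
    rfl
  set T : (ι → ℝ) →ₗ[ℝ] (ι → ℝ) := Matrix.toLin' M.transpose with hT
  have hdetL : LinearMap.det (L : (ι → ℝ) →ₗ[ℝ] (ι → ℝ)) ≠ 0 := L.isUnit_det'.ne_zero
  have hdet : LinearMap.det T = LinearMap.det (L : (ι → ℝ) →ₗ[ℝ] (ι → ℝ)) := by
    rw [hT, LinearMap.det_toLin', Matrix.det_transpose, hM, LinearMap.det_toMatrix']
  have hsum : ∀ p x y : ι → ℝ, ∑ i, p i * (L x i - L y i) = ∑ i, T p i * (x i - y i) := by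
    intro p x y
    have h3 : ∑ i, p i * (L x i - L y i) = dotProduct p (M.mulVec (x - y)) := by
      refine Finset.sum_congr rfl fun i _ => ?_
      rw [Matrix.mulVec_sub, hL, hL]
      rfl
    rw [h3, Matrix.dotProduct_mulVec, ← Matrix.mulVec_transpose]
    rfl
  have h1 : dpol (L '' K) = T ⁻¹' dpol K := by
    ext p
    constructor
    · intro hp x hx y hy
      rw [← hsum]
      exact hp _ ⟨x, hx, rfl⟩ _ ⟨y, hy, rfl⟩
    · rintro hp _ ⟨x, hx, rfl⟩ _ ⟨y, hy, rfl⟩
      rw [hsum]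
      exact hp x hx y hy
  have h2 : volume (T ⁻¹' dpol K) =
      ENNReal.ofReal |(LinearMap.det (L : (ι → ℝ) →ₗ[ℝ] (ι → ℝ)))⁻¹| * volume (dpol K) := by
    rw [Measure.addHaar_preimage_linearMap _ (by rw [hdet]; exact hdetL), hdet]
  have h3 : volume (L '' K) =
      ENNReal.ofReal |LinearMap.det (L : (ι → ℝ) →ₗ[ℝ] (ι → ℝ))| * volume K :=
    Measure.addHaar_image_linearMap _ _ _
  unfold F
  rw [h1, h2, h3, ENNReal.toReal_mul, ENNReal.toReal_mul, ENNReal.toReal_ofReal (abs_nonneg _),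
    ENNReal.toReal_ofReal (abs_nonneg _), abs_inv]
  have h4 : |LinearMap.det (L : (ι → ℝ) →ₗ[ℝ] (ι → ℝ))| ≠ 0 := abs_ne_zero.2 hdetL
  field_simp

theorem vol_reindex (e : ι ≃ κ) (K : Set (ι → ℝ)) :
    volume ((fun x : ι → ℝ => x ∘ e.symm) '' K) = volume K := by
  have h1 := (volume_measurePreserving_piCongrLeft (fun _ : κ => ℝ) e).symm
  have h2 : (fun x : ι → ℝ => x ∘ e.symm) '' K =
      (MeasurableEquiv.piCongrLeft (fun _ : κ => ℝ) e).symm ⁻¹' K := by
    rw [← MeasurableEquiv.image_eq_preimage_symm]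
    refine image_congr fun x _ => ?_
    funext k
    obtain ⟨i, rfl⟩ := e.surjective k
    simp [MeasurableEquiv.piCongrLeft, Equiv.piCongrLeft_apply_apply]
  rw [h2]
  exact h1.measure_preimage_equiv _

theorem F_reindex (e : ι ≃ κ) (K : Set (ι → ℝ)) :
    F ((fun x : ι → ℝ => x ∘ e.symm) '' K) = F K := by
  have hsum : ∀ (p : ι → ℝ) (x y : ι → ℝ),
      ∑ k, (p ∘ e.symm) k * ((x ∘ e.symm) k - (y ∘ e.symm) k) = ∑ i, p i * (x i - y i) := by
    intro p x y
    exact Equiv.sum_comp e.symm (fun i => p i * (x i - y i))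
  have h1 : dpol ((fun x : ι → ℝ => x ∘ e.symm) '' K) =
      (fun x : ι → ℝ => x ∘ e.symm) '' dpol K := by
    ext p
    constructor
    · intro hp
      refine ⟨p ∘ e, fun x hx y hy => ?_, by funext k; simp⟩
      have h2 := hp _ ⟨x, hx, rfl⟩ _ ⟨y, hy, rfl⟩
      have h3 := hsum (p ∘ e) x y
      have h4 : (p ∘ e) ∘ e.symm = p := by funext k; simp
      rw [h4] at h3
      rw [← h3]
      exact h2
    · rintro ⟨q, hq, rfl⟩ _ ⟨x, hx, rfl⟩ _ ⟨y, hy, rfl⟩
      have h3 := hsum q x y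
      show ∑ k, (q ∘ e.symm) k * ((x ∘ e.symm) k - (y ∘ e.symm) k) ≤ 1
      rw [h3]
      exact hq x hx y hy
  unfold F
  rw [h1, vol_reindex, vol_reindex]

/-- The volume product is invariant under affine equivalences. -/
theorem F_affine (A : (ι → ℝ) ≃ᵃ[ℝ] (κ → ℝ)) (K : Set (ι → ℝ)) : F (A '' K) = F K := by
  have hcard : Fintype.card ι = Fintype.card κ := by
    have := A.linear.finrank_eq
    simpa using this
  have e : ι ≃ κ := Fintype.equivOfCardEq hcard
  set R : (ι → ℝ) ≃ₗ[ℝ] (κ → ℝ) := LinearEquiv.funCongrLeft ℝ ℝ e.symm with hR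
  have hRx : ∀ x : ι → ℝ, R x = x ∘ e.symm := fun x => rfl
  set L : (ι → ℝ) ≃ₗ[ℝ] (ι → ℝ) := A.linear.trans R.symm with hL
  have h1 : A '' K = (fun z => z + A 0) '' ((fun x : ι → ℝ => x ∘ e.symm) '' (L '' K)) := by
    rw [image_image, image_image]
    refine image_congr fun x _ => ?_
    have h2 : (L x) ∘ e.symm = A.linear x := by
      rw [← hRx, hL]
      simp
    rw [h2]
    have h3 := A.map_vadd 0 x
    simpa using h3
  rw [h1, F_translate, F_reindex, F_linear]

theorem IsBody.affine {K : Set (ι → ℝ)} (h : IsBody K) (A : (ι → ℝ) ≃ᵃ[ℝ] (κ → ℝ)) :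
    IsBody (A '' K) where
  conv := h.conv.affine_image (A : (ι → ℝ) →ᵃ[ℝ] (κ → ℝ))
  comp := by
    have := h.comp.image A.toHomeomorphOfFiniteDimensional.continuous
    simpa using this
  int := by
    have h1 : interior (A '' K) = A '' interior K := by
      have := A.toHomeomorphOfFiniteDimensional.image_interior K
      rw [AffineEquiv.coe_toHomeomorphOfFiniteDimensional] at this
      exact this.symm
    rw [h1]
    exact h.int.image _

theorem IsSimplex.affine {K : Set (ι → ℝ)} (h : IsSimplex K) (A : (ι → ℝ) ≃ᵃ[ℝ] (κ → ℝ)) :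
    IsSimplex (A '' K) := by
  obtain ⟨h1, σ, hσ, v, hv, hK⟩ := h
  refine ⟨?_, σ, hσ, A ∘ v, A.affineIndependent_iff.2 hv, ?_⟩
  · have h1' : interior (A '' K) = A '' interior K := by
      have := A.toHomeomorphOfFiniteDimensional.image_interior K
      rw [AffineEquiv.coe_toHomeomorphOfFiniteDimensional] at this
      exact this.symm
    rw [h1']
    exact h1.image _
  · rw [hK, range_comp]
    exact AffineMap.image_convexHull (A : (ι → ℝ) →ᵃ[ℝ] (κ → ℝ)) _

theorem IsSimplex.isBody {K : Set (ι → ℝ)} (h : IsSimplex K) : IsBody K := by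
  obtain ⟨h1, σ, hσ, v, hv, hK⟩ := h
  refine ⟨?_, ?_, h1⟩
  · rw [hK]; exact convex_convexHull ℝ _
  · rw [hK]; exact (finite_range v).isCompact_convexHull ℝ

/-- Any two simplices of the same dimension are affinely equivalent. -/
theorem IsSimplex.equiv {K : Set (ι → ℝ)} {L : Set (κ → ℝ)} (hK : IsSimplex K)
    (hL : IsSimplex L) (hc : Fintype.card ι = Fintype.card κ) :
    ∃ A : (ι → ℝ) ≃ᵃ[ℝ] (κ → ℝ), A '' K = L := by
  obtain ⟨h1, σ, hσ, v, hv, rfl⟩ := hK
  obtain ⟨h2, τ, hτ, w, hw, rfl⟩ := hL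
  have ht1 : affineSpan ℝ (range v) = ⊤ := affineSpan_eq_top_of_nonempty_interior h1
  have ht2 : affineSpan ℝ (range w) = ⊤ := affineSpan_eq_top_of_nonempty_interior h2
  set b : AffineBasis σ ℝ (ι → ℝ) := ⟨v, hv, ht1⟩ with hb
  set b' : AffineBasis τ ℝ (κ → ℝ) := ⟨w, hw, ht2⟩ with hb'
  have hc1 : Fintype.card σ = Fintype.card τ := by
    have h3 := b.card_eq_finrank_add_one
    have h4 := b'.card_eq_finrank_add_one
    rw [Module.finrank_fintype_fun_eq_card] at h3 h4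
    rw [h3, h4, hc]
  have e : σ ≃ τ := Fintype.equivOfCardEq hc1
  obtain ⟨i0⟩ := b.nonempty
  have hne : ∀ i, i ≠ i0 ↔ e i ≠ e i0 := fun i => (e.injective.ne_iff (x := i) (y := i0)).symm
  set L : (ι → ℝ) ≃ₗ[ℝ] (κ → ℝ) :=
    (b.basisOf i0).equiv (b'.basisOf (e i0)) (e.subtypeEquiv hne) with hLdef
  set A : (ι → ℝ) ≃ᵃ[ℝ] (κ → ℝ) :=
    (AffineEquiv.vaddConst ℝ (b i0)).symm.trans
      (L.toAffineEquiv.trans (AffineEquiv.vaddConst ℝ (b' (e i0)))) with hA
  have hAx : ∀ x, A x = L (x - b i0) + b' (e i0) := fun x => rfl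
  have hAv : ∀ i, A (v i) = w (e i) := by
    intro i
    have hvi : v i = b i := rfl
    have hwi : w (e i) = b' (e i) := rfl
    rw [hvi, hwi, hAx]
    by_cases hi : i = i0
    · rw [hi, sub_self, map_zero, zero_add]
    · have h3 : b i - b i0 = b.basisOf i0 ⟨i, hi⟩ := by
        rw [AffineBasis.basisOf_apply]; rfl
      rw [h3, hLdef, Module.Basis.equiv_apply, AffineBasis.basisOf_apply]
      simp
  refine ⟨A, ?_⟩
  have h5 : A '' convexHull ℝ (range v) = convexHull ℝ (A '' range v) :=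
    AffineMap.image_convexHull (A : (ι → ℝ) →ᵃ[ℝ] (κ → ℝ)) _
  rw [h5, ← range_comp]
  congr 1
  have h6 : A ∘ v = w ∘ e := funext hAv
  rw [h6, e.surjective.range_comp]

end Pool.Agent.Helper47.AQ
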