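import Pool.Agent.Helper47.AQ.Unimodal

/-!
# Free sums: the volume
-/

open MeasureTheory Set Filter Topology
open scoped ENNReal Pointwise

noncomputable section

namespace Pool.Agent.Helper47.AQ

variable {ι κ : Type} [Fintype ι] [Fintype κ]

theorem mem_freeSum {K : Set (ι → ℝ)} {L : Set (κ → ℝ)} (hK : Convex ℝ K) (hL : Convex ℝ L)
    (hKn : K.Nonempty) (hLn : L.Nonempty) (z : ι ⊕ κ → ℝ) :
    z ∈ freeSum K L ↔ ∃ t ∈ Icc (0 : ℝ) 1, ∃ x ∈ K, ∃ y ∈ L,
      z = Sum.elim (t • x) ((1 - t) • y) := by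
  have h1 : Convex ℝ ((fun x : ι → ℝ => (Sum.elim x (0 : κ → ℝ) : ι ⊕ κ → ℝ)) '' K) := by
    rintro _ ⟨x, hx, rfl⟩ _ ⟨x', hx', rfl⟩ a b ha hb hab
    refine ⟨a • x + b • x', hK hx hx' ha hb hab, ?_⟩
    funext o
    rcases o with o | o
    · simp
    · simp
  have h2 : Convex ℝ ((fun y : κ → ℝ => (Sum.elim (0 : ι → ℝ) y : ι ⊕ κ → ℝ)) '' L) := by
    rintro _ ⟨x, hx, rfl⟩ _ ⟨x', hx', rfl⟩ a b ha hb hab
    refine ⟨a • x + b • x', hL hx hx' ha hb hab, ?_⟩
    funext o
    rcases o with o | o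
    · simp
    · simp
  unfold freeSum
  rw [convexHull_union (hKn.image _) (hLn.image _), h1.convexHull_eq, h2.convexHull_eq,
    mem_convexJoin]
  constructor
  · rintro ⟨_, ⟨x, hx, rfl⟩, _, ⟨y, hy, rfl⟩, a, b, ha, hb, hab, rfl⟩
    refine ⟨a, ⟨ha, by linarith⟩, x, hx, y, hy, ?_⟩
    have hb' : 1 - a = b := by linarith
    rw [hb']
    funext o
    rcases o with o | o
    · simp
    · simp
  · rintro ⟨t, ht, x, hx, y, hy, rfl⟩
    refine ⟨_, ⟨x, hx, rfl⟩, _, ⟨y, hy, rfl⟩, t, 1 - t, ht.1, by linarith [ht.2], by ring, ?_⟩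
    funext o
    rcases o with o | o
    · simp
    · simp

theorem freeSum_eq_image {K : Set (ι → ℝ)} {L : Set (κ → ℝ)} (hK : Convex ℝ K) (hL : Convex ℝ L)
    (hKn : K.Nonempty) (hLn : L.Nonempty) :
    freeSum K L = (fun q : ℝ × (ι → ℝ) × (κ → ℝ) =>
      (Sum.elim (q.1 • q.2.1) ((1 - q.1) • q.2.2) : ι ⊕ κ → ℝ)) '' (Icc (0 : ℝ) 1 ×ˢ K ×ˢ L) := by
  ext z
  rw [mem_freeSum hK hL hKn hLn]
  constructor
  · rintro ⟨t, ht, x, hx, y, hy, rfl⟩
    exact ⟨(t, x, y), ⟨ht, hx, hy⟩, rfl⟩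
  · rintro ⟨⟨t, x, y⟩, ⟨ht, hx, hy⟩, rfl⟩
    exact ⟨t, ht, x, hx, y, hy, rfl⟩

theorem IsBody.freeSum {K : Set (ι → ℝ)} {L : Set (κ → ℝ)} (hK : IsBody K) (hL : IsBody L) :
    IsBody (AQ.freeSum K L) where
  conv := convex_convexHull ℝ _
  comp := by
    rw [freeSum_eq_image hK.conv hL.conv hK.nonempty hL.nonempty]
    refine (isCompact_Icc.prod (hK.comp.prod hL.comp)).image ?_
    refine continuous_pi fun o => ?_
    rcases o with o | o
    · exact continuous_fst.mul ((continuous_apply o).comp (continuous_fst.comp continuous_snd))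
    · exact (continuous_const.sub continuous_fst).mul
        ((continuous_apply o).comp (continuous_snd.comp continuous_snd))
  int := by
    set U : Set (ι ⊕ κ → ℝ) := {z | (fun i => (2 : ℝ) * z (Sum.inl i)) ∈ interior K ∧
      (fun j => (2 : ℝ) * z (Sum.inr j)) ∈ interior L} with hU
    have hopen : IsOpen U := by
      refine IsOpen.inter ?_ ?_
      · exact isOpen_interior.preimage (continuous_pi fun i =>
          continuous_const.mul (continuous_apply (Sum.inl i)))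
      · exact isOpen_interior.preimage (continuous_pi fun i =>
          continuous_const.mul (continuous_apply (Sum.inr i)))
    obtain ⟨x, hx⟩ := hK.int
    obtain ⟨y, hy⟩ := hL.int
    refine ⟨Sum.elim ((1 / 2 : ℝ) • x) ((1 / 2 : ℝ) • y), interior_maximal (t := U) ?_ hopen ?_⟩
    · rintro z ⟨h1, h2⟩
      rw [mem_freeSum hK.conv hL.conv hK.nonempty hL.nonempty]
      refine ⟨1 / 2, ⟨by norm_num, by norm_num⟩, _, interior_subset h1, _, interior_subset h2, ?_⟩
      funext o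
      rcases o with o | o
      · simp
      · simp only [Sum.elim_inr, Pi.smul_apply, smul_eq_mul]; ring
    · constructor
      · convert hx using 1
        funext i
        simp
      · convert hy using 1
        funext i
        simp

/-! ### The gauge -/

/-- The cone generated by `K`. -/
def cn (K : Set (ι → ℝ)) : Set (ι → ℝ) := {x | ∃ t : ℝ, 0 < t ∧ ∃ y ∈ K, x = t • y}

/-- The gauge. -/
def ga (K : Set (ι → ℝ)) (x : ι → ℝ) : ℝ := sInf {r : ℝ | 0 ≤ r ∧ ∃ y ∈ K, x = r • y}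

theorem cn_smul (K : Set (ι → ℝ)) (t : ℝ) (ht : 0 < t) (x : ι → ℝ) : t • x ∈ cn K ↔ x ∈ cn K := by
  constructor
  · rintro ⟨s, hs, y, hy, h⟩
    refine ⟨t⁻¹ * s, by positivity, y, hy, ?_⟩
    rw [mul_smul, ← h, smul_smul, inv_mul_cancel₀ ht.ne', one_smul]
  · rintro ⟨s, hs, y, hy, h⟩
    exact ⟨t * s, by positivity, y, hy, by rw [h, smul_smul]⟩

theorem ga_nonneg (K : Set (ι → ℝ)) (x : ι → ℝ) : 0 ≤ ga K x :=
  Real.sInf_nonneg fun _ hr => hr.1

theorem ga_le {K : Set (ι → ℝ)} {x y : ι → ℝ} {r : ℝ} (hr : 0 ≤ r) (hy : y ∈ K) (h : x = r • y) :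
    ga K x ≤ r := csInf_le ⟨0, fun _ hr => hr.1⟩ ⟨hr, y, hy, h⟩

theorem IsBody.ga_attained {K : Set (ι → ℝ)} (h : IsBody K) {x : ι → ℝ} (hx : x ∈ cn K) :
    ∃ y ∈ K, x = ga K x • y := by
  obtain ⟨t, ht, y, hy, hxy⟩ := hx
  set S : Set (ℝ × (ι → ℝ)) := (Icc (0 : ℝ) t ×ˢ K) ∩ {q | x = q.1 • q.2} with hS
  have hcomp : IsCompact S := by
    refine (isCompact_Icc.prod h.comp).inter_right ?_
    exact isClosed_eq continuous_const (continuous_fst.smul continuous_snd)
  obtain ⟨⟨r, z⟩, hq, hmin⟩ := hcomp.exists_isMinOn ⟨(t, y), ⟨⟨ht.le, le_rfl⟩, hy⟩, hxy⟩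
    continuous_fst.continuousOn
  have h1 : ga K x = r := by
    refine le_antisymm (ga_le hq.1.1.1 hq.1.2 hq.2) ?_
    refine le_csInf ⟨r, hq.1.1.1, z, hq.1.2, hq.2⟩ ?_
    rintro s ⟨hs, w, hw, hsw⟩
    by_contra hcon
    push Not at hcon
    have h2 : (s, w) ∈ S := ⟨⟨⟨hs, (hcon.le).trans hq.1.1.2⟩, hw⟩, hsw⟩
    have h3 := hmin h2
    exact absurd h3 (not_le.2 hcon)
  exact ⟨z, hq.1.2, by rw [h1]; exact hq.2⟩

theorem IsBody.mem_of_ga_le {K : Set (ι → ℝ)} (h : IsBody K) (h0 : (0 : ι → ℝ) ∈ K) {x : ι → ℝ}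
    (hx : x ∈ cn K) {r : ℝ} (hr : ga K x ≤ r) : ∃ y ∈ K, x = r • y := by
  obtain ⟨y, hy, hxy⟩ := h.ga_attained hx
  have hg := ga_nonneg K x
  rcases eq_or_lt_of_le (hg.trans hr) with hr0 | hr0
  · have hg0 : ga K x = 0 := le_antisymm (hr.trans hr0.ge) hg
    refine ⟨0, h0, ?_⟩
    rw [hxy, hg0, zero_smul, smul_zero]
  · refine ⟨(ga K x / r) • y, ?_, ?_⟩
    · have h1 := h.conv hy h0 (a := ga K x / r) (b := 1 - ga K x / r) (by positivity)
        (by rw [sub_nonneg, div_le_one hr0]; exact hr) (by ring)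
      simpa using h1
    · rw [smul_smul, mul_div_cancel₀ _ hr0.ne']
      exact hxy

theorem ga_smul (K : Set (ι → ℝ)) (t : ℝ) (ht : 0 < t) (x : ι → ℝ) :
    ga K (t • x) = t * ga K x := by
  have h1 : {r : ℝ | 0 ≤ r ∧ ∃ y ∈ K, t • x = r • y} = t • {r : ℝ | 0 ≤ r ∧ ∃ y ∈ K, x = r • y} := by
    ext r
    rw [mem_smul_set_iff_inv_smul_mem₀ ht.ne']
    constructor
    · rintro ⟨hr, y, hy, h⟩
      refine ⟨by rw [smul_eq_mul]; positivity, y, hy, ?_⟩
      rw [smul_eq_mul, mul_smul, ← h, smul_smul, inv_mul_cancel₀ ht.ne', one_smul]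
    · rintro ⟨hr, y, hy, h⟩
      rw [smul_eq_mul] at hr h
      refine ⟨?_, y, hy, ?_⟩
      · have := mul_nonneg ht.le hr
        rwa [← mul_assoc, mul_inv_cancel₀ ht.ne', one_mul] at this
      · rw [h, smul_smul, ← mul_assoc, mul_inv_cancel₀ ht.ne', one_mul]
  unfold ga
  rw [h1, Real.sInf_smul_of_nonneg ht.le, smul_eq_mul]

theorem IsBody.measurable_cn {K : Set (ι → ℝ)} (h : IsBody K) (h0 : (0 : ι → ℝ) ∈ K) :
    MeasurableSet (cn K) := by
  have h1 : cn K = ⋃ n : ℕ, ((n : ℝ) + 1) • K := by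
    ext x
    rw [mem_iUnion]
    constructor
    · rintro ⟨t, ht, y, hy, rfl⟩
      obtain ⟨n, hn⟩ := exists_nat_ge t
      refine ⟨n, (t / ((n : ℝ) + 1)) • y, ?_, ?_⟩
      · have h2 := h.conv hy h0 (a := t / ((n : ℝ) + 1)) (b := 1 - t / ((n : ℝ) + 1))
          (by positivity)
          (by rw [sub_nonneg, div_le_one (by positivity)]; linarith) (by ring)
        simpa using h2
      · show ((n : ℝ) + 1) • ((t / ((n : ℝ) + 1)) • y) = t • y
        rw [smul_smul, mul_div_cancel₀ _ (by positivity)]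
    · rintro ⟨n, y, hy, rfl⟩
      exact ⟨(n : ℝ) + 1, by positivity, y, hy, rfl⟩
  rw [h1]
  exact MeasurableSet.iUnion fun n => (h.comp.smul _).isClosed.measurableSet

theorem IsBody.measurable_ga {K : Set (ι → ℝ)} (h : IsBody K) (h0 : (0 : ι → ℝ) ∈ K) :
    Measurable (ga K) := by
  refine measurable_of_Iic fun a => ?_
  rcases lt_or_ge a 0 with ha | ha
  · have : ga K ⁻¹' Iic a = ∅ := by
      ext x
      simp only [mem_preimage, mem_Iic, mem_empty_iff_false, iff_false, not_le]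
      exact lt_of_lt_of_le ha (ga_nonneg K x)
    rw [this]
    exact MeasurableSet.empty
  · have : ga K ⁻¹' Iic a = (cn K)ᶜ ∪ a • K := by
      ext x
      simp only [mem_preimage, mem_Iic, mem_union, mem_compl_iff]
      constructor
      · intro hx
        by_cases hc : x ∈ cn K
        · obtain ⟨y, hy, hxy⟩ := h.mem_of_ga_le h0 hc hx
          exact Or.inr ⟨y, hy, hxy.symm⟩
        · exact Or.inl hc
      · rintro (hx | ⟨y, hy, rfl⟩)
        · have h2 : {r : ℝ | 0 ≤ r ∧ ∃ y ∈ K, x = r • y} = ∅ := by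
            rw [eq_empty_iff_forall_notMem]
            rintro r ⟨hr, y, hy, hxy⟩
            rcases eq_or_lt_of_le hr with hr0 | hr0
            · refine hx ⟨1, one_pos, 0, h0, ?_⟩
              rw [hxy, ← hr0, zero_smul, smul_zero]
            · exact hx ⟨r, hr0, y, hy, hxy⟩
          unfold ga
          rw [h2, Real.sInf_empty]
          exact ha
        · exact ga_le ha hy rfl
    rw [this]
    exact (h.measurable_cn h0).compl.union (h.comp.smul _).isClosed.measurableSet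

theorem IsBody.cn_inter {K : Set (ι → ℝ)} (h : IsBody K) (h0 : (0 : ι → ℝ) ∈ K) :
    cn K ∩ {x | ga K x ≤ 1} = K := by
  ext x
  constructor
  · rintro ⟨h1, h2⟩
    obtain ⟨y, hy, hxy⟩ := h.mem_of_ga_le h0 h1 h2
    rw [one_smul] at hxy
    rw [hxy]
    exact hy
  · intro hx
    exact ⟨⟨1, one_pos, x, hx, (one_smul _ _).symm⟩, ga_le zero_le_one hx (one_smul _ _).symm⟩

/-- The volume of the free sum. -/
theorem vol_freeSum {K : Set (ι → ℝ)} {L : Set (κ → ℝ)} (hK : IsBody K) (hL : IsBody L)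
    (hK0 : (0 : ι → ℝ) ∈ K) (hL0 : (0 : κ → ℝ) ∈ L) :
    (((Fintype.card ι + Fintype.card κ).factorial : ℕ) : ℝ≥0∞) * volume (freeSum K L) =
      (((Fintype.card ι).factorial : ℝ≥0∞) * volume K) *
        (((Fintype.card κ).factorial : ℝ≥0∞) * volume L) := by
  set C : Set (ι ⊕ κ → ℝ) := {z | (fun i => z (Sum.inl i)) ∈ cn K ∧
    (fun j => z (Sum.inr j)) ∈ cn L} with hC
  set h : (ι ⊕ κ → ℝ) → ℝ := fun z => ga K (fun i => z (Sum.inl i)) +
    ga L (fun j => z (Sum.inr j)) with hh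
  have hCm : MeasurableSet C :=
    (continuous_inl.measurable (hK.measurable_cn hK0)).inter
      (continuous_inr.measurable (hL.measurable_cn hL0))
  have hhm : Measurable h :=
    ((hK.measurable_ga hK0).comp continuous_inl.measurable).add
      ((hL.measurable_ga hL0).comp continuous_inr.measurable)
  have hM : C ∩ {z | h z ≤ 1} = freeSum K L := by
    ext z
    rw [mem_freeSum hK.conv hL.conv hK.nonempty hL.nonempty]
    constructor
    · rintro ⟨⟨h1, h2⟩, h3⟩
      have h3' : ga K (fun i => z (Sum.inl i)) + ga L (fun j => z (Sum.inr j)) ≤ 1 := h3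
      set t := ga K (fun i => z (Sum.inl i)) with ht
      have ht0 : 0 ≤ t := ga_nonneg _ _
      have hs0 := ga_nonneg L (fun j => z (Sum.inr j))
      obtain ⟨x, hx, hxx⟩ := hK.ga_attained h1
      obtain ⟨y, hy, hyy⟩ := hL.mem_of_ga_le hL0 h2 (r := 1 - t) (by linarith)
      refine ⟨t, ⟨ht0, by linarith⟩, x, hx, y, hy, ?_⟩
      funext o
      rcases o with o | o
      · exact congrFun hxx o
      · exact congrFun hyy o
    · rintro ⟨t, ht, x, hx, y, hy, rfl⟩
      have h1t : 0 ≤ 1 - t := by linarith [ht.2]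
      refine ⟨⟨?_, ?_⟩, ?_⟩
      · show t • x ∈ cn K
        rcases eq_or_lt_of_le ht.1 with h0 | h0
        · exact ⟨1, one_pos, 0, hK0, by rw [← h0, zero_smul, smul_zero]⟩
        · exact ⟨t, h0, x, hx, rfl⟩
      · show (1 - t) • y ∈ cn L
        rcases eq_or_lt_of_le h1t with h0 | h0
        · exact ⟨1, one_pos, 0, hL0, by rw [← h0, zero_smul, smul_zero]⟩
        · exact ⟨1 - t, h0, y, hy, rfl⟩
      · show ga K (t • x) + ga L ((1 - t) • y) ≤ 1
        have h2 := ga_le (K := K) ht.1 hx rfl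
        have h3 := ga_le (K := L) h1t hy rfl
        linarith
  have hl := laplace C (fun t ht z => by
      show (t • (fun i => z (Sum.inl i)) ∈ cn K ∧ t • (fun j => z (Sum.inr j)) ∈ cn L) ↔ _
      rw [cn_smul K t ht, cn_smul L t ht]
      rfl) h hhm
    (fun t ht z => by
      show ga K (t • (fun i => z (Sum.inl i))) + ga L (t • (fun j => z (Sum.inr j))) = _
      rw [ga_smul K t ht, ga_smul L t ht, ← mul_add])
    (fun z => add_nonneg (ga_nonneg _ _) (ga_nonneg _ _))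
  rw [hM, Fintype.card_sum] at hl
  rw [← hl]
  have hlK := laplace (cn K) (fun t ht x => cn_smul K t ht x) (ga K) (hK.measurable_ga hK0)
    (fun t ht x => ga_smul K t ht x) (fun x => ga_nonneg _ _)
  have hlL := laplace (cn L) (fun t ht x => cn_smul L t ht x) (ga L) (hL.measurable_ga hL0)
    (fun t ht x => ga_smul L t ht x) (fun x => ga_nonneg _ _)
  rw [hK.cn_inter hK0] at hlK
  rw [hL.cn_inter hL0] at hlL
  rw [← hlK, ← hlL]
  have hmeas : Measurable fun z : ι ⊕ κ → ℝ => ENNReal.ofReal (Real.exp (-(h z))) :=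
    (Real.measurable_exp.comp hhm.neg).ennreal_ofReal
  have hmK : Measurable fun x : ι → ℝ => ENNReal.ofReal (Real.exp (-(ga K x))) :=
    (Real.measurable_exp.comp (hK.measurable_ga hK0).neg).ennreal_ofReal
  have hmL : Measurable fun x : κ → ℝ => ENNReal.ofReal (Real.exp (-(ga L x))) :=
    (Real.measurable_exp.comp (hL.measurable_ga hL0).neg).ennreal_ofReal
  rw [← lintegral_indicator hCm, lint_sum _ (hmeas.indicator hCm),
    ← lintegral_indicator (hK.measurable_cn hK0), ← lintegral_indicator (hL.measurable_cn hL0)]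
  have h5 : ∀ (x : ι → ℝ) (y : κ → ℝ),
      C.indicator (fun z => ENNReal.ofReal (Real.exp (-(h z)))) (Sum.elim x y) =
        (cn K).indicator (fun x => ENNReal.ofReal (Real.exp (-(ga K x)))) x *
          (cn L).indicator (fun x => ENNReal.ofReal (Real.exp (-(ga L x)))) y := by
    intro x y
    by_cases hx : x ∈ cn K
    · by_cases hy : y ∈ cn L
      · have hz : (Sum.elim x y : ι ⊕ κ → ℝ) ∈ C := ⟨hx, hy⟩
        rw [indicator_of_mem hz, indicator_of_mem hx, indicator_of_mem hy,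
          ← ENNReal.ofReal_mul (Real.exp_pos _).le, ← Real.exp_add]
        congr 2
        show -(ga K x + ga L y) = _
        ring
      · have hz : (Sum.elim x y : ι ⊕ κ → ℝ) ∉ C := fun hz => hy hz.2
        rw [indicator_of_notMem hz, indicator_of_notMem hy, mul_zero]
    · have hz : (Sum.elim x y : ι ⊕ κ → ℝ) ∉ C := fun hz => hx hz.1
      rw [indicator_of_notMem hz, indicator_of_notMem hx, zero_mul]
  simp_rw [h5]
  have h6 : ∀ x : ι → ℝ, ∫⁻ y : κ → ℝ,
      (cn K).indicator (fun x => ENNReal.ofReal (Real.exp (-(ga K x)))) x *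
          (cn L).indicator (fun x => ENNReal.ofReal (Real.exp (-(ga L x)))) y =
      (cn K).indicator (fun x => ENNReal.ofReal (Real.exp (-(ga K x)))) x *
        ∫⁻ y : κ → ℝ, (cn L).indicator (fun x => ENNReal.ofReal (Real.exp (-(ga L x)))) y :=
    fun x => lintegral_const_mul _ (hmL.indicator (hL.measurable_cn hL0))
  simp_rw [h6]
  rw [lintegral_mul_const _ (hmK.indicator (hK.measurable_cn hK0))]

end Pool.Agent.Helper47.AQ
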