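import Mathlib

/-!
# Unconditional norms and integrals over the positive orthant (for MP_6fb600_gt)
-/

open MeasureTheory Set
open scoped ENNReal

noncomputable section

namespace Pool.Agent.Helper47.AQ

/-- The open positive orthant. -/
def P (ι : Type) : Set (ι → ℝ) := {x | ∀ i, 0 < x i}

/-- `N` is an unconditional norm. -/
structure UNorm {ι : Type} [Fintype ι] (N : (ι → ℝ) → ℝ) : Prop where
  add : ∀ x y, N (x + y) ≤ N x + N y
  smul : ∀ (t : ℝ) x, N (t • x) = |t| * N x
  mono : ∀ x y : ι → ℝ, (∀ i, |x i| ≤ |y i|) → N x ≤ N y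
  pos : ∃ c : ℝ, 0 < c ∧ ∀ x : ι → ℝ, c * ∑ i, |x i| ≤ N x

variable {ι : Type} [Fintype ι]

theorem UNorm.zero {N : (ι → ℝ) → ℝ} (h : UNorm N) : N 0 = 0 := by
  have := h.smul 0 0
  simpa using this

theorem UNorm.nonneg {N : (ι → ℝ) → ℝ} (h : UNorm N) (x : ι → ℝ) : 0 ≤ N x := by
  obtain ⟨c, hc, h2⟩ := h.pos
  exact le_trans (mul_nonneg hc.le (Finset.sum_nonneg fun i _ => abs_nonneg _)) (h2 x)

theorem UNorm.abs_eq {N : (ι → ℝ) → ℝ} (h : UNorm N) (x y : ι → ℝ) (hxy : ∀ i, |x i| = |y i|) :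
    N x = N y :=
  le_antisymm (h.mono _ _ fun i => (hxy i).le) (h.mono _ _ fun i => (hxy i).ge)

theorem UNorm.sum_le {N : (ι → ℝ) → ℝ} (h : UNorm N) {κ : Type} (s : Finset κ) (f : κ → ι → ℝ) :
    N (∑ k ∈ s, f k) ≤ ∑ k ∈ s, N (f k) := by
  classical
  induction s using Finset.induction_on with
  | empty => simp [h.zero]
  | insert a s ha ih =>
    rw [Finset.sum_insert ha, Finset.sum_insert ha]
    exact (h.add _ _).trans (by gcongr)

theorem UNorm.le_norm {N : (ι → ℝ) → ℝ} (h : UNorm N) :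
    ∃ C : ℝ, 0 ≤ C ∧ ∀ x, N x ≤ C * ‖x‖ := by
  classical
  refine ⟨∑ i, N (Pi.single i 1), Finset.sum_nonneg fun i _ => h.nonneg _, fun x => ?_⟩
  have hx : x = ∑ i, x i • (Pi.single i (1 : ℝ) : ι → ℝ) := by
    ext j
    simp [Finset.sum_apply, Pi.single_apply]
  calc N x = N (∑ i, x i • (Pi.single i (1 : ℝ) : ι → ℝ)) := by rw [← hx]
    _ ≤ ∑ i, N (x i • (Pi.single i (1 : ℝ) : ι → ℝ)) := h.sum_le _ _
    _ = ∑ i, |x i| * N (Pi.single i 1) := by simp [h.smul]
    _ ≤ ∑ i, ‖x‖ * N (Pi.single i 1) := by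
        refine Finset.sum_le_sum fun i _ => mul_le_mul_of_nonneg_right ?_ (h.nonneg _)
        simpa using norm_le_pi_norm x i
    _ = (∑ i, N (Pi.single i 1)) * ‖x‖ := by rw [← Finset.mul_sum]; ring

theorem UNorm.continuous {N : (ι → ℝ) → ℝ} (h : UNorm N) : Continuous N := by
  obtain ⟨C, hC, h2⟩ := h.le_norm
  have hneg : ∀ x, N (-x) = N x := fun x => h.abs_eq _ _ fun i => by simp
  have h3 : ∀ x y, |N x - N y| ≤ C * ‖x - y‖ := by
    intro x y
    rw [abs_le]
    constructor
    · have := h.add x (y - x)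
      have h4 := h2 (x - y)
      rw [show x + (y - x) = y by abel, show y - x = -(x - y) by abel, hneg] at this
      linarith
    · have := h.add y (x - y)
      have h4 := h2 (x - y)
      rw [show y + (x - y) = x by abel] at this
      linarith
  have h4 : LipschitzWith (Real.toNNReal C) N := by
    refine LipschitzWith.of_dist_le_mul fun x y => ?_
    rw [Real.dist_eq, dist_eq_norm, Real.coe_toNNReal _ hC]
    exact h3 x y
  exact h4.continuous

/-- The integral of `exp (-N)` over the positive orthant. -/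
def GP (N : (ι → ℝ) → ℝ) : ℝ≥0∞ := ∫⁻ x in P ι, ENNReal.ofReal (Real.exp (-(N x)))

theorem measurableSet_P : MeasurableSet (P ι) := by
  have : P ι = ⋂ i, {x : ι → ℝ | 0 < x i} := by ext x; simp [P]
  rw [this]
  exact MeasurableSet.iInter fun i => measurableSet_lt measurable_const (measurable_pi_apply i)

/-- Glue two functions along a predicate. -/
def glue (p : ι → Prop) [DecidablePred p] (x : {i // p i} → ℝ) (y : {i // ¬ p i} → ℝ) : ι → ℝ :=
  fun i => if h : p i then x ⟨i, h⟩ else y ⟨i, h⟩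

/-- Extension by zero. -/
def ext (p : ι → Prop) [DecidablePred p] (x : {i // p i} → ℝ) : ι → ℝ :=
  fun i => if h : p i then x ⟨i, h⟩ else 0

theorem lint_split (p : ι → Prop) [DecidablePred p] (F : (ι → ℝ) → ℝ≥0∞) (hF : Measurable F) :
    ∫⁻ x, F x = ∫⁻ x : {i // p i} → ℝ, ∫⁻ y : {i // ¬ p i} → ℝ, F (glue p x y) := by
  have h := (volume_preserving_piEquivPiSubtypeProd (fun _ : ι => ℝ) p).symm
  have hs : ∀ z : ({i // p i} → ℝ) × ({i // ¬ p i} → ℝ),
      (MeasurableEquiv.piEquivPiSubtypeProd (fun _ : ι => ℝ) p).symm z = glue p z.1 z.2 := by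
    intro z
    ext i
    rfl
  have h1 := h.lintegral_comp hF
  rw [← h1, Measure.volume_eq_prod, lintegral_prod]
  · simp only [hs]
  · exact (hF.comp (MeasurableEquiv.measurable _)).aemeasurable

theorem glue_mem_P (p : ι → Prop) [DecidablePred p] (x : {i // p i} → ℝ) (y : {i // ¬ p i} → ℝ) :
    glue p x y ∈ P ι ↔ x ∈ P {i // p i} ∧ y ∈ P {i // ¬ p i} := by
  constructor
  · intro h
    refine ⟨fun i => ?_, fun i => ?_⟩
    · have := h i.1
      simpa [glue, i.2] using this
    · have := h i.1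
      simpa [glue, i.2] using this
  · rintro ⟨h1, h2⟩ i
    by_cases h : p i
    · simpa [glue, h] using h1 ⟨i, h⟩
    · simpa [glue, h] using h2 ⟨i, h⟩

theorem lint_split_P (p : ι → Prop) [DecidablePred p] (F : (ι → ℝ) → ℝ≥0∞) (hF : Measurable F) :
    ∫⁻ x in P ι, F x =
      ∫⁻ x in P {i // p i}, ∫⁻ y in P {i // ¬ p i}, F (glue p x y) := by
  classical
  rw [← lintegral_indicator measurableSet_P, lint_split p _ (hF.indicator measurableSet_P),
    ← lintegral_indicator measurableSet_P]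
  refine lintegral_congr fun x => ?_
  by_cases hx : x ∈ P {i // p i}
  · rw [indicator_of_mem hx, ← lintegral_indicator measurableSet_P]
    refine lintegral_congr fun y => ?_
    by_cases hy : y ∈ P {i // ¬ p i}
    · rw [indicator_of_mem hy, indicator_of_mem ((glue_mem_P p x y).2 ⟨hx, hy⟩)]
    · rw [indicator_of_notMem hy, indicator_of_notMem (fun h => hy ((glue_mem_P p x y).1 h).2)]
  · rw [indicator_of_notMem hx]
    have : ∀ y, (P ι).indicator F (glue p x y) = 0 := fun y =>
      indicator_of_notMem (fun h => hx ((glue_mem_P p x y).1 h).1) _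
    simp [this]

theorem UNorm.measurable {N : (ι → ℝ) → ℝ} (h : UNorm N) :
    Measurable fun x => ENNReal.ofReal (Real.exp (-(N x))) :=
  (ENNReal.continuous_ofReal.comp (Real.continuous_exp.comp h.continuous.neg)).measurable

theorem ext_add (p : ι → Prop) [DecidablePred p] (x y : {i // p i} → ℝ) :
    ext p (x + y) = ext p x + ext p y := by
  funext i
  by_cases h : p i <;> simp [ext, h]

theorem ext_smul (p : ι → Prop) [DecidablePred p] (t : ℝ) (x : {i // p i} → ℝ) :
    ext p (t • x) = t • ext p x := by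
  funext i
  by_cases h : p i <;> simp [ext, h]

theorem sum_ext (p : ι → Prop) [DecidablePred p] (x : {i // p i} → ℝ) (f : ι → ℝ → ℝ)
    (hf : ∀ i, f i 0 = 0) : ∑ i, f i (ext p x i) = ∑ i : {i // p i}, f i.1 (x i) := by
  classical
  rw [← Fintype.sum_subtype_add_sum_subtype p (fun i => f i (ext p x i))]
  have h1 : ∑ i : {i // ¬ p i}, f i.1 (ext p x i.1) = 0 :=
    Finset.sum_eq_zero fun i _ => by simp [ext, i.2, hf]
  rw [h1, add_zero]
  exact Finset.sum_congr rfl fun i _ => by simp [ext, i.2]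

theorem UNorm.face {N : (ι → ℝ) → ℝ} (h : UNorm N) (p : ι → Prop) [DecidablePred p] :
    UNorm fun x : {i // p i} → ℝ => N (ext p x) where
  add x y := by rw [ext_add]; exact h.add _ _
  smul t x := by rw [ext_smul]; exact h.smul _ _
  mono x y hxy := by
    refine h.mono _ _ fun i => ?_
    by_cases hi : p i
    · simpa [ext, hi] using hxy ⟨i, hi⟩
    · simp [ext, hi]
  pos := by
    obtain ⟨c, hc, h2⟩ := h.pos
    refine ⟨c, hc, fun x => ?_⟩
    have := h2 (ext p x)
    rwa [sum_ext p x (fun _ t => |t|) (fun _ => abs_zero)] at this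

theorem glue_eq (p : ι → Prop) [DecidablePred p] (x : {i // p i} → ℝ) (y : {i // ¬ p i} → ℝ) :
    glue p x y = ext p x + ext (fun i => ¬ p i) y := by
  funext i
  by_cases h : p i <;> simp [glue, ext, h]

/-- The integral over the orthant of the face `p`. -/
def GF (N : (ι → ℝ) → ℝ) (p : ι → Prop) [DecidablePred p] : ℝ≥0∞ :=
  GP (fun x : {i // p i} → ℝ => N (ext p x))

/-- Subadditivity gives a lower bound for the integral by the product over complementary faces. -/
theorem GP_split_le {N : (ι → ℝ) → ℝ} (h : UNorm N) (p : ι → Prop) [DecidablePred p] :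
    GF N p * GF N (fun i => ¬ p i) ≤ GP N := by
  unfold GF GP
  rw [lint_split_P p _ h.measurable, mul_comm, ← lintegral_const_mul _ (h.face p).measurable]
  refine lintegral_mono fun x => ?_
  simp only []
  rw [mul_comm, ← lintegral_const_mul _ (h.face fun i => ¬ p i).measurable]
  refine lintegral_mono fun y => ?_
  simp only []
  rw [← ENNReal.ofReal_mul (Real.exp_pos _).le, ← Real.exp_add, glue_eq]
  refine ENNReal.ofReal_le_ofReal (Real.exp_le_exp.2 ?_)
  have := h.add (ext p x) (ext (fun i => ¬ p i) y)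
  linarith

end Pool.Agent.Helper47.AQ
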