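import Pool.Agent.Helper47.AQ.Corner

/-!
# Convex bodies: support functions, the volume of the polar of the difference body
-/

open MeasureTheory Set Filter Topology
open scoped ENNReal

noncomputable section

namespace Pool.Agent.Helper47.AQ

variable {ι : Type} [Fintype ι]

/-- The volume product `V(K) V((K - K)°)`. -/
def F (K : Set (ι → ℝ)) : ℝ := (volume K).toReal * (volume (dpol K)).toReal

/-- The support function. -/
def hs (K : Set (ι → ℝ)) (p : ι → ℝ) : ℝ := sSup ((fun x : ι → ℝ => ∑ i, p i * x i) '' K)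

/-- The width function (the support function of `K - K`). -/
def wd (K : Set (ι → ℝ)) (p : ι → ℝ) : ℝ := hs K p + hs K (-p)

theorem IsBody.nonempty {K : Set (ι → ℝ)} (h : IsBody K) : K.Nonempty :=
  h.int.mono interior_subset

theorem IsBody.bound {K : Set (ι → ℝ)} (h : IsBody K) :
    ∃ R : ℝ, 0 < R ∧ ∀ x ∈ K, ∀ i, |x i| ≤ R := by
  obtain ⟨R, hR⟩ := h.comp.isBounded.exists_norm_le
  refine ⟨max R 1, lt_of_lt_of_le one_pos (le_max_right _ _), fun x hx i => ?_⟩
  exact ((norm_le_pi_norm x i).trans (hR x hx)).trans (le_max_left _ _)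

theorem IsBody.bddAbove {K : Set (ι → ℝ)} (h : IsBody K) (p : ι → ℝ) :
    BddAbove ((fun x : ι → ℝ => ∑ i, p i * x i) '' K) := by
  obtain ⟨R, hR, h2⟩ := h.bound
  refine ⟨∑ i, |p i| * R, ?_⟩
  rintro _ ⟨x, hx, rfl⟩
  refine Finset.sum_le_sum fun i _ => ?_
  calc p i * x i ≤ |p i * x i| := le_abs_self _
    _ = |p i| * |x i| := abs_mul _ _
    _ ≤ |p i| * R := mul_le_mul_of_nonneg_left (h2 x hx i) (abs_nonneg _)

theorem IsBody.le_hs {K : Set (ι → ℝ)} (h : IsBody K) (p : ι → ℝ) {x : ι → ℝ} (hx : x ∈ K) :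
    ∑ i, p i * x i ≤ hs K p := le_csSup (h.bddAbove p) ⟨x, hx, rfl⟩

theorem IsBody.hs_le {K : Set (ι → ℝ)} (h : IsBody K) (p : ι → ℝ) (c : ℝ)
    (hc : ∀ x ∈ K, ∑ i, p i * x i ≤ c) : hs K p ≤ c := by
  refine csSup_le (h.nonempty.image _) ?_
  rintro _ ⟨x, hx, rfl⟩
  exact hc x hx

theorem IsBody.hs_smul {K : Set (ι → ℝ)} (h : IsBody K) (t : ℝ) (ht : 0 < t) (p : ι → ℝ) :
    hs K (t • p) = t * hs K p := by
  have key : ∀ (t : ℝ), 0 < t → ∀ p : ι → ℝ, hs K (t • p) ≤ t * hs K p := by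
    intro t ht p
    refine h.hs_le _ _ fun x hx => ?_
    have h1 : ∑ i, (t • p) i * x i = t * ∑ i, p i * x i := by
      rw [Finset.mul_sum]
      exact Finset.sum_congr rfl fun i _ => by simp [mul_assoc]
    rw [h1]
    exact mul_le_mul_of_nonneg_left (h.le_hs p hx) ht.le
  refine le_antisymm (key t ht p) ?_
  have h1 := key t⁻¹ (inv_pos.2 ht) (t • p)
  rw [smul_smul, inv_mul_cancel₀ ht.ne', one_smul] at h1
  calc t * hs K p ≤ t * (t⁻¹ * hs K (t • p)) := mul_le_mul_of_nonneg_left h1 ht.le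
    _ = hs K (t • p) := by rw [← mul_assoc, mul_inv_cancel₀ ht.ne', one_mul]

theorem IsBody.hs_add {K : Set (ι → ℝ)} (h : IsBody K) (p q : ι → ℝ) :
    hs K (p + q) ≤ hs K p + hs K q := by
  refine h.hs_le _ _ fun x hx => ?_
  refine le_trans (le_of_eq ?_) (add_le_add (h.le_hs p hx) (h.le_hs q hx))
  rw [← Finset.sum_add_distrib]
  exact Finset.sum_congr rfl fun i _ => by simp [add_mul]

theorem IsBody.hs_continuous {K : Set (ι → ℝ)} (h : IsBody K) : Continuous (hs K) := by
  obtain ⟨R, hR, h2⟩ := h.bound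
  have h3 : ∀ p, hs K p ≤ (Fintype.card ι * R) * ‖p‖ := by
    intro p
    refine h.hs_le _ _ fun x hx => ?_
    calc ∑ i, p i * x i ≤ ∑ _i : ι, ‖p‖ * R := by
          refine Finset.sum_le_sum fun i _ => ?_
          calc p i * x i ≤ |p i * x i| := le_abs_self _
            _ = |p i| * |x i| := abs_mul _ _
            _ ≤ ‖p‖ * R := mul_le_mul (norm_le_pi_norm p i) (h2 x hx i) (abs_nonneg _)
                (norm_nonneg _)
      _ = (Fintype.card ι * R) * ‖p‖ := by
          rw [Finset.sum_const, Finset.card_univ, nsmul_eq_mul]; ring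
  have h4 : ∀ p q, |hs K p - hs K q| ≤ (Fintype.card ι * R) * ‖p - q‖ := by
    intro p q
    rw [abs_le]
    constructor
    · have h5 := h.hs_add p (q - p)
      have h6 := h3 (q - p)
      rw [show p + (q - p) = q by abel, ] at h5
      rw [norm_sub_rev] at h6
      linarith
    · have h5 := h.hs_add q (p - q)
      have h6 := h3 (p - q)
      rw [show q + (p - q) = p by abel] at h5
      linarith
  have h7 : LipschitzWith (Real.toNNReal (Fintype.card ι * R)) (hs K) := by
    refine LipschitzWith.of_dist_le_mul fun x y => ?_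
    rw [Real.dist_eq, dist_eq_norm, Real.coe_toNNReal _ (by positivity)]
    exact h4 x y
  exact h7.continuous

theorem IsBody.wd_continuous {K : Set (ι → ℝ)} (h : IsBody K) : Continuous (wd K) :=
  h.hs_continuous.add (h.hs_continuous.comp continuous_neg)

theorem IsBody.wd_smul {K : Set (ι → ℝ)} (h : IsBody K) (t : ℝ) (ht : 0 < t) (p : ι → ℝ) :
    wd K (t • p) = t * wd K p := by
  unfold wd
  rw [← smul_neg, h.hs_smul t ht, h.hs_smul t ht]
  ring

theorem IsBody.dpol_eq {K : Set (ι → ℝ)} (h : IsBody K) : dpol K = {p | wd K p ≤ 1} := by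
  ext p
  have hsum : ∀ x y : ι → ℝ, ∑ i, p i * (x i - y i) = ∑ i, p i * x i + ∑ i, (-p) i * y i := by
    intro x y
    rw [← Finset.sum_add_distrib]
    exact Finset.sum_congr rfl fun i _ => by simp only [Pi.neg_apply]; ring
  constructor
  · intro hp
    show hs K p + hs K (-p) ≤ 1
    have h1 : ∀ y ∈ K, hs K p ≤ 1 - ∑ i, (-p) i * y i := by
      intro y hy
      refine h.hs_le _ _ fun x hx => ?_
      have := hp x hx y hy
      rw [hsum] at this
      linarith
    have h2 : hs K (-p) ≤ 1 - hs K p := by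
      refine h.hs_le _ _ fun y hy => ?_
      have := h1 y hy
      linarith
    linarith
  · intro hp x hx y hy
    have h0 : hs K p + hs K (-p) ≤ 1 := hp
    rw [hsum]
    have h1 := h.le_hs p hx
    have h2 := h.le_hs (-p) hy
    linarith

theorem IsBody.le_wd {K : Set (ι → ℝ)} (h : IsBody K) :
    ∃ ε : ℝ, 0 < ε ∧ ∀ p, ε * ∑ i, |p i| ≤ wd K p := by
  obtain ⟨x, hx⟩ := h.int
  obtain ⟨ε, hε, h1⟩ := Metric.isOpen_iff.1 isOpen_interior x hx
  refine ⟨ε, hε, fun p => ?_⟩
  have hmem : ∀ s : ι → ℝ, (∀ i, |s i| ≤ ε / 2) → x + s ∈ K := by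
    intro s hs
    refine interior_subset (h1 ?_)
    rw [Metric.mem_ball, dist_eq_norm, add_sub_cancel_left]
    exact lt_of_le_of_lt ((pi_norm_le_iff_of_nonneg (by positivity)).2 hs) (half_lt_self hε)
  set s : ι → ℝ := fun i => if 0 ≤ p i then ε / 2 else -(ε / 2) with hsdef
  have hs1 : ∀ i, |s i| ≤ ε / 2 := by
    intro i
    by_cases hi : 0 ≤ p i
    · simp [hsdef, hi, abs_of_pos (half_pos hε)]
    · simp [hsdef, hi, abs_of_pos (half_pos hε)]
  have h2 := h.le_hs p (hmem s hs1)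
  have h3 := h.le_hs (-p) (hmem (-s) (fun i => by simpa using hs1 i))
  refine le_trans (le_of_eq ?_) (add_le_add h2 h3)
  rw [← Finset.sum_add_distrib, Finset.mul_sum]
  refine Finset.sum_congr rfl fun i _ => ?_
  by_cases hi : 0 ≤ p i
  · simp only [hsdef, Pi.add_apply, Pi.neg_apply, hi, if_true, abs_of_nonneg hi]; ring
  · simp only [hsdef, Pi.add_apply, Pi.neg_apply, hi, if_false, abs_of_neg (not_le.1 hi)]; ring

theorem IsBody.wd_nonneg {K : Set (ι → ℝ)} (h : IsBody K) (p : ι → ℝ) : 0 ≤ wd K p := by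
  obtain ⟨ε, hε, h2⟩ := h.le_wd
  exact le_trans (mul_nonneg hε.le (Finset.sum_nonneg fun i _ => abs_nonneg _)) (h2 p)

theorem IsBody.vol_ne_top {K : Set (ι → ℝ)} (h : IsBody K) : volume K ≠ ⊤ :=
  h.comp.measure_lt_top.ne

theorem IsBody.vol_pos {K : Set (ι → ℝ)} (h : IsBody K) : 0 < (volume K).toReal :=
  ENNReal.toReal_pos (Measure.measure_pos_of_nonempty_interior _ h.int).ne' h.vol_ne_top

theorem IsBody.dpol_ne_top {K : Set (ι → ℝ)} (h : IsBody K) : volume (dpol K) ≠ ⊤ := by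
  obtain ⟨ε, hε, h2⟩ := h.le_wd
  refine (lt_of_le_of_lt (measure_mono (t := Metric.closedBall 0 (1 / ε)) ?_)
    (isCompact_closedBall _ _).measure_lt_top).ne
  intro p hp
  rw [h.dpol_eq] at hp
  rw [mem_closedBall_zero_iff]
  refine (pi_norm_le_iff_of_nonneg (by positivity)).2 fun i => ?_
  have h3 := h2 p
  have h4 : |p i| ≤ ∑ i, |p i| :=
    Finset.single_le_sum (f := fun i => |p i|) (fun i _ => abs_nonneg _) (Finset.mem_univ i)
  have h5 : wd K p ≤ 1 := hp
  rw [Real.norm_eq_abs, le_div_iff₀ hε]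
  nlinarith

theorem IsBody.dpol_pos {K : Set (ι → ℝ)} (h : IsBody K) : 0 < (volume (dpol K)).toReal := by
  refine ENNReal.toReal_pos (ne_of_gt ?_) h.dpol_ne_top
  have h1 : IsOpen {p | wd K p < 1} := isOpen_lt h.wd_continuous continuous_const
  have h0 : wd K 0 = 0 := by
    unfold wd
    have : hs K 0 = 0 := by
      refine le_antisymm (h.hs_le _ _ fun x _ => by simp) ?_
      obtain ⟨x, hx⟩ := h.nonempty
      have := h.le_hs 0 hx
      simpa using this
    rw [neg_zero, this, add_zero]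
  refine lt_of_lt_of_le (h1.measure_pos volume ⟨0, by
    show wd K 0 < 1
    rw [h0]; exact one_pos⟩) (measure_mono fun p hp => ?_)
  rw [h.dpol_eq]
  have hp' : wd K p < 1 := hp
  exact hp'.le

theorem IsBody.laplace {K : Set (ι → ℝ)} (h : IsBody K) :
    ∫⁻ p, ENNReal.ofReal (Real.exp (-(wd K p))) =
      ((Fintype.card ι).factorial : ℝ≥0∞) * volume (dpol K) := by
  have h1 := AQ.laplace univ (fun t _ x => by simp) (wd K) h.wd_continuous.measurable
    (fun t ht x => h.wd_smul t ht x) h.wd_nonneg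
  rw [univ_inter, Measure.restrict_univ] at h1
  rw [h1, h.dpol_eq]

end Pool.Agent.Helper47.AQ
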