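import Pool.Agent.Helper47.AQ.FreeSum3

/-!
# The class of bodies generated by corners and unconditional bodies
-/

open MeasureTheory Set Filter Topology
open scoped ENNReal

noncomputable section

namespace Pool.Agent.Helper47.AQ

variable {ι κ : Type} [Fintype ι] [Fintype κ]

theorem IsSimplex.join {K : Set (ι → ℝ)} {L : Set (κ → ℝ)} (hK : IsSimplex K)
    (hL : IsSimplex L) : IsSimplex (joinSet K L) := by
  have hb := hK.isBody.join hL.isBody
  obtain ⟨_, σ, hσ, v, hv, hKv⟩ := hK
  obtain ⟨_, τ, hτ, w, hw, hLw⟩ := hL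
  set u : σ ⊕ τ → (ι ⊕ κ) ⊕ Unit → ℝ := Sum.elim
    (fun i => Sum.elim (Sum.elim (v i) 0) 1) (fun j => Sum.elim (Sum.elim 0 (w j)) 0) with hu
  refine ⟨hb.int, σ ⊕ τ, inferInstance, u, ?_, ?_⟩
  · rw [affineIndependent_iff_of_fintype]
    intro c hc1 hc2
    rw [Finset.weightedVSub_eq_linear_combination _ hc1] at hc2
    rw [Fintype.sum_sum_type] at hc1
    have h1 := congrFun hc2 (Sum.inr ())
    rw [Finset.sum_apply, Fintype.sum_sum_type] at h1
    have h1' : ∑ i, c (Sum.inl i) = 0 := by
      simpa [hu] using h1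
    have h2' : ∑ j, c (Sum.inr j) = 0 := by linarith
    have h3 : ∑ i, c (Sum.inl i) • v i = 0 := by
      funext k
      have h4 := congrFun hc2 (Sum.inl (Sum.inl k))
      rw [Finset.sum_apply, Fintype.sum_sum_type] at h4
      rw [Finset.sum_apply]
      simpa [hu] using h4
    have h5 : ∑ j, c (Sum.inr j) • w j = 0 := by
      funext k
      have h4 := congrFun hc2 (Sum.inl (Sum.inr k))
      rw [Finset.sum_apply, Fintype.sum_sum_type] at h4
      rw [Finset.sum_apply]
      simpa [hu] using h4
    rw [affineIndependent_iff_of_fintype] at hv hw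
    have h6 := hv (fun i => c (Sum.inl i)) h1'
      (by rw [Finset.weightedVSub_eq_linear_combination _ h1']; exact h3)
    have h7 := hw (fun j => c (Sum.inr j)) h2'
      (by rw [Finset.weightedVSub_eq_linear_combination _ h2']; exact h5)
    rintro (i | j)
    · exact h6 i
    · exact h7 j
  · apply Subset.antisymm
    · rintro z ⟨t, ht, x, hx, y, hy, rfl⟩
      have hx' : (Sum.elim (Sum.elim x 0) 1 : (ι ⊕ κ) ⊕ Unit → ℝ) ∈ convexHull ℝ (range u) := by
        rw [hKv] at hx
        refine convexHull_min (t := {x : ι → ℝ |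
          (Sum.elim (Sum.elim x 0) 1 : (ι ⊕ κ) ⊕ Unit → ℝ) ∈ convexHull ℝ (range u)}) ?_ ?_ hx
        · rintro _ ⟨i, rfl⟩
          exact subset_convexHull ℝ _ ⟨Sum.inl i, rfl⟩
        · intro p hp q hq a b ha hb' hab
          have h := convex_convexHull ℝ (range u) hp hq ha hb' hab
          have he : (Sum.elim (Sum.elim (a • p + b • q) 0) 1 : (ι ⊕ κ) ⊕ Unit → ℝ) =
              a • (Sum.elim (Sum.elim p (0 : κ → ℝ)) 1) +
                b • (Sum.elim (Sum.elim q (0 : κ → ℝ)) 1) := by
            funext o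
            rcases o with (o | o) | o
            · simp
            · simp
            · simp [hab]
          show (Sum.elim (Sum.elim (a • p + b • q) 0) 1 : (ι ⊕ κ) ⊕ Unit → ℝ) ∈
            convexHull ℝ (range u)
          rw [he]
          exact h
      have hy' : (Sum.elim (Sum.elim 0 y) 0 : (ι ⊕ κ) ⊕ Unit → ℝ) ∈ convexHull ℝ (range u) := by
        rw [hLw] at hy
        refine convexHull_min (t := {y : κ → ℝ |
          (Sum.elim (Sum.elim 0 y) 0 : (ι ⊕ κ) ⊕ Unit → ℝ) ∈ convexHull ℝ (range u)}) ?_ ?_ hy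
        · rintro _ ⟨j, rfl⟩
          exact subset_convexHull ℝ _ ⟨Sum.inr j, rfl⟩
        · intro p hp q hq a b ha hb' hab
          have h := convex_convexHull ℝ (range u) hp hq ha hb' hab
          have he : (Sum.elim (Sum.elim 0 (a • p + b • q)) 0 : (ι ⊕ κ) ⊕ Unit → ℝ) =
              a • (Sum.elim (Sum.elim (0 : ι → ℝ) p) 0) +
                b • (Sum.elim (Sum.elim (0 : ι → ℝ) q) 0) := by
            funext o
            rcases o with (o | o) | o
            · simp
            · simp
            · simp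
          show (Sum.elim (Sum.elim 0 (a • p + b • q)) 0 : (ι ⊕ κ) ⊕ Unit → ℝ) ∈
            convexHull ℝ (range u)
          rw [he]
          exact h
      have h := convex_convexHull ℝ (range u) hx' hy' ht.1 (by linarith [ht.2] : 0 ≤ 1 - t)
        (by ring)
      have he : (Sum.elim (Sum.elim (t • x) ((1 - t) • y)) (fun _ => t) : (ι ⊕ κ) ⊕ Unit → ℝ) =
          t • (Sum.elim (Sum.elim x (0 : κ → ℝ)) 1) +
            (1 - t) • (Sum.elim (Sum.elim (0 : ι → ℝ) y) 0) := by
        funext o
        rcases o with (o | o) | o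
        · simp
        · simp
        · simp
      rw [he]
      exact h
    · refine convexHull_min ?_ hb.conv
      rintro _ ⟨(i | j), rfl⟩
      · obtain ⟨y, hy⟩ : L.Nonempty := ‹(interior L).Nonempty›.mono interior_subset
        refine ⟨1, ⟨zero_le_one, le_rfl⟩, v i, ?_, y, ?_, ?_⟩
        · rw [hKv]; exact subset_convexHull ℝ _ ⟨i, rfl⟩
        · exact hy
        · funext o
          rcases o with (o | o) | o
          · simp [hu]
          · simp [hu]
          · simp [hu]
      · obtain ⟨x, hx⟩ : K.Nonempty := ‹(interior K).Nonempty›.mono interior_subset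
        refine ⟨0, ⟨le_rfl, zero_le_one⟩, x, hx, w j, ?_, ?_⟩
        · rw [hLw]; exact subset_convexHull ℝ _ ⟨j, rfl⟩
        · funext o
          rcases o with (o | o) | o
          · simp [hu]
          · simp [hu]
          · simp [hu]

theorem simplex_empty : IsSimplex (univ : Set (Empty → ℝ)) := by
  refine ⟨by simp, Unit, inferInstance, fun _ => 0, affineIndependent_of_subsingleton ℝ _, ?_⟩
  ext x
  have : x = 0 := Subsingleton.elim _ _
  simp [this]

theorem F_empty : F (univ : Set (Empty → ℝ)) = 1 := by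
  have h1 : volume (univ : Set (Empty → ℝ)) = 1 := by
    rw [volume_pi, Measure.pi_univ]
    simp
  have h2 : dpol (univ : Set (Empty → ℝ)) = univ := by
    ext p
    simp [dpol]
  unfold F
  rw [h2, h1]
  simp

theorem exists_simplex (n : ℕ) : ∃ (ι : Type) (_ : Fintype ι) (K : Set (ι → ℝ)),
    Fintype.card ι = n ∧ IsSimplex K ∧ F K = ((n : ℝ) + 1) / (n.factorial : ℝ) := by
  induction n with
  | zero => exact ⟨Empty, inferInstance, univ, by simp, simplex_empty, by rw [F_empty]; simp⟩
  | succ n ih =>
    obtain ⟨ι, hι, K, hc, hK, hF⟩ := ih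
    refine ⟨(ι ⊕ Empty) ⊕ Unit, inferInstance, joinSet K univ, by simp [hc],
      hK.join simplex_empty, ?_⟩
    rw [F_join hK.isBody simplex_empty.isBody, F_empty, hF, hc]
    have h1 : (0 : ℝ) < (n.factorial : ℝ) := by exact_mod_cast n.factorial_pos
    simp only [Fintype.card_empty, Nat.factorial_zero, add_zero]
    rw [Nat.factorial_succ]
    push_cast
    field_simp
    ring

/-- The volume product of a simplex. -/
theorem IsSimplex.F_eq {K : Set (ι → ℝ)} (h : IsSimplex K) :
    F K = ((Fintype.card ι : ℝ) + 1) / ((Fintype.card ι).factorial : ℝ) := by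
  obtain ⟨κ, hκ, L, hc, hL, hF⟩ := exists_simplex (Fintype.card ι)
  obtain ⟨A, hA⟩ := hL.equiv h hc
  rw [← hA, F_affine, hF]

/-- The inequality for the class. -/
theorem Cls.main {ι : Type} [Fintype ι] {K : Set (ι → ℝ)} (h : Cls K) :
    IsBody K ∧ ((Fintype.card ι : ℝ) + 1) / ((Fintype.card ι).factorial : ℝ) ≤ F K ∧
    (F K = ((Fintype.card ι : ℝ) + 1) / ((Fintype.card ι).factorial : ℝ) → IsSimplex K) := by
  induction h with
  | corner hK => exact ⟨hK.body, hK.main⟩
  | @uncond ι _ K h2 hK =>
    have h1 : (0 : ℝ) < ((Fintype.card ι).factorial : ℝ) := by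
      exact_mod_cast (Fintype.card ι).factorial_pos
    have h3 : ((Fintype.card ι : ℝ) + 1) < 2 ^ Fintype.card ι := by
      have : ∀ n : ℕ, 2 ≤ n → n + 1 < 2 ^ n := by
        intro n hn
        induction n, hn using Nat.le_induction with
        | base => norm_num
        | succ n hn ih => rw [pow_succ]; omega
      exact_mod_cast this _ h2
    have h4 : ((Fintype.card ι : ℝ) + 1) / ((Fintype.card ι).factorial : ℝ) < F K :=
      lt_of_lt_of_le (div_lt_div_of_pos_right h3 h1) hK.main
    exact ⟨hK.body, h4.le, fun h5 => absurd h5 h4.ne'⟩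
  | @affine ι κ _ _ K A hK ih =>
    obtain ⟨h1, h2, h3⟩ := ih
    have hcard : Fintype.card ι = Fintype.card κ := by
      have := A.linear.finrank_eq
      simpa using this
    rw [F_affine, ← hcard]
    exact ⟨h1.affine A, h2, fun h4 => (h3 h4).affine A⟩
  | @prod ι κ _ _ _ _ K L hK hL ihK ihL =>
    obtain ⟨h1, h2, -⟩ := ihK
    obtain ⟨h3, h4, -⟩ := ihL
    refine ⟨h1.prod h3, ?_⟩
    have hF := F_prod h1 h3
    rw [Fintype.card_sum]
    set m := Fintype.card ι with hm
    set k := Fintype.card κ with hk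
    have hm0 : 0 < m := Fintype.card_pos
    have hk0 : 0 < k := Fintype.card_pos
    have hmf : (0 : ℝ) < (m.factorial : ℝ) := by exact_mod_cast m.factorial_pos
    have hkf : (0 : ℝ) < (k.factorial : ℝ) := by exact_mod_cast k.factorial_pos
    have hmkf : (0 : ℝ) < ((m + k).factorial : ℝ) := by exact_mod_cast (m + k).factorial_pos
    rw [div_le_iff₀ hmf] at h2
    rw [div_le_iff₀ hkf] at h4
    have h5 : ((m : ℝ) + 1) * (k + 1) ≤ (m.factorial * F K) * (k.factorial * F L) := by
      refine mul_le_mul ?_ ?_ (by positivity) ?_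
      · linarith
      · linarith
      · have : (0 : ℝ) ≤ (m : ℝ) + 1 := by positivity
        linarith
    have hm1 : (1 : ℝ) ≤ m := by exact_mod_cast hm0
    have hk1 : (1 : ℝ) ≤ k := by exact_mod_cast hk0
    have h6 : (((m + k : ℕ) : ℝ) + 1) < (m + k).factorial * F (prodSet K L) := by
      rw [hF]
      push_cast
      nlinarith
    have h7 : (((m + k : ℕ) : ℝ) + 1) / ((m + k).factorial : ℝ) < F (prodSet K L) := by
      rw [div_lt_iff₀ hmkf]
      linarith
    exact ⟨h7.le, fun h8 => absurd h8 h7.ne'⟩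
  | @join ι κ _ _ K L hK hL ihK ihL =>
    obtain ⟨h1, h2, h2'⟩ := ihK
    obtain ⟨h3, h4, h4'⟩ := ihL
    refine ⟨h1.join h3, ?_⟩
    have hF := F_join h1 h3
    have hcard : Fintype.card ((ι ⊕ κ) ⊕ Unit) = Fintype.card ι + Fintype.card κ + 1 := by simp
    rw [hcard]
    set m := Fintype.card ι with hm
    set k := Fintype.card κ with hk
    have hmf : (0 : ℝ) < (m.factorial : ℝ) := by exact_mod_cast m.factorial_pos
    have hkf : (0 : ℝ) < (k.factorial : ℝ) := by exact_mod_cast k.factorial_pos
    have hmkf : (0 : ℝ) < ((m + k + 1).factorial : ℝ) := by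
      exact_mod_cast (m + k + 1).factorial_pos
    have hFK : 0 < F K := mul_pos h1.vol_pos h1.dpol_pos
    have hFL : 0 < F L := mul_pos h3.vol_pos h3.dpol_pos
    set a := ((m : ℝ) + 1) / (m.factorial : ℝ) with ha
    set b := ((k : ℝ) + 1) / (k.factorial : ℝ) with hb
    have ha0 : 0 < a := by positivity
    have hb0 : 0 < b := by positivity
    set c := ((m.factorial : ℝ) * k.factorial / (m + k + 1).factorial) *
      (1 / ((m : ℝ) + 1) + 1 / ((k : ℝ) + 1)) with hc
    have hc0 : 0 < c := by positivity
    have h5 : (((m + k + 1 : ℕ) : ℝ) + 1) / ((m + k + 1).factorial : ℝ) = c * (a * b) := by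
      rw [hc, ha, hb]
      push_cast
      field_simp
      ring
    rw [h5, hF]
    constructor
    · exact mul_le_mul_of_nonneg_left (mul_le_mul h2 h4 hb0.le hFK.le) hc0.le
    · intro h6
      have h7 : F K * F L = a * b := mul_left_cancel₀ hc0.ne' h6
      have h8 : F K = a := by
        by_contra hne
        have h9 : a < F K := lt_of_le_of_ne h2 (Ne.symm hne)
        have : a * b < F K * F L := by nlinarith
        linarith
      have h9 : F L = b := by
        rw [h8] at h7
        exact mul_left_cancel₀ ha0.ne' h7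
      exact (h2' h8).join (h4' h9)
  | @freeSum ι κ _ _ K L hK0 hL0 hK hL ihK ihL =>
    obtain ⟨h1, h2, h2'⟩ := ihK
    obtain ⟨h3, h4, h4'⟩ := ihL
    refine ⟨h1.freeSum h3, ?_⟩
    obtain ⟨hF, hFe⟩ := F_freeSum h1 h3 hK0 hL0
    rw [Fintype.card_sum]
    set m := Fintype.card ι with hm
    set k := Fintype.card κ with hk
    have hmf : (0 : ℝ) < (m.factorial : ℝ) := by exact_mod_cast m.factorial_pos
    have hkf : (0 : ℝ) < (k.factorial : ℝ) := by exact_mod_cast k.factorial_pos
    have hmkf : (0 : ℝ) < ((m + k).factorial : ℝ) := by exact_mod_cast (m + k).factorial_pos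
    have hFK : 0 < F K := mul_pos h1.vol_pos h1.dpol_pos
    have hFL : 0 < F L := mul_pos h3.vol_pos h3.dpol_pos
    set a := ((m : ℝ) + 1) / (m.factorial : ℝ) with ha
    set b := ((k : ℝ) + 1) / (k.factorial : ℝ) with hb
    have ha0 : 0 < a := by positivity
    have hb0 : 0 < b := by positivity
    set c := ((m.factorial : ℝ) * k.factorial / (m + k).factorial) *
      (((m : ℝ) + k + 1) / (((m : ℝ) + 1) * ((k : ℝ) + 1))) with hc
    have hc0 : 0 < c := by positivity
    have h5 : (((m + k : ℕ) : ℝ) + 1) / ((m + k).factorial : ℝ) = c * (a * b) := by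
      rw [hc, ha, hb]
      push_cast
      field_simp
    rw [h5]
    have h10 : c * (a * b) ≤ c * (F K * F L) :=
      mul_le_mul_of_nonneg_left (mul_le_mul h2 h4 hb0.le hFK.le) hc0.le
    refine ⟨h10.trans hF, fun h6 => ?_⟩
    have h11 : c * (F K * F L) = c * (a * b) := le_antisymm (hF.trans h6.le) h10
    have h7 : F K * F L = a * b := mul_left_cancel₀ hc0.ne' h11
    have h8 : F K = a := by
      by_contra hne
      have h9 : a < F K := lt_of_le_of_ne h2 (Ne.symm hne)
      have : a * b < F K * F L := by nlinarith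
      linarith
    have h9 : F L = b := by
      rw [h8] at h7
      exact mul_left_cancel₀ ha0.ne' h7
    exact freeSum_simplices (h2' h8) (h4' h9) hK0 hL0 (hFe (h6.trans h11.symm))

/-- The right angled simplex is a corner. -/
theorem corner_simplex : IsCorner {x : ι → ℝ | (∀ i, 0 ≤ x i) ∧ ∑ i, x i ≤ 1} where
  body := by
    refine ⟨?_, ?_, ?_⟩
    · intro x hx y hy a b ha hb hab
      refine ⟨fun i => ?_, ?_⟩
      · simp only [Pi.add_apply, Pi.smul_apply, smul_eq_mul]
        exact add_nonneg (mul_nonneg ha (hx.1 i)) (mul_nonneg hb (hy.1 i))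
      · have h1 : ∑ i, (a • x + b • y) i = a * ∑ i, x i + b * ∑ i, y i := by
          rw [Finset.mul_sum, Finset.mul_sum, ← Finset.sum_add_distrib]
          exact Finset.sum_congr rfl fun i _ => by simp
        rw [h1]
        nlinarith [hx.2, hy.2]
    · refine Metric.isCompact_of_isClosed_isBounded ?_ ?_
      · have h1 : IsClosed {x : ι → ℝ | ∀ i, 0 ≤ x i} := by
          simp only [ofPred_forall]
          exact isClosed_iInter fun i => isClosed_le continuous_const (continuous_apply i)
        exact h1.inter (isClosed_le (continuous_finsetSum _ fun i _ => continuous_apply i)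
          continuous_const)
      · refine (Metric.isBounded_closedBall (x := (0 : ι → ℝ)) (r := 1)).subset fun x hx => ?_
        rw [mem_closedBall_zero_iff]
        refine (pi_norm_le_iff_of_nonneg zero_le_one).2 fun i => ?_
        rw [Real.norm_eq_abs, abs_of_nonneg (hx.1 i)]
        exact (Finset.single_le_sum (f := x) (fun i _ => hx.1 i) (Finset.mem_univ i)).trans hx.2
    · have h1 : IsOpen {x : ι → ℝ | (∀ i, 0 < x i) ∧ ∑ i, x i < 1} := by
        have h2 : IsOpen {x : ι → ℝ | ∀ i, 0 < x i} := by
          simp only [ofPred_forall]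
          exact isOpen_iInter_of_finite fun i => isOpen_lt continuous_const (continuous_apply i)
        exact h2.inter (isOpen_lt (continuous_finsetSum _ fun i _ => continuous_apply i)
          continuous_const)
      refine ⟨fun _ => 1 / ((Fintype.card ι : ℝ) + 1), ?_⟩
      refine interior_maximal (t := {x : ι → ℝ | (∀ i, 0 < x i) ∧ ∑ i, x i < 1}) ?_ h1 ?_
      · exact fun x hx => ⟨fun i => (hx.1 i).le, hx.2.le⟩
      · refine ⟨fun i => by positivity, ?_⟩
        rw [Finset.sum_const, Finset.card_univ, nsmul_eq_mul, mul_one_div,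
          div_lt_one (by positivity)]
        linarith
  nonneg := fun x hx => hx.1
  down := fun x hx y hy => ⟨fun i => (hy i).1,
    (Finset.sum_le_sum fun i _ => (hy i).2).trans hx.2⟩

/-- All simplices belong to the class. -/
theorem IsSimplex.cls {K : Set (ι → ℝ)} (h : IsSimplex K) : Cls K := by
  classical
  have h1 : IsSimplex {x : ι → ℝ | (∀ i, 0 ≤ x i) ∧ ∑ i, x i ≤ 1} := by
    have h2 := simplexW (fun _ : ι => (1 : ℝ)) (fun _ => one_pos)
    simp only [mul_one] at h2
    exact ⟨corner_simplex.body.int, h2⟩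
  obtain ⟨A, hA⟩ := h1.equiv h rfl
  rw [← hA]
  exact Cls.affine A (Cls.corner corner_simplex)

end Pool.Agent.Helper47.AQ
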