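import Mathlib

/-!
# Definitions: convex bodies, corners, the class of bodies, the affine quermassintegral
-/

open MeasureTheory Set
open scoped ENNReal

noncomputable section

namespace Pool.Agent.Helper47.AQ

/-- A convex body: a compact convex set with nonempty interior. -/
structure IsBody {ι : Type} [Fintype ι] (K : Set (ι → ℝ)) : Prop where
  conv : Convex ℝ K
  comp : IsCompact K
  int : (interior K).Nonempty

/-- The polar body `(K - K)°` of the difference body. -/
def dpol {ι : Type} [Fintype ι] (K : Set (ι → ℝ)) : Set (ι → ℝ) :=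
  {p | ∀ x ∈ K, ∀ y ∈ K, ∑ i, p i * (x i - y i) ≤ 1}

/-- A convex corner (anti-blocking body): a convex body in the orthant of the nonnegative vectors
which contains with `x` all `y` with `0 ≤ y ≤ x`. -/
structure IsCorner {ι : Type} [Fintype ι] (K : Set (ι → ℝ)) : Prop where
  body : IsBody K
  nonneg : ∀ x ∈ K, ∀ i, 0 ≤ x i
  down : ∀ x ∈ K, ∀ y : ι → ℝ, (∀ i, 0 ≤ y i ∧ y i ≤ x i) → y ∈ K

/-- A simplex: the convex hull of an affinely independent family, with nonempty interior. -/
def IsSimplex {ι : Type} [Fintype ι] (K : Set (ι → ℝ)) : Prop :=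
  (interior K).Nonempty ∧
    ∃ (σ : Type) (_ : Fintype σ) (v : σ → ι → ℝ), AffineIndependent ℝ v ∧
      K = convexHull ℝ (range v)

/-- An unconditional body: a convex body symmetric with respect to the coordinate hyperplanes. -/
structure IsUncond {ι : Type} [Fintype ι] (K : Set (ι → ℝ)) : Prop where
  body : IsBody K
  refl : ∀ x ∈ K, ∀ y : ι → ℝ, (∀ i, |y i| = |x i|) → y ∈ K

/-- The Cartesian product of `K` and `L`, as a set in `ℝ^(ι ⊕ κ)`. -/
def prodSet {ι κ : Type} (K : Set (ι → ℝ)) (L : Set (κ → ℝ)) : Set (ι ⊕ κ → ℝ) :=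
  {z | (fun i => z (Sum.inl i)) ∈ K ∧ (fun j => z (Sum.inr j)) ∈ L}

/-- The join of `K` and `L`: the convex hull of a copy `K × 0 × 1` of `K` and a copy `0 × L × 0` of
`L` placed in skew affine subspaces. -/
def joinSet {ι κ : Type} (K : Set (ι → ℝ)) (L : Set (κ → ℝ)) : Set ((ι ⊕ κ) ⊕ Unit → ℝ) :=
  {z | ∃ t ∈ Icc (0 : ℝ) 1, ∃ x ∈ K, ∃ y ∈ L,
    z = Sum.elim (Sum.elim (t • x) ((1 - t) • y)) (fun _ => t)}

/-- The free sum of `K` and `L`: the convex hull of the union of `K × 0` and `0 × L`. -/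
def freeSum {ι κ : Type} (K : Set (ι → ℝ)) (L : Set (κ → ℝ)) : Set (ι ⊕ κ → ℝ) :=
  convexHull ℝ ((fun x : ι → ℝ => Sum.elim x (0 : κ → ℝ)) '' K ∪
    (fun y : κ → ℝ => Sum.elim (0 : ι → ℝ) y) '' L)

/-- The smallest class of convex bodies which contains all convex corners and all unconditional
bodies of dimension at least two, and which is closed under affine equivalences, Cartesian
products (of bodies of positive dimensions), joins, and free sums of bodies containing the origin
(with the affine equivalences, free sums with respect to arbitrary points of the bodies). -/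
inductive Cls : {ι : Type} → [Fintype ι] → Set (ι → ℝ) → Prop
  | corner {ι : Type} [Fintype ι] {K : Set (ι → ℝ)} : IsCorner K → Cls K
  | uncond {ι : Type} [Fintype ι] {K : Set (ι → ℝ)} : 2 ≤ Fintype.card ι → IsUncond K → Cls K
  | affine {ι κ : Type} [Fintype ι] [Fintype κ] {K : Set (ι → ℝ)}
      (A : (ι → ℝ) ≃ᵃ[ℝ] (κ → ℝ)) : Cls K → Cls (A '' K)
  | prod {ι κ : Type} [Fintype ι] [Fintype κ] [Nonempty ι] [Nonempty κ] {K : Set (ι → ℝ)}
      {L : Set (κ → ℝ)} : Cls K → Cls L → Cls (prodSet K L)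
  | join {ι κ : Type} [Fintype ι] [Fintype κ] {K : Set (ι → ℝ)}
      {L : Set (κ → ℝ)} : Cls K → Cls L → Cls (joinSet K L)
  | freeSum {ι κ : Type} [Fintype ι] [Fintype κ] {K : Set (ι → ℝ)}
      {L : Set (κ → ℝ)} : (0 : ι → ℝ) ∈ K → (0 : κ → ℝ) ∈ L → Cls K → Cls L →
      Cls (AQ.freeSum K L)

variable {ι : Type} [Fintype ι]

/-- The length of the orthogonal projection of `K` onto the line spanned by the unit vector `u`:
the Lebesgue measure of the set of the inner products of `u` and the points of `K`. -/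
def lam (K : Set (ι → ℝ)) (u : EuclideanSpace ℝ ι) : ℝ :=
  (volume ((fun x : ι → ℝ => ∑ i, u i * x i) '' K)).toReal

/-- The volume of the Euclidean unit ball of dimension `n`. -/
def kap (n : ℕ) : ℝ := (volume (Metric.ball (0 : EuclideanSpace ℝ (Fin n)) 1)).toReal

/-- The affine quermassintegral `Φ_{n-1}(K)` of a convex body `K` of dimension `n`, i.e.
`(κ_n / κ_1) (∫ λ₁(K | S)^{-n} dS)^{-1/n}`, where `κ_1 = 2` and the integral over the
lines `S` is written as the average over the unit sphere. -/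
def Phi (K : Set (ι → ℝ)) : ℝ :=
  kap (Fintype.card ι) / 2 *
    (⨍ u : Metric.sphere (0 : EuclideanSpace ℝ ι) 1, (lam K u ^ Fintype.card ι)⁻¹
      ∂(volume : Measure (EuclideanSpace ℝ ι)).toSphere) ^ (-(1 / (Fintype.card ι : ℝ)))

/-- The constant `2 κ_n^{-2/n} ((n+1)/n!)^{1/n}`. -/
def aC (n : ℕ) : ℝ :=
  2 * kap n ^ (-(2 / (n : ℝ))) * (((n : ℝ) + 1) / (n.factorial : ℝ)) ^ (1 / (n : ℝ))

end Pool.Agent.Helper47.AQ
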