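import Pool.Agent.Helper47.AQ.Ineq
import Pool.Agent.Helper47.AQ.Defs

/-!
# Convex corners
-/

open MeasureTheory Set Filter Topology
open scoped ENNReal

noncomputable section

namespace Pool.Agent.Helper47.AQ

variable {ι : Type} [Fintype ι]

/-- The unconditional support function. -/
def supp (A : Set (ι → ℝ)) (p : ι → ℝ) : ℝ := sSup ((fun x : ι → ℝ => ∑ i, |p i| * |x i|) '' A)

/-- The properties of `A` needed for `supp A` to be an unconditional norm. -/
structure Adm (A : Set (ι → ℝ)) : Prop where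
  bdd : ∃ R : ℝ, 0 ≤ R ∧ ∀ x ∈ A, ∀ i, |x i| ≤ R
  int : ∃ δ : ℝ, 0 < δ ∧ (fun _ => δ) ∈ A

theorem Adm.bddAbove {A : Set (ι → ℝ)} (h : Adm A) (p : ι → ℝ) :
    BddAbove ((fun x : ι → ℝ => ∑ i, |p i| * |x i|) '' A) := by
  obtain ⟨R, hR, h2⟩ := h.bdd
  refine ⟨∑ i, |p i| * R, ?_⟩
  rintro _ ⟨x, hx, rfl⟩
  exact Finset.sum_le_sum fun i _ => mul_le_mul_of_nonneg_left (h2 x hx i) (abs_nonneg _)

theorem Adm.le_supp {A : Set (ι → ℝ)} (h : Adm A) (p : ι → ℝ) {x : ι → ℝ} (hx : x ∈ A) :
    ∑ i, |p i| * |x i| ≤ supp A p :=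
  le_csSup (h.bddAbove p) ⟨x, hx, rfl⟩

theorem Adm.supp_le {A : Set (ι → ℝ)} (h : Adm A) (p : ι → ℝ) (c : ℝ)
    (hc : ∀ x ∈ A, ∑ i, |p i| * |x i| ≤ c) : supp A p ≤ c := by
  obtain ⟨δ, _, h2⟩ := h.int
  refine csSup_le ⟨_, ⟨_, h2, rfl⟩⟩ ?_
  rintro _ ⟨x, hx, rfl⟩
  exact hc x hx

theorem Adm.unorm {A : Set (ι → ℝ)} (h : Adm A) : UNorm (supp A) where
  add p q := by
    refine h.supp_le _ _ fun x hx => ?_
    refine le_trans ?_ (add_le_add (h.le_supp p hx) (h.le_supp q hx))
    rw [← Finset.sum_add_distrib]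
    refine Finset.sum_le_sum fun i _ => ?_
    rw [← add_mul]
    exact mul_le_mul_of_nonneg_right (abs_add_le _ _) (abs_nonneg _)
  smul t p := by
    have key : ∀ (t : ℝ) (p : ι → ℝ), supp A (t • p) ≤ |t| * supp A p := by
      intro t p
      refine h.supp_le _ _ fun x hx => ?_
      have h1 : ∑ i, |(t • p) i| * |x i| = |t| * ∑ i, |p i| * |x i| := by
        rw [Finset.mul_sum]
        refine Finset.sum_congr rfl fun i _ => ?_
        simp [abs_mul, mul_assoc]
      rw [h1]
      exact mul_le_mul_of_nonneg_left (h.le_supp p hx) (abs_nonneg _)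
    refine le_antisymm (key t p) ?_
    by_cases ht : t = 0
    · subst ht
      obtain ⟨δ, _, h2⟩ := h.int
      have := h.le_supp ((0 : ℝ) • p) h2
      simp only [zero_smul, Pi.zero_apply, abs_zero, zero_mul, Finset.sum_const_zero] at this
      simpa using this
    · have h1 := key t⁻¹ (t • p)
      rw [smul_smul, inv_mul_cancel₀ ht, one_smul, abs_inv] at h1
      have h2 : 0 < |t| := abs_pos.2 ht
      calc |t| * supp A p ≤ |t| * (|t|⁻¹ * supp A (t • p)) :=
            mul_le_mul_of_nonneg_left h1 h2.le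
        _ = supp A (t • p) := by rw [← mul_assoc, mul_inv_cancel₀ h2.ne', one_mul]
  mono p q hpq := by
    refine h.supp_le _ _ fun x hx => le_trans ?_ (h.le_supp q hx)
    exact Finset.sum_le_sum fun i _ => mul_le_mul_of_nonneg_right (hpq i) (abs_nonneg _)
  pos := by
    obtain ⟨δ, hδ, h2⟩ := h.int
    refine ⟨δ, hδ, fun p => ?_⟩
    have := h.le_supp p h2
    rw [Finset.mul_sum]
    refine le_trans (le_of_eq (Finset.sum_congr rfl fun i _ => ?_)) this
    rw [abs_of_pos hδ, mul_comm]

/-- The unit ball of `supp A`. -/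
def dual (A : Set (ι → ℝ)) : Set (ι → ℝ) := {p | supp A p ≤ 1}

theorem Adm.dual {A : Set (ι → ℝ)} (h : Adm A) : Adm (dual A) where
  bdd := by
    classical
    obtain ⟨c, hc, h2⟩ := h.unorm.pos
    refine ⟨1 / c, by positivity, fun p hp i => ?_⟩
    have h3 := h2 p
    have h4 : |p i| ≤ ∑ i, |p i| :=
      Finset.single_le_sum (f := fun i => |p i|) (fun i _ => abs_nonneg _) (Finset.mem_univ i)
    have h5 : supp A p ≤ 1 := hp
    rw [le_div_iff₀ hc]
    nlinarith
  int := by
    set M := supp A (fun _ => 1) with hM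
    have hM0 : 0 ≤ M := h.unorm.nonneg _
    refine ⟨1 / (M + 1), by positivity, ?_⟩
    have h1 : (fun _ => 1 / (M + 1) : ι → ℝ) = (1 / (M + 1)) • (fun _ => (1 : ℝ)) := by
      funext i; simp
    show supp A _ ≤ 1
    rw [h1, h.unorm.smul, ← hM, abs_of_pos (by positivity), div_mul_eq_mul_div, one_mul,
      div_le_one (by positivity)]
    linarith

theorem Adm.dualPair {A : Set (ι → ℝ)} (h : Adm A) : Dual (supp (AQ.dual A)) (supp A) where
  hμ := h.dual.unorm
  hN := h.unorm
  b1 y hy := by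
    refine h.dual.supp_le _ _ fun p hp => ?_
    have h1 := hy p
    have h2 : supp A p ≤ 1 := hp
    have h3 : ∑ i, |y i| * |p i| = ∑ i, |p i| * |y i| :=
      Finset.sum_congr rfl fun i _ => mul_comm _ _
    linarith
  b2 p hp := by
    refine h.supp_le _ _ fun x hx => (hp x).trans ?_
    refine h.dual.supp_le _ _ fun q hq => ?_
    have h2 : supp A q ≤ 1 := hq
    have h1 := h.le_supp q hx
    have h3 : ∑ i, |x i| * |q i| = ∑ i, |q i| * |x i| :=
      Finset.sum_congr rfl fun i _ => mul_comm _ _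
    linarith

theorem IsCorner.zero_mem {K : Set (ι → ℝ)} (h : IsCorner K) : (0 : ι → ℝ) ∈ K := by
  obtain ⟨x, hx⟩ := h.body.int
  exact h.down x (interior_subset hx) 0 fun i => ⟨le_rfl, h.nonneg x (interior_subset hx) i⟩

theorem IsCorner.adm {K : Set (ι → ℝ)} (h : IsCorner K) : Adm K where
  bdd := by
    obtain ⟨R, hR⟩ := h.body.comp.isBounded.exists_norm_le
    refine ⟨max R 0, le_max_right _ _, fun x hx i => ?_⟩
    exact ((norm_le_pi_norm x i).trans (hR x hx)).trans (le_max_left _ _)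
  int := by
    obtain ⟨x, hx⟩ := h.body.int
    obtain ⟨ε, hε, h1⟩ := Metric.isOpen_iff.1 isOpen_interior x hx
    have hxK := interior_subset hx
    have h2 : x + (fun _ => ε / 2) ∈ K := by
      refine interior_subset (h1 ?_)
      rw [Metric.mem_ball, dist_eq_norm, add_sub_cancel_left]
      refine lt_of_le_of_lt ((pi_norm_le_iff_of_nonneg (by positivity : (0 : ℝ) ≤ ε / 2)).2
        fun i => ?_) (half_lt_self hε)
      rw [Real.norm_eq_abs, abs_of_pos (by positivity)]
    refine ⟨ε / 2, by positivity, h.down _ h2 _ fun i => ⟨by positivity, ?_⟩⟩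
    have := h.nonneg x hxK i
    simp only [Pi.add_apply]
    linarith

theorem IsCorner.supp_le_one {K : Set (ι → ℝ)} (h : IsCorner K) {x : ι → ℝ} (hx : x ∈ K) :
    supp (dual K) x ≤ 1 := by
  refine h.adm.dual.supp_le _ _ fun q hq => ?_
  have h2 : supp K q ≤ 1 := hq
  have h1 := h.adm.le_supp q hx
  have h3 : ∑ i, |x i| * |q i| = ∑ i, |q i| * |x i| :=
    Finset.sum_congr rfl fun i _ => mul_comm _ _
  linarith

theorem sum_pi_single [DecidableEq ι] (f : (ι → ℝ) →L[ℝ] ℝ) (x : ι → ℝ) :
    f x = ∑ i, f (Pi.single i 1) * x i := by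
  have hx : x = ∑ i, x i • (Pi.single i (1 : ℝ) : ι → ℝ) := by
    ext j
    simp [Finset.sum_apply, Pi.single_apply]
  conv_lhs => rw [hx]
  rw [map_sum]
  refine Finset.sum_congr rfl fun i _ => ?_
  rw [map_smul, smul_eq_mul, mul_comm]

/-- The bipolar theorem for corners. -/
theorem IsCorner.mem_of_supp {K : Set (ι → ℝ)} (h : IsCorner K) {x : ι → ℝ} (hx0 : ∀ i, 0 ≤ x i)
    (hx : supp (dual K) x ≤ 1) : x ∈ K := by
  classical
  by_contra hxK
  obtain ⟨f, u, h1, h2⟩ := geometric_hahn_banach_closed_point h.body.conv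
    h.body.comp.isClosed hxK
  have hu : 0 < u := by simpa using h1 0 h.zero_mem
  set q : ι → ℝ := fun i => max (f (Pi.single i 1)) 0 with hq
  have hq0 : ∀ i, 0 ≤ q i := fun i => le_max_right _ _
  have h3 : supp K q ≤ u := by
    refine h.adm.supp_le _ _ fun a ha => ?_
    set a' : ι → ℝ := fun i => if 0 < f (Pi.single i 1) then a i else 0 with ha'
    have ha'K : a' ∈ K := by
      refine h.down a ha a' fun i => ?_
      by_cases hi : 0 < f (Pi.single i 1)
      · simp only [ha', hi, if_true]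
        exact ⟨h.nonneg a ha i, le_rfl⟩
      · simp only [ha', hi, if_false]
        exact ⟨le_rfl, h.nonneg a ha i⟩
    have h4 := h1 a' ha'K
    rw [sum_pi_single] at h4
    refine le_trans (le_of_eq (Finset.sum_congr rfl fun i _ => ?_)) h4.le
    rw [abs_of_nonneg (hq0 i), abs_of_nonneg (h.nonneg a ha i)]
    by_cases hi : 0 < f (Pi.single i 1)
    · simp only [hq, ha', hi, if_true, max_eq_left hi.le]
    · simp only [hq, ha', hi, if_false, max_eq_right (not_lt.1 hi), zero_mul, mul_zero]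
  have h5 : u⁻¹ • q ∈ dual K := by
    show supp K _ ≤ 1
    rw [h.adm.unorm.smul, abs_of_pos (inv_pos.2 hu), inv_mul_le_iff₀ hu, mul_one]
    exact h3
  have h6 := h.adm.dual.le_supp x h5
  have h7 : ∑ i, |x i| * |(u⁻¹ • q) i| = u⁻¹ * ∑ i, q i * x i := by
    rw [Finset.mul_sum]
    refine Finset.sum_congr rfl fun i _ => ?_
    rw [abs_of_nonneg (hx0 i), Pi.smul_apply, smul_eq_mul,
      abs_of_nonneg (mul_nonneg (inv_pos.2 hu).le (hq0 i))]
    ring
  have h8 : f x ≤ ∑ i, q i * x i := by
    rw [sum_pi_single]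
    exact Finset.sum_le_sum fun i _ => mul_le_mul_of_nonneg_right (le_max_left _ _) (hx0 i)
  have h9 : 1 < u⁻¹ * ∑ i, q i * x i := by
    rw [lt_inv_mul_iff₀ hu, mul_one]
    linarith
  rw [h7] at h6
  linarith

theorem ae_ne_zero : ∀ᵐ x : ι → ℝ, ∀ i, x i ≠ 0 := by
  classical
  rw [ae_all_iff]
  intro i
  have h2 : volume {x : ι → ℝ | x i = 0} = 0 := by
    have h3 := Measure.addHaar_affineSubspace (volume : Measure (ι → ℝ))
      (LinearMap.ker (LinearMap.proj i : (ι → ℝ) →ₗ[ℝ] ℝ)).toAffineSubspace ?_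
    · rw [← h3]
      congr 1
    · intro htop
      have h4 : (fun _ => 1 : ι → ℝ) ∈
          (LinearMap.ker (LinearMap.proj i : (ι → ℝ) →ₗ[ℝ] ℝ)).toAffineSubspace := by
        rw [htop]; trivial
      have h5 : (1 : ℝ) = 0 := h4
      exact one_ne_zero h5
  rw [ae_iff]
  simpa using h2

theorem IsCorner.vol {K : Set (ι → ℝ)} (h : IsCorner K) :
    volume K = volume (P ι ∩ {x | supp (dual K) x ≤ 1}) := by
  refine measure_congr ?_
  filter_upwards [ae_ne_zero] with x hx
  refine propext ?_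
  constructor
  · intro hxK
    exact ⟨fun i => lt_of_le_of_ne (h.nonneg x hxK i) (hx i).symm, h.supp_le_one hxK⟩
  · rintro ⟨h1, h2⟩
    exact h.mem_of_supp (fun i => (h1 i).le) h2

theorem IsCorner.dpol_eq {K : Set (ι → ℝ)} (h : IsCorner K) :
    dpol K = {x | dif (supp K) x ≤ 1} := by
  classical
  ext p
  constructor
  · intro hp
    show supp K (fun i => max (p i) 0) + supp K (fun i => max (-(p i)) 0) ≤ 1
    have key : ∀ x ∈ K, ∀ y ∈ K, ∑ i, |max (p i) 0| * |x i| +
        ∑ i, |max (-(p i)) 0| * |y i| ≤ 1 := by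
      intro x hx y hy
      have hx' : (fun i => if 0 < p i then x i else 0) ∈ K := by
        refine h.down x hx _ fun i => ?_
        by_cases hi : 0 < p i
        · simp only [hi, if_true]; exact ⟨h.nonneg x hx i, le_rfl⟩
        · simp only [hi, if_false]; exact ⟨le_rfl, h.nonneg x hx i⟩
      have hy' : (fun i => if 0 < p i then 0 else y i) ∈ K := by
        refine h.down y hy _ fun i => ?_
        by_cases hi : 0 < p i
        · simp only [hi, if_true]; exact ⟨le_rfl, h.nonneg y hy i⟩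
        · simp only [hi, if_false]; exact ⟨h.nonneg y hy i, le_rfl⟩
      have h1 := hp _ hx' _ hy'
      rw [← Finset.sum_add_distrib]
      refine le_trans (le_of_eq (Finset.sum_congr rfl fun i _ => ?_)) h1
      have hxi := h.nonneg x hx i
      have hyi := h.nonneg y hy i
      by_cases hi : 0 < p i
      · rw [max_eq_left hi.le, max_eq_right (by linarith), abs_of_pos hi, abs_zero,
          abs_of_nonneg hxi]
        simp [hi]
      · have hi' := not_lt.1 hi
        rw [max_eq_right hi', max_eq_left (by linarith), abs_zero,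
          abs_of_nonneg (show (0 : ℝ) ≤ -(p i) by linarith),
          abs_of_nonneg hyi]
        simp [hi]
    have h2 : ∀ y ∈ K, supp K (fun i => max (p i) 0) ≤ 1 - ∑ i, |max (-(p i)) 0| * |y i| := by
      intro y hy
      refine h.adm.supp_le _ _ fun x hx => ?_
      have := key x hx y hy
      linarith
    have h3 : supp K (fun i => max (-(p i)) 0) ≤ 1 - supp K (fun i => max (p i) 0) := by
      refine h.adm.supp_le _ _ fun y hy => ?_
      have := h2 y hy
      linarith
    linarith
  · intro hp x hx y hy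
    have h0 : supp K (fun i => max (p i) 0) + supp K (fun i => max (-(p i)) 0) ≤ 1 := hp
    have h1 := h.adm.le_supp (fun i => max (p i) 0) hx
    have h2 := h.adm.le_supp (fun i => max (-(p i)) 0) hy
    refine le_trans ?_ ((add_le_add h1 h2).trans h0)
    rw [← Finset.sum_add_distrib]
    refine Finset.sum_le_sum fun i _ => ?_
    have hxi := h.nonneg x hx i
    have hyi := h.nonneg y hy i
    by_cases hi : 0 < p i
    · rw [max_eq_left hi.le, max_eq_right (by linarith), abs_of_pos hi, abs_zero,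
        abs_of_nonneg hxi]
      nlinarith
    · have hi' := not_lt.1 hi
      rw [max_eq_right hi', max_eq_left (by linarith), abs_zero,
          abs_of_nonneg (show (0 : ℝ) ≤ -(p i) by linarith),
        abs_of_nonneg hyi]
      nlinarith

end Pool.Agent.Helper47.AQ
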