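import Pool.Agent.Helper47.AQ.Phi

/-!
The case i = 1 of the sharp lower bound of the volume by the affine quermassintegrals, for the
bodies built from convex corners and unconditional bodies by affine maps, products, joins and free
sums; all polytopes with at most n + 2 vertices are among them.
-/

open MeasureTheory Set
open Pool.Agent.Helper47.AQ

namespace Pool.Agent.Results.MP_6fb600_gt.CornersFreeSums

/-- For the bodies K of the class the inequality a Φ(K) ≤ κ^{(n-1)/n} V(K)^{1/n} holds, with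
equality exactly for the simplices; all simplices and all convex hulls of n + 2 points (with
nonempty interior) are in the class and a is the best constant. -/
theorem result (n : ℕ) (hn : 1 ≤ n) :
    (∀ K : Set (Fin n → ℝ), Cls K →
      aC n * Phi K ≤ kap n ^ (((n : ℝ) - 1) / n) * (volume K).toReal ^ (1 / (n : ℝ)) ∧
      (aC n * Phi K = kap n ^ (((n : ℝ) - 1) / n) * (volume K).toReal ^ (1 / (n : ℝ)) ↔
        IsSimplex K) ∧
      ((n : ℝ) + 1) / (n.factorial : ℝ) ≤ (volume K).toReal * (volume (dpol K)).toReal) ∧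
    (∀ v : Fin (n + 2) → Fin n → ℝ, (interior (convexHull ℝ (range v))).Nonempty →
      Cls (convexHull ℝ (range v))) ∧
    (∀ K : Set (Fin n → ℝ), IsSimplex K → Cls K) ∧
    IsGreatest {a : ℝ | ∀ K : Set (Fin n → ℝ), Cls K →
      a * Phi K ≤ kap n ^ (((n : ℝ) - 1) / n) * (volume K).toReal ^ (1 / (n : ℝ))} (aC n) := by
  have hne : Nonempty (Fin n) := Fin.pos_iff_nonempty.1 hn
  have key : ∀ K : Set (Fin n → ℝ), Cls K →
      aC n * Phi K ≤ kap n ^ (((n : ℝ) - 1) / n) * (volume K).toReal ^ (1 / (n : ℝ)) ∧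
      (aC n * Phi K = kap n ^ (((n : ℝ) - 1) / n) * (volume K).toReal ^ (1 / (n : ℝ)) ↔
        IsSimplex K) ∧
      ((n : ℝ) + 1) / (n.factorial : ℝ) ≤ (volume K).toReal * (volume (dpol K)).toReal := by
    intro K hK
    obtain ⟨h1, h2, h3⟩ := hK.main
    obtain ⟨h4, h5⟩ := h1.Phi_iff
    simp only [Fintype.card_fin] at h2 h3 h4 h5
    refine ⟨h4.2 h2, ⟨fun h6 => h3 (h5.1 h6), fun h6 => h5.2 ?_⟩, h2⟩
    have h7 := h6.F_eq
    simpa using h7
  refine ⟨key, fun v hv => few_vertices (by simp) v hv, fun K hK => hK.cls,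
    fun K hK => (key K hK).1, fun a ha => ?_⟩
  have hs : IsSimplex {x : Fin n → ℝ | (∀ i, 0 ≤ x i) ∧ ∑ i, x i ≤ 1} := by
    have h2 := simplexW (fun _ : Fin n => (1 : ℝ)) (fun _ => one_pos)
    simp only [mul_one] at h2
    exact ⟨corner_simplex.body.int, h2⟩
  have h1 := ha _ hs.cls
  rw [← (key _ hs.cls).2.1.2 hs] at h1
  exact le_of_mul_le_mul_right h1 hs.isBody.Phi_pos

end Pool.Agent.Results.MP_6fb600_gt.CornersFreeSums
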