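import Pool.Agent.Helper47.AQ.Class

/-!
# Polytopes with at most `n + 2` vertices
-/

open MeasureTheory Set Filter Topology
open scoped ENNReal

noncomputable section

namespace Pool.Agent.Helper47.AQ

variable {ι κ : Type} [Fintype ι] [Fintype κ]

/-- The vertices `e_i` and `-w`. -/
def svert {α : Type} [DecidableEq α] (w : α → ℝ) : Option α → α → ℝ :=
  fun o => o.elim (-w) (fun i => Pi.single i 1)

/-- The simplex with the vertices `e_i` and `-w`. -/
def smp {α : Type} [DecidableEq α] (w : α → ℝ) : Set (α → ℝ) := convexHull ℝ (range (svert w))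

theorem smp_simplex {α : Type} [Fintype α] [DecidableEq α] (w : α → ℝ) (hw : ∀ i, 0 ≤ w i) :
    IsSimplex (smp w) := by
  have hW : 0 ≤ ∑ i, w i := Finset.sum_nonneg fun i _ => hw i
  have hind : AffineIndependent ℝ (svert w) := by
    rw [affineIndependent_iff_of_fintype]
    intro d hd1 hd2
    rw [Finset.weightedVSub_eq_linear_combination _ hd1] at hd2
    rw [Fintype.sum_option] at hd1 hd2
    have h1 : ∀ i, d (some i) = d none * w i := by
      intro i
      have h2 := congrFun hd2 i
      rw [Pi.add_apply, Finset.sum_apply, Finset.sum_eq_single i] at h2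
      · simp only [svert, Option.elim, Pi.smul_apply, Pi.neg_apply, smul_eq_mul,
          Pi.single_eq_same, mul_one, Pi.zero_apply] at h2
        linarith
      · intro b _ hb
        simp [svert, hb.symm]
      · intro h; exact absurd (Finset.mem_univ i) h
    have h2 : d none * (1 + ∑ i, w i) = 0 := by
      rw [← hd1, mul_add, mul_one, Finset.mul_sum]
      congr 1
      exact Finset.sum_congr rfl fun i _ => (h1 i).symm
    have h3 : d none = 0 := (mul_eq_zero.1 h2).resolve_right (by positivity)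
    rintro (_ | i)
    · exact h3
    · rw [h1, h3, zero_mul]
  refine ⟨?_, Option α, inferInstance, svert w, hind, rfl⟩
  unfold smp
  rw [interior_convexHull_nonempty_iff_affineSpan_eq_top]
  rw [hind.affineSpan_eq_top_iff_card_eq_finrank_add_one]
  simp

theorem zero_mem_smp {α : Type} [Fintype α] [DecidableEq α] (w : α → ℝ) (hw : ∀ i, 0 ≤ w i) :
    (0 : α → ℝ) ∈ smp w := by
  have hW : 0 ≤ ∑ i, w i := Finset.sum_nonneg fun i _ => hw i
  have hW1 : 0 < 1 + ∑ i, w i := by linarith
  refine mem_convexHull_of_exists_fintype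
    (fun o : Option α => o.elim (1 / (1 + ∑ i, w i)) (fun i => w i / (1 + ∑ i, w i)))
    (svert w) ?_ ?_ (fun o => ⟨o, rfl⟩) ?_
  · rintro (_ | i)
    · simp only [Option.elim]; positivity
    · simp only [Option.elim]; exact div_nonneg (hw i) hW1.le
  · rw [Fintype.sum_option]
    simp only [Option.elim]
    rw [← Finset.sum_div]
    field_simp
  · rw [Fintype.sum_option]
    funext j
    have h1 : ∑ i, ((w i / (1 + ∑ i, w i)) • svert w (some i)) j = w j / (1 + ∑ i, w i) := by
      refine (Finset.sum_eq_single j ?_ ?_).trans ?_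
      · intro b _ hb
        simp [svert, hb.symm]
      · intro h; exact absurd (Finset.mem_univ j) h
      · simp [svert]
    rw [Pi.add_apply, Finset.sum_apply]
    refine (congrArg₂ (· + ·) rfl h1).trans ?_
    simp only [svert, Option.elim, Pi.smul_apply, Pi.neg_apply, smul_eq_mul, Pi.zero_apply]
    ring

/-- The embedding of the first summand. -/
def inlL (ι κ : Type) : (ι → ℝ) →ₗ[ℝ] (ι ⊕ κ → ℝ) where
  toFun x := Sum.elim x 0
  map_add' x y := by
    funext o
    rcases o with o | o <;> simp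
  map_smul' t x := by
    funext o
    rcases o with o | o <;> simp

/-- The embedding of the second summand. -/
def inrL (ι κ : Type) : (κ → ℝ) →ₗ[ℝ] (ι ⊕ κ → ℝ) where
  toFun x := Sum.elim 0 x
  map_add' x y := by
    funext o
    rcases o with o | o <;> simp
  map_smul' t x := by
    funext o
    rcases o with o | o <;> simp

theorem freeSum_subset {K : Set (ι → ℝ)} {L : Set (κ → ℝ)} {S : Set (ι ⊕ κ → ℝ)}
    (hS : Convex ℝ S) (h1 : ∀ x ∈ K, inlL ι κ x ∈ S) (h2 : ∀ y ∈ L, inrL ι κ y ∈ S) :
    freeSum K L ⊆ S := by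
  refine convexHull_min ?_ hS
  rintro _ (⟨x, hx, rfl⟩ | ⟨y, hy, rfl⟩)
  · exact h1 x hx
  · exact h2 y hy

theorem inl_mem_freeSum {K : Set (ι → ℝ)} (L : Set (κ → ℝ)) {x : ι → ℝ} (hx : x ∈ K) :
    inlL ι κ x ∈ freeSum K L := subset_convexHull ℝ _ (Or.inl ⟨x, hx, rfl⟩)

theorem inr_mem_freeSum (K : Set (ι → ℝ)) {L : Set (κ → ℝ)} {y : κ → ℝ} (hy : y ∈ L) :
    inrL ι κ y ∈ freeSum K L := subset_convexHull ℝ _ (Or.inr ⟨y, hy, rfl⟩)

/-- A convex hull of `n + 2` points of `ℝⁿ` with nonempty interior belongs to the class. -/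
theorem few_vertices {σ : Type} [Fintype σ] (hσ : Fintype.card σ = Fintype.card ι + 2)
    (v : σ → ι → ℝ) (hint : (interior (convexHull ℝ (range v))).Nonempty) :
    Cls (convexHull ℝ (range v)) := by
  classical
  have hnot : ¬ AffineIndependent ℝ v := by
    intro h
    have h1 := h.card_le_finrank_succ
    have h2 : Module.finrank ℝ (vectorSpan ℝ (range v)) ≤ Module.finrank ℝ (ι → ℝ) :=
      Submodule.finrank_le _
    rw [Module.finrank_fintype_fun_eq_card] at h2
    omega
  rw [affineIndependent_iff_of_fintype] at hnot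
  push Not at hnot
  obtain ⟨c, hc1, hc2, i1, hi1⟩ := hnot
  rw [Finset.weightedVSub_eq_linear_combination _ hc1] at hc2
  -- a positive and a negative coefficient
  obtain ⟨i0, hi0⟩ : ∃ i, 0 < c i := by
    by_contra hcon
    push Not at hcon
    have h1 := (Finset.sum_eq_zero_iff_of_nonpos (fun i _ => hcon i)).1 hc1 i1 (Finset.mem_univ _)
    exact hi1 h1
  obtain ⟨j0, hj0⟩ : ∃ i, c i < 0 := by
    by_contra hcon
    push Not at hcon
    have h1 := (Finset.sum_eq_zero_iff_of_nonneg (fun i _ => hcon i)).1 hc1 i1 (Finset.mem_univ _)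
    exact hi1 h1
  set C : ℝ := ∑ i, max (c i) 0 with hC
  have hC0 : 0 < C := by
    refine lt_of_lt_of_le (by rw [max_eq_left hi0.le]; exact hi0 : (0 : ℝ) < max (c i0) 0) ?_
    exact Finset.single_le_sum (f := fun i => max (c i) 0) (fun i _ => le_max_right _ _)
      (Finset.mem_univ i0)
  set z : ι → ℝ := ∑ i, (max (c i) 0 / C) • v i with hz
  set H := convexHull ℝ (range v) with hH
  have hzH : z ∈ H := by
    refine mem_convexHull_of_exists_fintype (fun i => max (c i) 0 / C) v
      (fun i => div_nonneg (le_max_right _ _) hC0.le) ?_ (fun i => ⟨i, rfl⟩) rfl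
    rw [← Finset.sum_div, div_self hC0.ne']
  have hposz : ∑ i, max (c i) 0 • (v i - z) = 0 := by
    have h1 : ∑ i, max (c i) 0 • v i = C • z := by
      rw [hz, Finset.smul_sum]
      refine Finset.sum_congr rfl fun i _ => ?_
      rw [smul_smul, mul_div_cancel₀ _ hC0.ne']
    simp_rw [smul_sub]
    rw [Finset.sum_sub_distrib, h1, ← Finset.sum_smul, ← hC, sub_self]
  have hnegz : ∑ i, min (c i) 0 • (v i - z) = 0 := by
    have h1 : ∀ i, min (c i) 0 = c i - max (c i) 0 := by
      intro i
      have := min_add_max (c i) 0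
      linarith
    simp_rw [h1, sub_smul]
    rw [Finset.sum_sub_distrib, hposz, sub_zero]
    simp_rw [smul_sub]
    rw [Finset.sum_sub_distrib, hc2, ← Finset.sum_smul, hc1, zero_smul, sub_zero]
  -- index types
  let P' := {i : σ // 0 < c i ∧ i ≠ i0}
  let N' := {i : σ // c i < 0 ∧ i ≠ j0}
  let Z' := {i : σ // c i = 0}
  set wP : P' → ℝ := fun i => c i.1 / c i0 with hwP
  set wN : N' → ℝ := fun i => c i.1 / c j0 with hwN
  have hwP0 : ∀ i, 0 ≤ wP i := fun i => div_nonneg i.2.1.le hi0.le
  have hwN0 : ∀ i, 0 ≤ wN i := fun i => div_nonneg_of_nonpos i.2.1.le hj0.le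
  set Φ : ((P' ⊕ N') ⊕ Z' → ℝ) →ₗ[ℝ] (ι → ℝ) :=
    ∑ o : (P' ⊕ N') ⊕ Z', LinearMap.smulRight (LinearMap.proj o)
      (v (Sum.elim (Sum.elim (fun i : P' => i.1) (fun i : N' => i.1)) (fun i : Z' => i.1) o) - z)
    with hΦ
  have hΦx : ∀ x, Φ x = ∑ o : (P' ⊕ N') ⊕ Z', x o •
      (v (Sum.elim (Sum.elim (fun i : P' => i.1) (fun i : N' => i.1)) (fun i : Z' => i.1) o) - z) := by
    intro x
    rw [hΦ, LinearMap.sum_apply]
    rfl
  have hP : ∀ x : P' → ℝ, Φ (inlL _ _ (inlL _ _ x)) = ∑ i : P', x i • (v i.1 - z) := by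
    intro x
    rw [hΦx, Fintype.sum_sum_type, Fintype.sum_sum_type]
    simp [inlL]
  have hN : ∀ x : N' → ℝ, Φ (inlL _ _ (inrL _ _ x)) = ∑ i : N', x i • (v i.1 - z) := by
    intro x
    rw [hΦx, Fintype.sum_sum_type, Fintype.sum_sum_type]
    simp [inlL, inrL]
  have hZ : ∀ x : Z' → ℝ, Φ (inrL _ _ x) = ∑ i : Z', x i • (v i.1 - z) := by
    intro x
    rw [hΦx, Fintype.sum_sum_type, Fintype.sum_sum_type]
    simp [inrL]
  have hsingle : ∀ {α : Type} [Fintype α] [DecidableEq α] (g : α → ι → ℝ) (i : α),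
      ∑ j, (Pi.single i (1 : ℝ) : α → ℝ) j • g j = g i := by
    intro α _ _ g i
    rw [Finset.sum_eq_single i]
    · simp
    · intro b _ hb; simp [hb]
    · intro h; exact absurd (Finset.mem_univ i) h
  have hPi0 : ∑ i : P', (-wP) i • (v i.1 - z) = v i0 - z := by
    have h1 : ∑ i : σ, max (c i) 0 • (v i - z) =
        c i0 • (v i0 - z) + ∑ i : P', c i.1 • (v i.1 - z) := by
      rw [← Finset.sum_erase_add _ _ (Finset.mem_univ i0), add_comm, max_eq_left hi0.le]
      congr 1
      have h2 : ∑ i ∈ Finset.univ.erase i0, max (c i) 0 • (v i - z) =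
          ∑ i ∈ Finset.univ.filter (fun i => 0 < c i ∧ i ≠ i0), c i • (v i - z) := by
        rw [Finset.sum_filter]
        rw [← Finset.sum_subset (Finset.subset_univ (Finset.univ.erase i0))]
        · refine Finset.sum_congr rfl fun i hi => ?_
          have hne : i ≠ i0 := Finset.ne_of_mem_erase hi
          by_cases hci : 0 < c i
          · rw [if_pos ⟨hci, hne⟩, max_eq_left hci.le]
          · rw [if_neg (fun h => hci h.1), max_eq_right (not_lt.1 hci), zero_smul]
        · intro i _ hi
          have : i = i0 := by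
            by_contra hne
            exact hi (Finset.mem_erase.2 ⟨hne, Finset.mem_univ _⟩)
          rw [if_neg (fun h => h.2 this)]
      rw [h2]
      exact (Finset.sum_subtype _ (fun i => by simp) (fun i => c i • (v i - z)))
    rw [hposz] at h1
    have h3 : ∑ i : P', (-wP) i • (v i.1 - z) = (-(1 / c i0)) • ∑ i : P', c i.1 • (v i.1 - z) := by
      rw [Finset.smul_sum]
      refine Finset.sum_congr rfl fun i _ => ?_
      rw [smul_smul]
      congr 1
      simp only [hwP, Pi.neg_apply]
      ring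
    have h4 : ∑ i : P', c i.1 • (v i.1 - z) = -(c i0 • (v i0 - z)) := by
      rw [eq_neg_iff_add_eq_zero, add_comm]
      exact h1.symm
    rw [h3, h4, smul_neg, neg_smul, neg_neg, smul_smul, one_div, inv_mul_cancel₀ hi0.ne', one_smul]
  have hNj0 : ∑ i : N', (-wN) i • (v i.1 - z) = v j0 - z := by
    have h1 : ∑ i : σ, min (c i) 0 • (v i - z) =
        c j0 • (v j0 - z) + ∑ i : N', c i.1 • (v i.1 - z) := by
      rw [← Finset.sum_erase_add _ _ (Finset.mem_univ j0), add_comm, min_eq_left hj0.le]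
      congr 1
      have h2 : ∑ i ∈ Finset.univ.erase j0, min (c i) 0 • (v i - z) =
          ∑ i ∈ Finset.univ.filter (fun i => c i < 0 ∧ i ≠ j0), c i • (v i - z) := by
        rw [Finset.sum_filter]
        rw [← Finset.sum_subset (Finset.subset_univ (Finset.univ.erase j0))]
        · refine Finset.sum_congr rfl fun i hi => ?_
          have hne : i ≠ j0 := Finset.ne_of_mem_erase hi
          by_cases hci : c i < 0
          · rw [if_pos ⟨hci, hne⟩, min_eq_left hci.le]
          · rw [if_neg (fun h => hci h.1), min_eq_right (not_lt.1 hci), zero_smul]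
        · intro i _ hi
          have : i = j0 := by
            by_contra hne
            exact hi (Finset.mem_erase.2 ⟨hne, Finset.mem_univ _⟩)
          rw [if_neg (fun h => h.2 this)]
      rw [h2]
      exact (Finset.sum_subtype _ (fun i => by simp) (fun i => c i • (v i - z)))
    rw [hnegz] at h1
    have h3 : ∑ i : N', (-wN) i • (v i.1 - z) = (-(1 / c j0)) • ∑ i : N', c i.1 • (v i.1 - z) := by
      rw [Finset.smul_sum]
      refine Finset.sum_congr rfl fun i _ => ?_
      rw [smul_smul]
      congr 1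
      simp only [hwN, Pi.neg_apply]
      ring
    have h4 : ∑ i : N', c i.1 • (v i.1 - z) = -(c j0 • (v j0 - z)) := by
      rw [eq_neg_iff_add_eq_zero, add_comm]
      exact h1.symm
    rw [h3, h4, smul_neg, neg_smul, neg_neg, smul_smul, one_div, inv_mul_cancel₀ hj0.ne, one_smul]
  set M : Set ((P' ⊕ N') ⊕ Z' → ℝ) := freeSum (freeSum (smp wP) (smp wN)) (smp (0 : Z' → ℝ)) with hM
  -- the images of the points
  have hmem : ∀ i : σ, ∃ x ∈ M, Φ x = v i - z := by
    intro i
    rcases lt_trichotomy (c i) 0 with h | h | h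
    · by_cases hij : i = j0
      · refine ⟨inlL _ _ (inrL _ _ (-wN)), inl_mem_freeSum _ (inr_mem_freeSum _
          (subset_convexHull ℝ _ ⟨none, rfl⟩)), ?_⟩
        rw [hN, hNj0, hij]
      · refine ⟨inlL _ _ (inrL _ _ (Pi.single ⟨i, h, hij⟩ 1)), inl_mem_freeSum _
          (inr_mem_freeSum _ (subset_convexHull ℝ _ ⟨some ⟨i, h, hij⟩, rfl⟩)), ?_⟩
        rw [hN, hsingle (fun j : N' => v j.1 - z)]
    · refine ⟨inrL _ _ (Pi.single ⟨i, h⟩ 1), inr_mem_freeSum _
          (subset_convexHull ℝ _ ⟨some ⟨i, h⟩, rfl⟩), ?_⟩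
      rw [hZ, hsingle (fun j : Z' => v j.1 - z)]
    · by_cases hij : i = i0
      · refine ⟨inlL _ _ (inlL _ _ (-wP)), inl_mem_freeSum _ (inl_mem_freeSum _
          (subset_convexHull ℝ _ ⟨none, rfl⟩)), ?_⟩
        rw [hP, hPi0, hij]
      · refine ⟨inlL _ _ (inlL _ _ (Pi.single ⟨i, h, hij⟩ 1)), inl_mem_freeSum _
          (inl_mem_freeSum _ (subset_convexHull ℝ _ ⟨some ⟨i, h, hij⟩, rfl⟩)), ?_⟩
        rw [hP, hsingle (fun j : P' => v j.1 - z)]
  -- surjectivity
  have hsurj : Function.Surjective Φ := by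
    rw [← LinearMap.range_eq_top]
    have hspan : affineSpan ℝ (range v) = ⊤ := affineSpan_eq_top_of_nonempty_interior hint
    have hle : affineSpan ℝ (range v) ≤ AffineSubspace.mk' z (LinearMap.range Φ) := by
      rw [affineSpan_le]
      rintro _ ⟨i, rfl⟩
      obtain ⟨x, _, hx⟩ := hmem i
      show v i ∈ AffineSubspace.mk' z (LinearMap.range Φ)
      rw [AffineSubspace.mem_mk', vsub_eq_sub, ← hx]
      exact LinearMap.mem_range_self _ _
    rw [hspan, top_le_iff] at hle
    have h1 := congrArg AffineSubspace.direction hle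
    rw [AffineSubspace.direction_mk', AffineSubspace.direction_top] at h1
    exact h1
  have hcard : Fintype.card ((P' ⊕ N') ⊕ Z') ≤ Fintype.card ι := by
    have e1 : Fintype.card P' + 1 = (Finset.univ.filter (fun i => 0 < c i)).card := by
      rw [Fintype.card_subtype]
      have : (Finset.univ.filter (fun i => 0 < c i ∧ i ≠ i0)) =
          (Finset.univ.filter (fun i => 0 < c i)).erase i0 := by
        ext i
        simp [and_comm]
      rw [this]
      exact Finset.card_erase_add_one (by simp [hi0])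
    have e2 : Fintype.card N' + 1 = (Finset.univ.filter (fun i => c i < 0)).card := by
      rw [Fintype.card_subtype]
      have : (Finset.univ.filter (fun i => c i < 0 ∧ i ≠ j0)) =
          (Finset.univ.filter (fun i => c i < 0)).erase j0 := by
        ext i
        simp [and_comm]
      rw [this]
      exact Finset.card_erase_add_one (by simp [hj0])
    have e3 : Fintype.card Z' = (Finset.univ.filter (fun i => c i = 0)).card := by
      rw [Fintype.card_subtype]
    have e4 : (Finset.univ.filter (fun i => 0 < c i)).card +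
        (Finset.univ.filter (fun i => c i < 0)).card +
        (Finset.univ.filter (fun i => c i = 0)).card = Fintype.card σ := by
      rw [Finset.card_filter, Finset.card_filter, Finset.card_filter, ← Finset.sum_add_distrib,
        ← Finset.sum_add_distrib, ← Finset.card_univ, Finset.card_eq_sum_ones]
      refine Finset.sum_congr rfl fun i _ => ?_
      rcases lt_trichotomy (c i) 0 with h | h | h
      · simp [h, h.le, h.ne]
      · simp [h]
      · simp [h, h.le, h.ne']
    rw [Fintype.card_sum, Fintype.card_sum]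
    omega
  have hcard' : Fintype.card ((P' ⊕ N') ⊕ Z') = Fintype.card ι := by
    refine le_antisymm hcard ?_
    have := LinearMap.finrank_le_finrank_of_surjective hsurj
    rwa [Module.finrank_fintype_fun_eq_card, Module.finrank_fintype_fun_eq_card] at this
  have hinj : Function.Injective Φ := by
    rw [LinearMap.injective_iff_surjective_of_finrank_eq_finrank]
    · exact hsurj
    · rw [Module.finrank_fintype_fun_eq_card, Module.finrank_fintype_fun_eq_card, hcard']
  set Φe : ((P' ⊕ N') ⊕ Z' → ℝ) ≃ₗ[ℝ] (ι → ℝ) := LinearEquiv.ofBijective Φ ⟨hinj, hsurj⟩ with hΦe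
  set A : ((P' ⊕ N') ⊕ Z' → ℝ) ≃ᵃ[ℝ] (ι → ℝ) :=
    Φe.toAffineEquiv.trans (AffineEquiv.vaddConst ℝ z) with hA
  have hAx : ∀ x, A x = Φ x + z := fun x => rfl
  have hMcls : Cls M := by
    refine Cls.freeSum (zero_mem_freeSum (zero_mem_smp _ hwP0)) (zero_mem_smp _ fun _ => le_rfl)
      (Cls.freeSum (zero_mem_smp _ hwP0) (zero_mem_smp _ hwN0) (smp_simplex _ hwP0).cls
        (smp_simplex _ hwN0).cls) (smp_simplex _ fun _ => le_rfl).cls
  have hHc : Convex ℝ H := convex_convexHull ℝ _
  have hvH : ∀ i, v i ∈ H := fun i => subset_convexHull ℝ _ ⟨i, rfl⟩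
  have himg : A '' M = H := by
    apply Subset.antisymm
    · have hS : Convex ℝ (A ⁻¹' H) :=
        hHc.affine_preimage (A : ((P' ⊕ N') ⊕ Z' → ℝ) →ᵃ[ℝ] (ι → ℝ))
      rw [image_subset_iff]
      refine freeSum_subset hS ?_ ?_
      · have hS1 : Convex ℝ ((inlL (P' ⊕ N') Z') ⁻¹' (A ⁻¹' H)) := hS.linear_preimage _
        refine fun x hx => freeSum_subset (S := (inlL (P' ⊕ N') Z') ⁻¹' (A ⁻¹' H)) hS1 ?_ ?_ hx
        · have hS2 : Convex ℝ ((inlL P' N') ⁻¹' ((inlL (P' ⊕ N') Z') ⁻¹' (A ⁻¹' H))) :=
            hS1.linear_preimage _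
          intro y hy
          refine convexHull_min (t := (inlL P' N') ⁻¹' ((inlL (P' ⊕ N') Z') ⁻¹' (A ⁻¹' H))) ?_
            hS2 hy
          rintro _ ⟨(_ | i), rfl⟩
          · show A (inlL _ _ (inlL _ _ (-wP))) ∈ H
            rw [hAx, hP, hPi0, sub_add_cancel]
            exact hvH i0
          · show A (inlL _ _ (inlL _ _ (Pi.single i 1))) ∈ H
            rw [hAx, hP, hsingle (fun j : P' => v j.1 - z), sub_add_cancel]
            exact hvH _
        · have hS2 : Convex ℝ ((inrL P' N') ⁻¹' ((inlL (P' ⊕ N') Z') ⁻¹' (A ⁻¹' H))) :=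
            hS1.linear_preimage _
          intro y hy
          refine convexHull_min (t := (inrL P' N') ⁻¹' ((inlL (P' ⊕ N') Z') ⁻¹' (A ⁻¹' H))) ?_
            hS2 hy
          rintro _ ⟨(_ | i), rfl⟩
          · show A (inlL _ _ (inrL _ _ (-wN))) ∈ H
            rw [hAx, hN, hNj0, sub_add_cancel]
            exact hvH j0
          · show A (inlL _ _ (inrL _ _ (Pi.single i 1))) ∈ H
            rw [hAx, hN, hsingle (fun j : N' => v j.1 - z), sub_add_cancel]
            exact hvH _
      · have hS1 : Convex ℝ ((inrL (P' ⊕ N') Z') ⁻¹' (A ⁻¹' H)) := hS.linear_preimage _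
        intro y hy
        refine convexHull_min (t := (inrL (P' ⊕ N') Z') ⁻¹' (A ⁻¹' H)) ?_ hS1 hy
        rintro _ ⟨(_ | i), rfl⟩
        · show A (inrL _ _ (-0)) ∈ H
          rw [hAx, neg_zero, map_zero, map_zero, zero_add]
          exact hzH
        · show A (inrL _ _ (Pi.single i 1)) ∈ H
          rw [hAx, hZ, hsingle (fun j : Z' => v j.1 - z), sub_add_cancel]
          exact hvH _
    · refine convexHull_min ?_ ?_
      · rintro _ ⟨i, rfl⟩
        obtain ⟨x, hx, hxi⟩ := hmem i
        exact ⟨x, hx, by rw [hAx, hxi, sub_add_cancel]⟩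
      · exact (convex_convexHull ℝ _).affine_image (A : ((P' ⊕ N') ⊕ Z' → ℝ) →ᵃ[ℝ] (ι → ℝ))
  rw [← himg]
  exact Cls.affine A hMcls

end Pool.Agent.Helper47.AQ
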