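import Pool.Agent.Helper47.AQ.FreeSum

/-!
# Free sums: the volume product
-/

open MeasureTheory Set Filter Topology
open scoped ENNReal Pointwise

noncomputable section

namespace Pool.Agent.Helper47.AQ

variable {ι κ : Type} [Fintype ι] [Fintype κ]

theorem hs_nonneg {K : Set (ι → ℝ)} (h : IsBody K) (h0 : (0 : ι → ℝ) ∈ K) (p : ι → ℝ) :
    0 ≤ hs K p := by
  have := h.le_hs p h0
  simpa using this

theorem measurable_slices {K : Set (ι → ℝ)} (h : IsBody K) :
    MeasurableSet {z : ℝ × (ι → ℝ) | z.2 ∈ QS K z.1 (1 - z.1)} := by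
  refine MeasurableSet.inter (s₁ := {z : ℝ × (ι → ℝ) | hs K (-z.2) ≤ z.1})
    (s₂ := {z : ℝ × (ι → ℝ) | hs K z.2 ≤ 1 - z.1}) ?_ ?_
  · exact measurableSet_le ((h.hs_continuous.comp continuous_neg).measurable.comp measurable_snd)
      measurable_fst
  · exact measurableSet_le (h.hs_continuous.measurable.comp measurable_snd)
      (measurable_const.sub measurable_fst)

theorem measurable_GS {K : Set (ι → ℝ)} (h : IsBody K) :
    Measurable fun s : ℝ => GS K s (1 - s) :=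
  measurable_measure_prodMk_left (ν := (volume : Measure (ι → ℝ))) (measurable_slices h)

theorem lint_GS {K : Set (ι → ℝ)} (h : IsBody K) (h0 : (0 : ι → ℝ) ∈ K) :
    ∫⁻ s in Icc (0 : ℝ) 1, GS K s (1 - s) =
      ENNReal.ofReal (1 / ((Fintype.card ι : ℝ) + 1)) * volume (dpol K) := by
  rw [← lint_one_sub h]
  set S : Set (ℝ × (ι → ℝ)) := {z | z.2 ∈ QS K z.1 (1 - z.1)} with hS
  have hSm : MeasurableSet S := measurable_slices h
  have h1 : ∀ s : ℝ, GS K s (1 - s) = ∫⁻ p, S.indicator (fun _ => (1 : ℝ≥0∞)) (s, p) := by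
    intro s
    have h2 : (fun p => S.indicator (fun _ => (1 : ℝ≥0∞)) (s, p)) =
        (QS K s (1 - s)).indicator (fun _ => (1 : ℝ≥0∞)) := by
      funext p
      by_cases hp : p ∈ QS K s (1 - s)
      · rw [indicator_of_mem hp, indicator_of_mem (show (s, p) ∈ S from hp)]
      · rw [indicator_of_notMem hp, indicator_of_notMem (show (s, p) ∉ S from hp)]
    rw [h2, lintegral_indicator_const (h.closed_QS _ _).measurableSet, one_mul]
    rfl
  simp_rw [h1]
  have hF : AEMeasurable (Function.uncurry fun (s : ℝ) (p : ι → ℝ) =>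
      S.indicator (fun _ => (1 : ℝ≥0∞)) (s, p)) ((volume.restrict (Icc (0 : ℝ) 1)).prod volume) :=
    (measurable_const.indicator hSm).aemeasurable
  rw [lintegral_lintegral_swap hF]
  have hmd : MeasurableSet (dpol K) := by
    rw [h.dpol_eq]
    exact measurableSet_le h.wd_continuous.measurable measurable_const
  have h3 : ∀ p : ι → ℝ, ∫⁻ s in Icc (0 : ℝ) 1, S.indicator (fun _ => (1 : ℝ≥0∞)) (s, p) =
      ENNReal.ofReal (1 - wd K p) := by
    intro p
    have h4 : (fun s : ℝ => S.indicator (fun _ => (1 : ℝ≥0∞)) (s, p)) =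
        (Icc (hs K (-p)) (1 - hs K p)).indicator (fun _ => (1 : ℝ≥0∞)) := by
      funext s
      by_cases hp : s ∈ Icc (hs K (-p)) (1 - hs K p)
      · rw [indicator_of_mem hp, indicator_of_mem (show (s, p) ∈ S from ⟨hp.1, by
          show hs K p ≤ 1 - s
          linarith [hp.2]⟩)]
      · rw [indicator_of_notMem hp, indicator_of_notMem (show (s, p) ∉ S from fun hq => hp
          ⟨hq.1, by
            have : hs K p ≤ 1 - s := hq.2
            linarith⟩)]
    rw [h4, lintegral_indicator_const measurableSet_Icc, one_mul,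
      Measure.restrict_apply measurableSet_Icc, inter_eq_left.2, Real.volume_Icc]
    · congr 1
      unfold wd
      ring
    · intro s hs'
      have h5 := hs_nonneg h h0 p
      have h6 := hs_nonneg h h0 (-p)
      exact ⟨h6.trans hs'.1, by linarith [hs'.2]⟩
  simp_rw [h3]
  rw [← lintegral_indicator hmd]
  refine lintegral_congr fun p => ?_
  by_cases hp : p ∈ dpol K
  · rw [indicator_of_mem hp]
  · rw [indicator_of_notMem hp, ENNReal.ofReal_eq_zero]
    rw [h.dpol_eq] at hp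
    have : ¬ wd K p ≤ 1 := hp
    linarith

theorem vol_prodSet {A : Set (ι → ℝ)} {B : Set (κ → ℝ)} (hA : MeasurableSet A)
    (hB : MeasurableSet B) : volume (prodSet A B) = volume A * volume B := by
  have hm : MeasurableSet (prodSet A B) :=
    (continuous_inl.measurable hA).inter (continuous_inr.measurable hB)
  rw [← lintegral_indicator_one hm, lint_sum _ (measurable_one.indicator hm)]
  have h1 : ∀ (x : ι → ℝ) (y : κ → ℝ), (prodSet A B).indicator (1 : (ι ⊕ κ → ℝ) → ℝ≥0∞)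
      (Sum.elim x y) = A.indicator 1 x * B.indicator 1 y := by
    intro x y
    by_cases hx : x ∈ A
    · by_cases hy : y ∈ B
      · rw [indicator_of_mem hx, indicator_of_mem hy,
          indicator_of_mem (show (Sum.elim x y : ι ⊕ κ → ℝ) ∈ prodSet A B from ⟨hx, hy⟩)]
        simp
      · rw [indicator_of_notMem hy, mul_zero, indicator_of_notMem
          (show (Sum.elim x y : ι ⊕ κ → ℝ) ∉ prodSet A B from fun h => hy h.2)]
    · rw [indicator_of_notMem hx, zero_mul, indicator_of_notMem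
          (show (Sum.elim x y : ι ⊕ κ → ℝ) ∉ prodSet A B from fun h => hx h.1)]
  simp_rw [h1]
  have h2 : ∀ x : ι → ℝ, ∫⁻ y : κ → ℝ, A.indicator (1 : (ι → ℝ) → ℝ≥0∞) x *
      B.indicator (1 : (κ → ℝ) → ℝ≥0∞) y =
      A.indicator (1 : (ι → ℝ) → ℝ≥0∞) x * ∫⁻ y : κ → ℝ, B.indicator (1 : (κ → ℝ) → ℝ≥0∞) y :=
    fun x => lintegral_const_mul _ (measurable_one.indicator hB)
  simp_rw [h2]
  rw [lintegral_mul_const _ (measurable_one.indicator hA), lintegral_indicator_one hA,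
    lintegral_indicator_one hB]

theorem hs_freeSum {K : Set (ι → ℝ)} {L : Set (κ → ℝ)} (hK : IsBody K) (hL : IsBody L)
    (hK0 : (0 : ι → ℝ) ∈ K) (hL0 : (0 : κ → ℝ) ∈ L) (z : ι ⊕ κ → ℝ) (b : ℝ) :
    hs (freeSum K L) z ≤ b ↔ hs K (fun i => z (Sum.inl i)) ≤ b ∧
      hs L (fun j => z (Sum.inr j)) ≤ b := by
  have hM := hK.freeSum hL
  have hsum : ∀ (t : ℝ) (x : ι → ℝ) (y : κ → ℝ),
      ∑ o, z o * (Sum.elim (t • x) ((1 - t) • y) : ι ⊕ κ → ℝ) o =
        t * ∑ i, z (Sum.inl i) * x i + (1 - t) * ∑ j, z (Sum.inr j) * y j := by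
    intro t x y
    rw [Fintype.sum_sum_type, Finset.mul_sum, Finset.mul_sum]
    congr 1
    · exact Finset.sum_congr rfl fun i _ => by
        simp only [Sum.elim_inl, Pi.smul_apply, smul_eq_mul]; ring
    · exact Finset.sum_congr rfl fun i _ => by
        simp only [Sum.elim_inr, Pi.smul_apply, smul_eq_mul]; ring
  constructor
  · intro h
    constructor
    · refine hK.hs_le _ _ fun x hx => ?_
      have h1 := hM.le_hs z ((mem_freeSum hK.conv hL.conv hK.nonempty hL.nonempty _).2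
        ⟨1, ⟨zero_le_one, le_rfl⟩, x, hx, 0, hL0, rfl⟩)
      rw [hsum] at h1
      simp only [one_mul, sub_self, zero_mul, add_zero] at h1
      exact h1.trans h
    · refine hL.hs_le _ _ fun y hy => ?_
      have h1 := hM.le_hs z ((mem_freeSum hK.conv hL.conv hK.nonempty hL.nonempty _).2
        ⟨0, ⟨le_rfl, zero_le_one⟩, 0, hK0, y, hy, rfl⟩)
      rw [hsum] at h1
      simp only [zero_mul, sub_zero, one_mul, zero_add] at h1
      exact h1.trans h
  · rintro ⟨h1, h2⟩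
    refine hM.hs_le _ _ fun w hw => ?_
    obtain ⟨t, ht, x, hx, y, hy, rfl⟩ :=
      (mem_freeSum hK.conv hL.conv hK.nonempty hL.nonempty _).1 hw
    rw [hsum]
    have h3 : ∑ i, z (Sum.inl i) * x i ≤ b := (hK.le_hs _ hx).trans h1
    have h4 : ∑ j, z (Sum.inr j) * y j ≤ b := (hL.le_hs _ hy).trans h2
    have h5 : 0 ≤ 1 - t := by linarith [ht.2]
    have h6 := mul_le_mul_of_nonneg_left h3 ht.1
    have h7 := mul_le_mul_of_nonneg_left h4 h5
    linarith

theorem GS_freeSum {K : Set (ι → ℝ)} {L : Set (κ → ℝ)} (hK : IsBody K) (hL : IsBody L)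
    (hK0 : (0 : ι → ℝ) ∈ K) (hL0 : (0 : κ → ℝ) ∈ L) (a b : ℝ) :
    GS (freeSum K L) a b = GS K a b * GS L a b := by
  have h1 : QS (freeSum K L) a b = prodSet (QS K a b) (QS L a b) := by
    ext z
    have h2 := hs_freeSum hK hL hK0 hL0 z b
    have h3 := hs_freeSum hK hL hK0 hL0 (-z) a
    constructor
    · rintro ⟨h4, h5⟩
      exact ⟨⟨(h3.1 h4).1, (h2.1 h5).1⟩, ⟨(h3.1 h4).2, (h2.1 h5).2⟩⟩
    · rintro ⟨h4, h5⟩
      exact ⟨h3.2 ⟨h4.1, h5.1⟩, h2.2 ⟨h4.2, h5.2⟩⟩
  unfold GS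
  rw [h1, vol_prodSet (hK.closed_QS _ _).measurableSet (hL.closed_QS _ _).measurableSet]

/-! ### Chebyshev's inequality -/

theorem rearr {a b c d : ℝ≥0∞} (h : (a ≤ b ∧ c ≤ d) ∨ (b ≤ a ∧ d ≤ c)) :
    a * d + b * c ≤ a * c + b * d := by
  rcases h with ⟨h1, h2⟩ | ⟨h1, h2⟩
  · obtain ⟨e, rfl⟩ := exists_add_of_le h1
    obtain ⟨f, rfl⟩ := exists_add_of_le h2
    calc a * (c + f) + (a + e) * c = a * c + (a * c + a * f + e * c) := by ring
      _ ≤ a * c + (a * c + a * f + e * c) + e * f := le_self_add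
      _ = a * c + (a + e) * (c + f) := by ring
  · obtain ⟨e, rfl⟩ := exists_add_of_le h1
    obtain ⟨f, rfl⟩ := exists_add_of_le h2
    calc (b + e) * d + b * (d + f) = b * d + (b * d + e * d + b * f) := by ring
      _ ≤ b * d + (b * d + e * d + b * f) + e * f := le_self_add
      _ = (b + e) * (d + f) + b * d := by ring

/-- The measure on the interval. -/
def mu01 : Measure ℝ := volume.restrict (Icc 0 1)

instance : IsProbabilityMeasure mu01 := ⟨by
  unfold mu01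
  rw [Measure.restrict_apply MeasurableSet.univ, univ_inter, Real.volume_Icc]
  norm_num⟩

theorem cheb_double (f g : ℝ → ℝ≥0∞) (hf : Measurable f) (hg : Measurable g) :
    ∫⁻ z, (f z.1 * g z.2 + f z.2 * g z.1) ∂(mu01.prod mu01) =
      2 * ((∫⁻ s, f s ∂mu01) * ∫⁻ s, g s ∂mu01) ∧
    ∫⁻ z, (f z.1 * g z.1 + f z.2 * g z.2) ∂(mu01.prod mu01) =
      2 * ∫⁻ s, f s * g s ∂mu01 := by
  constructor
  · have m1 : Measurable fun z : ℝ × ℝ => f z.1 * g z.2 :=
      (hf.comp measurable_fst).mul (hg.comp measurable_snd)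
    rw [lintegral_add_left m1, lintegral_prod_mul hf.aemeasurable hg.aemeasurable]
    have h1 : ∫⁻ z : ℝ × ℝ, f z.2 * g z.1 ∂(mu01.prod mu01) =
        ∫⁻ z : ℝ × ℝ, g z.1 * f z.2 ∂(mu01.prod mu01) :=
      lintegral_congr fun z => mul_comm _ _
    rw [h1, lintegral_prod_mul hg.aemeasurable hf.aemeasurable]
    ring
  · have hfg : Measurable fun s => f s * g s := hf.mul hg
    have m1 : Measurable fun z : ℝ × ℝ => f z.1 * g z.1 := hfg.comp measurable_fst
    rw [lintegral_add_left m1]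
    have h1 : ∫⁻ z : ℝ × ℝ, f z.1 * g z.1 ∂(mu01.prod mu01) = ∫⁻ s, f s * g s ∂mu01 := by
      have := lintegral_prod_mul (μ := mu01) (ν := mu01) hfg.aemeasurable
        (measurable_const (a := (1 : ℝ≥0∞))).aemeasurable
      simpa using this
    have h2 : ∫⁻ z : ℝ × ℝ, f z.2 * g z.2 ∂(mu01.prod mu01) = ∫⁻ s, f s * g s ∂mu01 := by
      have := lintegral_prod_mul (μ := mu01) (ν := mu01)
        (measurable_const (a := (1 : ℝ≥0∞))).aemeasurable hfg.aemeasurable
      simpa using this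
    rw [h1, h2]
    ring

theorem cheb (f g : ℝ → ℝ≥0∞) (hf : Measurable f) (hg : Measurable g)
    (hfu : ∀ s t : ℝ, |t - 1 / 2| ≤ |s - 1 / 2| → f s ≤ f t)
    (hgu : ∀ s t : ℝ, |t - 1 / 2| ≤ |s - 1 / 2| → g s ≤ g t) :
    (∫⁻ s, f s ∂mu01) * ∫⁻ s, g s ∂mu01 ≤ ∫⁻ s, f s * g s ∂mu01 := by
  obtain ⟨h1, h2⟩ := cheb_double f g hf hg
  have h3 : 2 * ((∫⁻ s, f s ∂mu01) * ∫⁻ s, g s ∂mu01) ≤ 2 * ∫⁻ s, f s * g s ∂mu01 := by
    rw [← h1, ← h2]
    refine lintegral_mono fun z => ?_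
    refine rearr ?_
    rcases le_total |z.2 - 1 / 2| |z.1 - 1 / 2| with h | h
    · exact Or.inl ⟨hfu _ _ h, hgu _ _ h⟩
    · exact Or.inr ⟨hfu _ _ h, hgu _ _ h⟩
  exact (ENNReal.mul_le_mul_iff_right (by norm_num) (by norm_num)).1 h3

theorem cheb_strict (f g : ℝ → ℝ≥0∞) (hf : Measurable f) (hg : Measurable g)
    (hfu : ∀ s t : ℝ, |t - 1 / 2| ≤ |s - 1 / 2| → f s ≤ f t)
    (hgu : ∀ s t : ℝ, |t - 1 / 2| ≤ |s - 1 / 2| → g s ≤ g t)
    (hff : ∀ s, f s ≠ ⊤) (hgf : ∀ s, g s ≠ ⊤) (a r : ℝ) (ha : 0 < a) (ha1 : a ≤ 1) (hr : 0 < r)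
    (hr1 : r ≤ 1 / 2)
    (hfs : ∀ s ∈ Ioo 0 a, ∀ t ∈ Ioo (1 / 2 - r) (1 / 2 + r), f s < f t)
    (hgs : ∀ s ∈ Ioo 0 a, ∀ t ∈ Ioo (1 / 2 - r) (1 / 2 + r), g s < g t)
    (hfin : ∫⁻ s, f s * g s ∂mu01 ≠ ⊤) :
    (∫⁻ s, f s ∂mu01) * ∫⁻ s, g s ∂mu01 ≠ ∫⁻ s, f s * g s ∂mu01 := by
  intro heq
  obtain ⟨h1, h2⟩ := cheb_double f g hf hg
  have hle : ∀ z : ℝ × ℝ, f z.1 * g z.2 + f z.2 * g z.1 ≤ f z.1 * g z.1 + f z.2 * g z.2 := by
    intro z
    refine rearr ?_
    rcases le_total |z.2 - 1 / 2| |z.1 - 1 / 2| with h | h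
    · exact Or.inl ⟨hfu _ _ h, hgu _ _ h⟩
    · exact Or.inr ⟨hfu _ _ h, hgu _ _ h⟩
  have hae := ae_eq_of_ae_le_of_lintegral_le (μ := mu01.prod mu01)
    (f := fun z : ℝ × ℝ => f z.1 * g z.2 + f z.2 * g z.1)
    (g := fun z : ℝ × ℝ => f z.1 * g z.1 + f z.2 * g z.2) (Eventually.of_forall hle)
    (by
      rw [h1, heq]
      exact ENNReal.mul_ne_top (by norm_num) hfin)
    (((hf.comp measurable_fst).mul (hg.comp measurable_fst)).add
      ((hf.comp measurable_snd).mul (hg.comp measurable_snd))).aemeasurable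
    (by rw [h1, h2, heq])
  have hpos : 0 < (mu01.prod mu01) (Ioo 0 a ×ˢ Ioo (1 / 2 - r) (1 / 2 + r)) := by
    rw [Measure.prod_prod]
    have e1 : mu01 (Ioo 0 a) = ENNReal.ofReal a := by
      unfold mu01
      rw [Measure.restrict_apply measurableSet_Ioo, inter_eq_left.2, Real.volume_Ioo, sub_zero]
      exact fun s hs => ⟨hs.1.le, hs.2.le.trans ha1⟩
    have e2 : mu01 (Ioo (1 / 2 - r) (1 / 2 + r)) = ENNReal.ofReal (2 * r) := by
      unfold mu01
      rw [Measure.restrict_apply measurableSet_Ioo, inter_eq_left.2, Real.volume_Ioo]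
      · congr 1; ring
      · exact fun s hs => ⟨by linarith [hs.1], by linarith [hs.2]⟩
    rw [e1, e2]
    exact ENNReal.mul_pos (ENNReal.ofReal_pos.2 ha).ne' (ENNReal.ofReal_pos.2 (by linarith)).ne'
  have hnull : (mu01.prod mu01) (Ioo 0 a ×ˢ Ioo (1 / 2 - r) (1 / 2 + r)) = 0 := by
    refine measure_mono_null ?_ (ae_iff.1 hae)
    rintro ⟨s, t⟩ ⟨hs, ht⟩
    show ¬ (f s * g t + f t * g s = f s * g s + f t * g t)
    have e1 := hfs s hs t ht
    have e2 := hgs s hs t ht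
    have e3 := hff s
    have e4 := hff t
    have e5 := hgf s
    have e6 := hgf t
    lift f s to NNReal using e3 with x hx
    lift f t to NNReal using e4 with y hy
    lift g s to NNReal using e5 with u hu
    lift g t to NNReal using e6 with v hv
    norm_cast at e1 e2 ⊢
    intro h5
    have h6 : (x : ℝ) * v + y * u = x * u + y * v := by exact_mod_cast h5
    have e1' : (x : ℝ) < y := by exact_mod_cast e1
    have e2' : (u : ℝ) < v := by exact_mod_cast e2
    nlinarith [mul_pos (sub_pos.2 e1') (sub_pos.2 e2')]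
  exact hpos.ne' hnull

end Pool.Agent.Helper47.AQ
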