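import Pool.Agent.Helper47.AQ.FreeSum2

/-!
# Free sums: the inequality and the equality case
-/

open MeasureTheory Set Filter Topology
open scoped ENNReal

noncomputable section

namespace Pool.Agent.Helper47.AQ

variable {ι κ : Type} [Fintype ι] [Fintype κ]

theorem lint_GS' {K : Set (ι → ℝ)} (h : IsBody K) (h0 : (0 : ι → ℝ) ∈ K) :
    ∫⁻ s, GS K s (1 - s) ∂mu01 =
      ENNReal.ofReal (1 / ((Fintype.card ι : ℝ) + 1)) * volume (dpol K) := lint_GS h h0

theorem zero_mem_freeSum {K : Set (ι → ℝ)} {L : Set (κ → ℝ)} (hK0 : (0 : ι → ℝ) ∈ K) :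
    (0 : ι ⊕ κ → ℝ) ∈ freeSum K L := by
  refine subset_convexHull ℝ _ (Or.inl ⟨0, hK0, ?_⟩)
  funext o
  rcases o with o | o <;> rfl

theorem F_freeSum {K : Set (ι → ℝ)} {L : Set (κ → ℝ)} (hK : IsBody K) (hL : IsBody L)
    (hK0 : (0 : ι → ℝ) ∈ K) (hL0 : (0 : κ → ℝ) ∈ L) :
    (((Fintype.card ι).factorial : ℝ) * (Fintype.card κ).factorial /
      (Fintype.card ι + Fintype.card κ).factorial) *
      (((Fintype.card ι : ℝ) + Fintype.card κ + 1) /
        (((Fintype.card ι : ℝ) + 1) * ((Fintype.card κ : ℝ) + 1))) * (F K * F L) ≤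
      F (freeSum K L) ∧
    (F (freeSum K L) = (((Fintype.card ι).factorial : ℝ) * (Fintype.card κ).factorial /
      (Fintype.card ι + Fintype.card κ).factorial) *
      (((Fintype.card ι : ℝ) + Fintype.card κ + 1) /
        (((Fintype.card ι : ℝ) + 1) * ((Fintype.card κ : ℝ) + 1))) * (F K * F L) →
      (∫⁻ s, GS K s (1 - s) ∂mu01) * ∫⁻ s, GS L s (1 - s) ∂mu01 =
        ∫⁻ s, GS K s (1 - s) * GS L s (1 - s) ∂mu01) := by
  have hM := hK.freeSum hL
  have h0 : (0 : ι ⊕ κ → ℝ) ∈ freeSum K L := zero_mem_freeSum hK0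
  have hvol := congrArg ENNReal.toReal (vol_freeSum hK hL hK0 hL0)
  simp only [ENNReal.toReal_mul, ENNReal.toReal_natCast] at hvol
  have hIM := lint_GS' hM h0
  have hIK := lint_GS' hK hK0
  have hIL := lint_GS' hL hL0
  simp_rw [GS_freeSum hK hL hK0 hL0] at hIM
  have hch := cheb (fun s => GS K s (1 - s)) (fun s => GS L s (1 - s)) (measurable_GS hK)
    (measurable_GS hL) (fun s t h => hK.unimodal h) (fun s t h => hL.unimodal h)
  set I := ∫⁻ s, GS K s (1 - s) * GS L s (1 - s) ∂mu01 with hI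
  set IK := ∫⁻ s, GS K s (1 - s) ∂mu01 with hIKd
  set IL := ∫⁻ s, GS L s (1 - s) ∂mu01 with hILd
  have hIfin : I ≠ ⊤ := by
    rw [hIM]
    exact ENNReal.mul_ne_top ENNReal.ofReal_ne_top hM.dpol_ne_top
  have hIKfin : IK ≠ ⊤ := by
    rw [hIK]
    exact ENNReal.mul_ne_top ENNReal.ofReal_ne_top hK.dpol_ne_top
  have hILfin : IL ≠ ⊤ := by
    rw [hIL]
    exact ENNReal.mul_ne_top ENNReal.ofReal_ne_top hL.dpol_ne_top
  have rM := congrArg ENNReal.toReal hIM
  have rK := congrArg ENNReal.toReal hIK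
  have rL := congrArg ENNReal.toReal hIL
  rw [ENNReal.toReal_mul, ENNReal.toReal_ofReal (by positivity), Fintype.card_sum] at rM
  rw [ENNReal.toReal_mul, ENNReal.toReal_ofReal (by positivity)] at rK rL
  have hch' : IK.toReal * IL.toReal ≤ I.toReal := by
    rw [← ENNReal.toReal_mul]
    exact ENNReal.toReal_mono hIfin hch
  set m := Fintype.card ι with hm
  set k := Fintype.card κ with hk
  push_cast at rM
  have hmf : (0 : ℝ) < (m.factorial : ℝ) := by exact_mod_cast m.factorial_pos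
  have hkf : (0 : ℝ) < (k.factorial : ℝ) := by exact_mod_cast k.factorial_pos
  have hmkf : (0 : ℝ) < ((m + k).factorial : ℝ) := by exact_mod_cast (m + k).factorial_pos
  have hVK := hK.vol_pos
  have hVL := hL.vol_pos
  have hm1 : (0 : ℝ) < (m : ℝ) + 1 := by positivity
  have hk1 : (0 : ℝ) < (k : ℝ) + 1 := by positivity
  have hmk1 : (0 : ℝ) < (m : ℝ) + k + 1 := by positivity
  have eM : (volume (dpol (freeSum K L))).toReal = ((m : ℝ) + k + 1) * I.toReal := by
    rw [rM]; field_simp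
  have eK : (volume (dpol K)).toReal = ((m : ℝ) + 1) * IK.toReal := by
    rw [rK]; field_simp
  have eL : (volume (dpol L)).toReal = ((k : ℝ) + 1) * IL.toReal := by
    rw [rL]; field_simp
  have eV : (volume (freeSum K L)).toReal = ((m.factorial : ℝ) * k.factorial /
      (m + k).factorial) * ((volume K).toReal * (volume L).toReal) := by
    field_simp
    linarith
  have e1 : ((m.factorial : ℝ) * k.factorial / (m + k).factorial) *
      (((m : ℝ) + k + 1) / (((m : ℝ) + 1) * ((k : ℝ) + 1))) * (F K * F L) =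
      (((m.factorial : ℝ) * k.factorial / (m + k).factorial) * ((m : ℝ) + k + 1) *
        ((volume K).toReal * (volume L).toReal)) * (IK.toReal * IL.toReal) := by
    unfold F
    rw [eK, eL]
    field_simp
  have e2 : F (freeSum K L) = (((m.factorial : ℝ) * k.factorial / (m + k).factorial) *
      ((m : ℝ) + k + 1) * ((volume K).toReal * (volume L).toReal)) * I.toReal := by
    unfold F
    rw [eM, eV]
    ring
  set c := ((m.factorial : ℝ) * k.factorial / (m + k).factorial) * ((m : ℝ) + k + 1) *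
        ((volume K).toReal * (volume L).toReal) with hc
  have hc0 : 0 < c := by positivity
  rw [e1, e2]
  refine ⟨mul_le_mul_of_nonneg_left hch' hc0.le, fun heq => ?_⟩
  have h3 : I.toReal = IK.toReal * IL.toReal := mul_left_cancel₀ hc0.ne' heq
  rw [← ENNReal.toReal_mul] at h3
  exact ((ENNReal.toReal_eq_toReal_iff' (ENNReal.mul_ne_top hIKfin hILfin) hIfin).1 h3.symm)

/-! ### The slices at the end points -/

theorem edge_data {K : Set (ι → ℝ)} (h : IsBody K) (h0 : (0 : ι → ℝ) ∈ K) (hz : GS K 0 1 = 0) :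
    ∃ a r : ℝ, 0 < a ∧ a ≤ 1 ∧ 0 < r ∧ r ≤ 1 / 2 ∧ ∀ s ∈ Ioo 0 a,
      ∀ t ∈ Ioo (1 / 2 - r) (1 / 2 + r), GS K s (1 - s) < GS K t (1 - t) := by
  obtain ⟨s0, hs0, hs1, hs2⟩ : ∃ s0 ∈ Ioo (0 : ℝ) 1, s0 ≠ 1 / 2 ∧ 0 < GS K s0 (1 - s0) := by
    by_contra hcon
    push Not at hcon
    have h1 : ∫⁻ s, GS K s (1 - s) ∂mu01 = 0 := by
      rw [lintegral_eq_zero_iff (measurable_GS h)]
      have h2 : ∀ᵐ s ∂mu01, s ∈ Icc (0 : ℝ) 1 := ae_restrict_mem measurableSet_Icc
      have h3 : ∀ᵐ s ∂mu01, s ≠ 1 / 2 := by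
        unfold mu01
        exact ae_restrict_of_ae (by
          rw [ae_iff]
          simp)
      filter_upwards [h2, h3] with s hs hs'
      rcases eq_or_lt_of_le hs.1 with h4 | h4
      · rw [← h4, sub_zero]
        exact hz
      rcases eq_or_lt_of_le hs.2 with h5 | h5
      · rw [h5, sub_self, GS_symm]
        exact hz
      exact le_antisymm (hcon s ⟨h4, h5⟩ hs') bot_le
    rw [lint_GS' h h0] at h1
    have h4 : volume (dpol K) ≠ 0 := by
      intro h5
      have := h.dpol_pos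
      rw [h5] at this
      simp at this
    have h5 : ENNReal.ofReal (1 / ((Fintype.card ι : ℝ) + 1)) ≠ 0 :=
      (ENNReal.ofReal_pos.2 (by positivity)).ne'
    exact (mul_ne_zero h5 h4) h1
  set c := GS K s0 (1 - s0) with hc
  obtain ⟨ε, hε, hlt⟩ : ∃ ε : ℝ, 0 < ε ∧ GS K (0 + ε) (1 + ε) < c := by
    by_contra hcon
    push Not at hcon
    have := h.GS_cont (a := 0) (b := 1) (c := c) hcon
    rw [hz] at this
    exact absurd this (not_le.2 hs2)
  refine ⟨min ε 1, |s0 - 1 / 2|, lt_min hε one_pos, min_le_right _ _,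
    abs_pos.2 (sub_ne_zero.2 hs1), ?_, ?_⟩
  · rw [abs_le]
    constructor <;> linarith [hs0.1, hs0.2]
  · intro s hs t ht
    have h1 : GS K s (1 - s) ≤ GS K (0 + ε) (1 + ε) :=
      GS_mono (by linarith [hs.2.le.trans (min_le_left ε 1)]) (by linarith [hs.1])
    have h2 : c ≤ GS K t (1 - t) := by
      refine h.unimodal ?_
      rw [abs_le]
      constructor <;> linarith [ht.1, ht.2]
    exact lt_of_le_of_lt h1 (lt_of_lt_of_le hlt h2)

theorem GS_zero {K : Set (ι → ℝ)} (h : IsBody K) {σ : Type} (v : σ → ι → ℝ)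
    (hK : K = convexHull ℝ (range v)) (h0 : (0 : ι → ℝ) ∈ K) (hv : ∀ j, v j ≠ 0) :
    GS K 0 1 = 0 := by
  have h0' := h0
  rw [hK, mem_convexHull_iff_exists_fintype] at h0'
  obtain ⟨τ, _, w, z, hw0, hw1, hz, hsum⟩ := h0'
  obtain ⟨i0, hi0⟩ : ∃ i0, 0 < w i0 := by
    by_contra hcon
    push Not at hcon
    have : ∑ i, w i ≤ 0 := Finset.sum_nonpos fun i _ => hcon i
    linarith
  have hz0 : z i0 ≠ 0 := by
    obtain ⟨j, hj⟩ := hz i0
    rw [← hj]
    exact hv j
  set φ : (ι → ℝ) →ₗ[ℝ] ℝ := ∑ i, (z i0 i) • (LinearMap.proj i : (ι → ℝ) →ₗ[ℝ] ℝ) with hφ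
  have hφx : ∀ p, φ p = ∑ i, p i * z i0 i := by
    intro p
    rw [hφ, LinearMap.sum_apply]
    exact Finset.sum_congr rfl fun i _ => by simp [mul_comm]
  have hker : LinearMap.ker φ ≠ ⊤ := by
    intro htop
    have h1 : φ (z i0) = 0 := by
      have : z i0 ∈ LinearMap.ker φ := by rw [htop]; exact Submodule.mem_top
      exact this
    rw [hφx] at h1
    refine hz0 (funext fun i => ?_)
    have h2 := (Finset.sum_eq_zero_iff_of_nonneg (fun i _ => mul_self_nonneg (z i0 i))).1 h1 i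
      (Finset.mem_univ i)
    exact mul_self_eq_zero.1 h2
  have hmeas := Measure.addHaar_submodule (volume : Measure (ι → ℝ)) (LinearMap.ker φ) hker
  refine measure_mono_null ?_ hmeas
  rintro p ⟨hp1, hp2⟩
  have hzK : ∀ i, z i ∈ K := by
    intro i
    rw [hK]
    exact subset_convexHull ℝ _ (hz i)
  have hnn : ∀ i, 0 ≤ ∑ l, p l * z i l := by
    intro i
    have h1 := (h.le_hs (-p) (hzK i)).trans hp1
    simp only [Pi.neg_apply, neg_mul, Finset.sum_neg_distrib] at h1
    linarith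
  have h2 : ∑ i, w i * ∑ l, p l * z i l = 0 := by
    have h3 : ∀ l, ∑ i, w i * z i l = 0 := by
      intro l
      have := congrFun hsum l
      rw [Finset.sum_apply] at this
      simpa using this
    calc ∑ i, w i * ∑ l, p l * z i l = ∑ i, ∑ l, p l * (w i * z i l) := by
          refine Finset.sum_congr rfl fun i _ => ?_
          rw [Finset.mul_sum]
          exact Finset.sum_congr rfl fun l _ => by ring
      _ = ∑ l, ∑ i, p l * (w i * z i l) := Finset.sum_comm
      _ = 0 := by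
          refine Finset.sum_eq_zero fun l _ => ?_
          rw [← Finset.mul_sum, h3, mul_zero]
  have h4 := (Finset.sum_eq_zero_iff_of_nonneg (fun i _ => mul_nonneg (hw0 i) (hnn i))).1 h2 i0
    (Finset.mem_univ i0)
  show φ p = 0
  rw [hφx]
  exact (mul_eq_zero.1 h4).resolve_left hi0.ne'

/-- The free sum of two simplices is a simplex if the origin is a vertex of the first one. -/
theorem simplex_freeSum {K : Set (ι → ℝ)} {L : Set (κ → ℝ)} (hK : IsBody K) (hL : IsSimplex L)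
    (hL0 : (0 : κ → ℝ) ∈ L) {σ : Type} [Fintype σ] (v : σ → ι → ℝ) (hv : AffineIndependent ℝ v)
    (hKv : K = convexHull ℝ (range v)) (j0 : σ) (hj0 : v j0 = 0) : IsSimplex (freeSum K L) := by
  classical
  have hb := hK.freeSum hL.isBody
  obtain ⟨_, τ, hτ, w, hw, hLw⟩ := hL
  set u : {j // j ≠ j0} ⊕ τ → ι ⊕ κ → ℝ := Sum.elim
    (fun j => Sum.elim (v j.1) 0) (fun k => Sum.elim 0 (w k)) with hu
  refine ⟨hb.int, {j // j ≠ j0} ⊕ τ, inferInstance, u, ?_, ?_⟩
  · rw [affineIndependent_iff_of_fintype] at hv hw ⊢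
    intro c hc1 hc2
    rw [Finset.weightedVSub_eq_linear_combination _ hc1] at hc2
    rw [Fintype.sum_sum_type] at hc1
    have h3 : ∑ j : {j // j ≠ j0}, c (Sum.inl j) • v j.1 = 0 := by
      funext l
      have h4 := congrFun hc2 (Sum.inl l)
      rw [Finset.sum_apply, Fintype.sum_sum_type] at h4
      rw [Finset.sum_apply]
      simpa [hu] using h4
    have h5 : ∑ k, c (Sum.inr k) • w k = 0 := by
      funext l
      have h4 := congrFun hc2 (Sum.inr l)
      rw [Finset.sum_apply, Fintype.sum_sum_type] at h4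
      rw [Finset.sum_apply]
      simpa [hu] using h4
    set c' : σ → ℝ := fun j => if h : j = j0 then -∑ j : {j // j ≠ j0}, c (Sum.inl j)
      else c (Sum.inl ⟨j, h⟩) with hc'
    have hc'0 : c' j0 = -∑ j : {j // j ≠ j0}, c (Sum.inl j) := by simp [hc']
    have hc'1 : ∀ j : {j // j ≠ j0}, c' j.1 = c (Sum.inl j) := by
      intro j
      simp [hc', j.2]
    have h6 : ∑ j, c' j = 0 := by
      rw [Fintype.sum_eq_add_sum_subtype_ne _ j0, hc'0]
      simp_rw [hc'1]
      ring
    have h7 : ∑ j, c' j • v j = 0 := by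
      rw [Fintype.sum_eq_add_sum_subtype_ne _ j0, hj0, smul_zero, zero_add]
      simp_rw [hc'1]
      exact h3
    have h8 := hv c' h6 (by
      rw [Finset.weightedVSub_eq_linear_combination _ h6]; exact h7)
    have h9 : ∀ j : {j // j ≠ j0}, c (Sum.inl j) = 0 := fun j => by
      rw [← hc'1]; exact h8 j.1
    have h10 : ∑ k, c (Sum.inr k) = 0 := by
      have h11 : ∑ j : {j // j ≠ j0}, c (Sum.inl j) = 0 := Finset.sum_eq_zero fun j _ => h9 j
      linarith
    have h12 := hw (fun k => c (Sum.inr k)) h10 (by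
      rw [Finset.weightedVSub_eq_linear_combination _ h10]; exact h5)
    rintro (j | k)
    · exact h9 j
    · exact h12 k
  · have hLr : ∀ y ∈ L, (Sum.elim (0 : ι → ℝ) y : ι ⊕ κ → ℝ) ∈ convexHull ℝ (range u) := by
      intro y hy
      rw [hLw] at hy
      refine convexHull_min (t := {y : κ → ℝ |
          (Sum.elim (0 : ι → ℝ) y : ι ⊕ κ → ℝ) ∈ convexHull ℝ (range u)}) ?_ ?_ hy
      · rintro _ ⟨k, rfl⟩
        exact subset_convexHull ℝ _ ⟨Sum.inr k, rfl⟩
      · intro p hp q hq a b ha hb' hab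
        have h := convex_convexHull ℝ (range u) hp hq ha hb' hab
        have he : (Sum.elim (0 : ι → ℝ) (a • p + b • q) : ι ⊕ κ → ℝ) =
            a • (Sum.elim (0 : ι → ℝ) p) + b • (Sum.elim (0 : ι → ℝ) q) := by
          funext o
          rcases o with o | o
          · simp
          · simp
        show (Sum.elim (0 : ι → ℝ) (a • p + b • q) : ι ⊕ κ → ℝ) ∈ convexHull ℝ (range u)
        rw [he]
        exact h
    have h00 : (0 : ι ⊕ κ → ℝ) ∈ convexHull ℝ (range u) := by
      have := hLr 0 hL0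
      convert this using 1
      funext o
      rcases o with o | o <;> rfl
    have hKr : ∀ x ∈ K, (Sum.elim x (0 : κ → ℝ) : ι ⊕ κ → ℝ) ∈ convexHull ℝ (range u) := by
      intro x hx
      rw [hKv] at hx
      refine convexHull_min (t := {x : ι → ℝ |
          (Sum.elim x (0 : κ → ℝ) : ι ⊕ κ → ℝ) ∈ convexHull ℝ (range u)}) ?_ ?_ hx
      · rintro _ ⟨j, rfl⟩
        by_cases hj : j = j0
        · show (Sum.elim (v j) (0 : κ → ℝ) : ι ⊕ κ → ℝ) ∈ convexHull ℝ (range u)
          rw [hj, hj0]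
          convert h00 using 1
          funext o
          rcases o with o | o <;> rfl
        · exact subset_convexHull ℝ _ ⟨Sum.inl ⟨j, hj⟩, rfl⟩
      · intro p hp q hq a b ha hb' hab
        have h := convex_convexHull ℝ (range u) hp hq ha hb' hab
        have he : (Sum.elim (a • p + b • q) (0 : κ → ℝ) : ι ⊕ κ → ℝ) =
            a • (Sum.elim p (0 : κ → ℝ)) + b • (Sum.elim q (0 : κ → ℝ)) := by
          funext o
          rcases o with o | o
          · simp
          · simp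
        show (Sum.elim (a • p + b • q) (0 : κ → ℝ) : ι ⊕ κ → ℝ) ∈ convexHull ℝ (range u)
        rw [he]
        exact h
    apply Subset.antisymm
    · refine convexHull_min ?_ (convex_convexHull ℝ _)
      rintro _ (⟨x, hx, rfl⟩ | ⟨y, hy, rfl⟩)
      · exact hKr x hx
      · exact hLr y hy
    · refine convexHull_min ?_ hb.conv
      rintro _ ⟨(j | k), rfl⟩
      · refine subset_convexHull ℝ _ (Or.inl ⟨v j.1, ?_, rfl⟩)
        rw [hKv]
        exact subset_convexHull ℝ _ ⟨j.1, rfl⟩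
      · refine subset_convexHull ℝ _ (Or.inr ⟨w k, ?_, rfl⟩)
        rw [hLw]
        exact subset_convexHull ℝ _ ⟨k, rfl⟩

theorem freeSum_swap (K : Set (ι → ℝ)) (L : Set (κ → ℝ)) :
    (LinearEquiv.funCongrLeft ℝ ℝ (Equiv.sumComm ι κ) : (κ ⊕ ι → ℝ) ≃ₗ[ℝ] (ι ⊕ κ → ℝ)) ''
      freeSum L K = freeSum K L := by
  unfold freeSum
  have h1 := LinearMap.image_convexHull
    (LinearEquiv.funCongrLeft ℝ ℝ (Equiv.sumComm ι κ)).toLinearMap
    ((fun x : κ → ℝ => (Sum.elim x (0 : ι → ℝ) : κ ⊕ ι → ℝ)) '' L ∪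
      (fun y : ι → ℝ => (Sum.elim (0 : κ → ℝ) y : κ ⊕ ι → ℝ)) '' K)
  refine h1.trans ?_
  congr 1
  rw [image_union, image_image, image_image, union_comm]
  congr 1
  · refine image_congr fun x _ => ?_
    funext o
    rcases o with o | o <;> rfl
  · refine image_congr fun x _ => ?_
    funext o
    rcases o with o | o <;> rfl

/-- The equality case for the free sum of two simplices. -/
theorem freeSum_simplices {K : Set (ι → ℝ)} {L : Set (κ → ℝ)} (hK : IsSimplex K)
    (hL : IsSimplex L) (hK0 : (0 : ι → ℝ) ∈ K) (hL0 : (0 : κ → ℝ) ∈ L)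
    (heq : (∫⁻ s, GS K s (1 - s) ∂mu01) * ∫⁻ s, GS L s (1 - s) ∂mu01 =
        ∫⁻ s, GS K s (1 - s) * GS L s (1 - s) ∂mu01) : IsSimplex (freeSum K L) := by
  have hKb := hK.isBody
  have hLb := hL.isBody
  have hK' := hK
  have hL' := hL
  obtain ⟨_, σ, hσ, v, hv, hKv⟩ := hK'
  obtain ⟨_, τ, hτ, w, hw, hLw⟩ := hL'
  by_cases h1 : ∃ j0, v j0 = 0
  · obtain ⟨j0, hj0⟩ := h1
    exact simplex_freeSum hKb hL hL0 v hv hKv j0 hj0
  by_cases h2 : ∃ j0, w j0 = 0
  · obtain ⟨j0, hj0⟩ := h2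
    have h3 := simplex_freeSum hLb hK hK0 w hw hLw j0 hj0
    have h4 := h3.affine (LinearEquiv.funCongrLeft ℝ ℝ (Equiv.sumComm ι κ) :
      (κ ⊕ ι → ℝ) ≃ₗ[ℝ] (ι ⊕ κ → ℝ)).toAffineEquiv
    rw [← freeSum_swap K L]
    exact h4
  exfalso
  push Not at h1 h2
  have hGK := GS_zero hKb v hKv hK0 h1
  have hGL := GS_zero hLb w hLw hL0 h2
  obtain ⟨a, r, ha, ha1, hr, hr1, hlt⟩ := edge_data hKb hK0 hGK
  obtain ⟨a', r', ha', ha1', hr', hr1', hlt'⟩ := edge_data hLb hL0 hGL
  have hMb := hKb.freeSum hLb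
  have hIM := lint_GS' hMb (zero_mem_freeSum hK0)
  simp_rw [GS_freeSum hKb hLb hK0 hL0] at hIM
  refine cheb_strict (fun s => GS K s (1 - s)) (fun s => GS L s (1 - s)) (measurable_GS hKb)
    (measurable_GS hLb) (fun s t h => hKb.unimodal h) (fun s t h => hLb.unimodal h)
    (fun s => hKb.GS_ne_top _ _) (fun s => hLb.GS_ne_top _ _) (min a a') (min r r')
    (lt_min ha ha') ((min_le_left _ _).trans ha1) (lt_min hr hr') ((min_le_left _ _).trans hr1)
    ?_ ?_ ?_ heq
  · intro s hs t ht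
    refine hlt s ⟨hs.1, hs.2.trans_le (min_le_left _ _)⟩ t ⟨?_, ?_⟩
    · linarith [ht.1, min_le_left r r']
    · linarith [ht.2, min_le_left r r']
  · intro s hs t ht
    refine hlt' s ⟨hs.1, hs.2.trans_le (min_le_right _ _)⟩ t ⟨?_, ?_⟩
    · linarith [ht.1, min_le_right r r']
    · linarith [ht.2, min_le_right r r']
  · rw [hIM]
    exact ENNReal.mul_ne_top ENNReal.ofReal_ne_top hMb.dpol_ne_top

end Pool.Agent.Helper47.AQ
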