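import Pool.Agent.Helper47.AQ.Vol

/-!
# The main inequality for a dual pair of unconditional norms, with the case of equality
-/

open MeasureTheory Set Filter Topology
open scoped ENNReal

noncomputable section

namespace Pool.Agent.Helper47.AQ

variable {ι : Type} [Fintype ι]

/-- Restriction to the coordinates in `p` (zero elsewhere). -/
def res (p : ι → Prop) [DecidablePred p] (x : ι → ℝ) : ι → ℝ := fun i => if p i then x i else 0

theorem continuous_res (p : ι → Prop) [DecidablePred p] : Continuous (res p) := by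
  refine continuous_pi fun i => ?_
  by_cases h : p i
  · simpa [res, h] using continuous_apply i
  · simpa [res, h] using continuous_const

theorem lint_res {N : (ι → ℝ) → ℝ} (h : UNorm N) (p : ι → Prop) [DecidablePred p] :
    ∫⁻ x in P ι, ENNReal.ofReal (Real.exp (-(N (res p x) + N (res (fun i => ¬ p i) x)))) =
      GF N p * GF N (fun i => ¬ p i) := by
  have hm : Measurable fun x =>
      ENNReal.ofReal (Real.exp (-(N (res p x) + N (res (fun i => ¬ p i) x)))) :=
    (ENNReal.continuous_ofReal.comp (Real.continuous_exp.comp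
      ((h.continuous.comp (continuous_res p)).add
        (h.continuous.comp (continuous_res _))).neg)).measurable
  rw [lint_split_P p _ hm]
  unfold GF GP
  rw [mul_comm, ← lintegral_const_mul _ (h.face p).measurable]
  refine setLIntegral_congr_fun measurableSet_P fun x hx => ?_
  beta_reduce
  rw [mul_comm, ← lintegral_const_mul _ (h.face fun i => ¬ p i).measurable]
  refine setLIntegral_congr_fun measurableSet_P fun y hy => ?_
  beta_reduce
  rw [← ENNReal.ofReal_mul (Real.exp_pos _).le, ← Real.exp_add]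
  have e1 : res p (glue p x y) = ext p x := by
    funext i
    by_cases hi : p i <;> simp [res, glue, ext, hi]
  have e2 : res (fun i => ¬ p i) (glue p x y) = ext (fun i => ¬ p i) y := by
    funext i
    by_cases hi : p i <;> simp [res, glue, ext, hi]
  rw [e1, e2]
  congr 2
  ring

theorem additive_on {μ : (ι → ℝ) → ℝ} (h : UNorm μ) (p : ι → Prop) [DecidablePred p]
    (hle : GP μ ≤ GF μ p * GF μ (fun i => ¬ p i)) (x : ι → ℝ) (hx : ∀ i, 0 ≤ x i) :
    μ x = μ (res p x) + μ (res (fun i => ¬ p i) x) := by
  have hc : Continuous fun x => μ (res p x) + μ (res (fun i => ¬ p i) x) :=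
    (h.continuous.comp (continuous_res p)).add (h.continuous.comp (continuous_res _))
  have hpt : ∀ x, μ x ≤ μ (res p x) + μ (res (fun i => ¬ p i) x) := by
    intro x
    have h1 := h.add (res p x) (res (fun i => ¬ p i) x)
    have h2 : res p x + res (fun i => ¬ p i) x = x := by
      funext i
      by_cases hi : p i <;> simp [res, hi]
    rwa [h2] at h1
  have hae : (fun x => ENNReal.ofReal (Real.exp (-(μ (res p x) + μ (res (fun i => ¬ p i) x)))))
      =ᵐ[volume.restrict (P ι)] fun x => ENNReal.ofReal (Real.exp (-(μ x))) := by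
    refine ae_eq_of_ae_le_of_lintegral_le ?_ ?_ h.measurable.aemeasurable ?_
    · refine Eventually.of_forall fun x => ENNReal.ofReal_le_ofReal (Real.exp_le_exp.2 ?_)
      have := hpt x
      linarith
    · rw [lint_res h p]
      exact ENNReal.mul_ne_top (GP_lt_top (h.face _)).ne (GP_lt_top (h.face _)).ne
    · rw [lint_res h p]
      exact hle
  have hae2 : (fun x => μ (res p x) + μ (res (fun i => ¬ p i) x)) =ᵐ[volume.restrict (P ι)] μ := by
    filter_upwards [hae] with x hx
    have h1 := congrArg ENNReal.toReal hx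
    rw [ENNReal.toReal_ofReal (Real.exp_pos _).le, ENNReal.toReal_ofReal (Real.exp_pos _).le] at h1
    have h2 := Real.exp_injective h1
    linarith
  have heq : EqOn (fun x => μ (res p x) + μ (res (fun i => ¬ p i) x)) μ (P ι) :=
    Measure.eqOn_open_of_ae_eq hae2 isOpen_P hc.continuousOn h.continuous.continuousOn
  have t0 : Tendsto (fun t : ℝ => x + fun _ => t) (𝓝[>] 0) (𝓝 x) := by
    have hct : Continuous (fun t : ℝ => x + fun _ : ι => t) :=
      continuous_const.add (continuous_pi fun _ => continuous_id)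
    have := hct.tendsto 0
    have h0 : (x + fun _ : ι => (0 : ℝ)) = x := by funext i; simp
    rw [h0] at this
    exact this.mono_left nhdsWithin_le_nhds
  have t1 := (h.continuous.tendsto x).comp t0
  have t2 := (hc.tendsto x).comp t0
  refine tendsto_nhds_unique t1 (t2.congr' ?_)
  filter_upwards [self_mem_nhdsWithin] with t ht
  refine heq (fun i => ?_)
  have h1 := hx i
  have h2 : 0 < t := ht
  simp only [Pi.add_apply]
  linarith

theorem linear_of_additive {μ : (ι → ℝ) → ℝ} (h : UNorm μ) [DecidableEq ι]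
    (ha : ∀ i, ∀ x : ι → ℝ, (∀ j, 0 ≤ x j) →
      μ x = μ (res (fun j => j = i) x) + μ (res (fun j => ¬ j = i) x))
    (x : ι → ℝ) (hx : ∀ j, 0 ≤ x j) : μ x = ∑ i, x i * μ (Pi.single i 1) := by
  have key : ∀ T : Finset ι, ∀ x : ι → ℝ, (∀ j, 0 ≤ x j) → (∀ j, j ∉ T → x j = 0) →
      μ x = ∑ i ∈ T, x i * μ (Pi.single i 1) := by
    intro T
    induction T using Finset.induction_on with
    | empty =>
      intro x _ h0
      have : x = 0 := by funext j; exact h0 j (Finset.notMem_empty j)
      rw [this, h.zero]; simp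
    | insert a T haT ih =>
      intro x hx h0
      rw [ha a x hx, Finset.sum_insert haT]
      have h1 : res (fun j => j = a) x = x a • (Pi.single a (1 : ℝ) : ι → ℝ) := by
        funext j
        by_cases hj : j = a
        · subst hj; simp [res]
        · simp [res, hj]
      have h2 := ih (res (fun j => ¬ j = a) x)
        (fun j => by by_cases hj : j = a <;> simp [res, hj, hx])
        (fun j hjT => by
          by_cases hj : j = a
          · simp [res, hj]
          · simp only [res, hj, not_false_eq_true, if_true]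
            exact h0 j (by simp [hj, hjT]))
      rw [h1, h.smul, abs_of_nonneg (hx a), h2]
      congr 1
      refine Finset.sum_congr rfl fun i hi => ?_
      have : ¬ i = a := fun h => haT (h ▸ hi)
      simp [res, this]
  exact key Finset.univ x hx fun j hj => absurd (Finset.mem_univ j) hj

theorem card_p (s : Finset ι) (p : ι → Prop) [DecidablePred p] (hp : ∀ i, p i ↔ i ∈ s) :
    Fintype.card {i // p i} = s.card := by
  rw [Fintype.card_subtype]
  congr 1
  ext i
  simp [hp]

theorem card_not_p [DecidableEq ι] (s : Finset ι) (p : ι → Prop) [DecidablePred p]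
    (hp : ∀ i, p i ↔ i ∈ s) :
    Fintype.card {i // ¬ p i} = Fintype.card ι - s.card := by
  rw [Fintype.card_subtype, ← Finset.card_compl]
  congr 1
  ext i
  simp [hp]

theorem GF_lt_top {N : (ι → ℝ) → ℝ} (h : UNorm N) (p : ι → Prop) [DecidablePred p] :
    GF N p < ⊤ := GP_lt_top (h.face p)

theorem GF_toReal_pos {N : (ι → ℝ) → ℝ} (h : UNorm N) (p : ι → Prop) [DecidablePred p] :
    0 < (GF N p).toReal := toReal_pos (h.face p)

theorem SR_face {μ N : (ι → ℝ) → ℝ} (h : Dual μ N) (p : ι → Prop) [DecidablePred p]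
    (c : ℕ) (hc : Fintype.card {i // p i} = c) :
    (c.factorial : ℝ) ≤ (GF μ p).toReal * (GF N p).toReal :=
  saint_raymond c _ hc _ _ (h.face p)

theorem ineq {μ N : (ι → ℝ) → ℝ} (h : Dual μ N) :
    ((Fintype.card ι : ℝ) + 1) / ((Fintype.card ι).factorial : ℝ) ≤
      (volume (P ι ∩ {x | μ x ≤ 1})).toReal * (volume {x | dif N x ≤ 1}).toReal ∧
    ((volume (P ι ∩ {x | μ x ≤ 1})).toReal * (volume {x | dif N x ≤ 1}).toReal =
      ((Fintype.card ι : ℝ) + 1) / ((Fintype.card ι).factorial : ℝ) →
      ∃ w : ι → ℝ, (∀ i, 0 ≤ w i) ∧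
        ∀ x : ι → ℝ, (∀ j, 0 ≤ x j) → μ x = ∑ i, x i * w i) := by
  classical
  set n := Fintype.card ι with hn
  set a := (volume (P ι ∩ {x | μ x ≤ 1})).toReal with ha
  set b := (volume {x | dif N x ≤ 1}).toReal with hb
  have hfac : (0 : ℝ) < (n.factorial : ℝ) := by exact_mod_cast n.factorial_pos
  have hg : (GP μ).toReal = (n.factorial : ℝ) * a := by
    rw [GP_eq h.hμ, ENNReal.toReal_mul]
    simp [hn, ha]
  have hgpos : 0 < (GP μ).toReal := toReal_pos h.hμ
  have hS : ∑ s : Finset ι, (GF N (fun i => i ∈ s)).toReal * (GF N (fun i => ¬ i ∈ s)).toReal =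
      (n.factorial : ℝ) * b := by
    have h1 := congrArg ENNReal.toReal (dif_vol h.hN)
    rw [ENNReal.toReal_mul, ENNReal.toReal_sum] at h1
    · simp only [ENNReal.toReal_mul, ENNReal.toReal_natCast] at h1
      rw [← h1]
    · exact fun s _ => ENNReal.mul_ne_top (GF_lt_top h.hN _).ne (GF_lt_top h.hN _).ne
  have hterm : ∀ s : Finset ι, (s.card.factorial : ℝ) * ((n - s.card).factorial : ℝ) ≤
      (GF μ (fun i => i ∈ s)).toReal * (GF μ (fun i => ¬ i ∈ s)).toReal *
        ((GF N (fun i => i ∈ s)).toReal * (GF N (fun i => ¬ i ∈ s)).toReal) := by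
    intro s
    have h1 : (s.card.factorial : ℝ) ≤ (GF μ (fun i => i ∈ s)).toReal *
        (GF N (fun i => i ∈ s)).toReal :=
      SR_face h _ _ (card_p s _ fun _ => Iff.rfl)
    have h2 : ((n - s.card).factorial : ℝ) ≤ (GF μ (fun i => ¬ i ∈ s)).toReal *
        (GF N (fun i => ¬ i ∈ s)).toReal :=
      SR_face h _ _ (card_not_p s _ fun _ => Iff.rfl)
    calc _ ≤ ((GF μ (fun i => i ∈ s)).toReal * (GF N (fun i => i ∈ s)).toReal) *
          ((GF μ (fun i => ¬ i ∈ s)).toReal * (GF N (fun i => ¬ i ∈ s)).toReal) :=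
          mul_le_mul h1 h2 (by positivity) (by positivity)
      _ = _ := by ring
  have hsplit : ∀ s : Finset ι, (GF μ (fun i => i ∈ s)).toReal *
      (GF μ (fun i => ¬ i ∈ s)).toReal ≤ (GP μ).toReal := by
    intro s
    rw [← ENNReal.toReal_mul]
    exact ENNReal.toReal_mono (GP_lt_top h.hμ).ne (GP_split_le h.hμ _)
  have hfpos : ∀ s : Finset ι, 0 < (GF N (fun i => i ∈ s)).toReal *
      (GF N (fun i => ¬ i ∈ s)).toReal := fun s =>
    mul_pos (GF_toReal_pos h.hN _) (GF_toReal_pos h.hN _)
  have hterm2 : ∀ s : Finset ι, (s.card.factorial : ℝ) * ((n - s.card).factorial : ℝ) ≤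
      (GP μ).toReal * ((GF N (fun i => i ∈ s)).toReal * (GF N (fun i => ¬ i ∈ s)).toReal) :=
    fun s => (hterm s).trans (mul_le_mul_of_nonneg_right (hsplit s) (hfpos s).le)
  have htot : ((n : ℝ) + 1) * (n.factorial : ℝ) ≤
      (GP μ).toReal * ∑ s : Finset ι, (GF N (fun i => i ∈ s)).toReal *
        (GF N (fun i => ¬ i ∈ s)).toReal := by
    rw [← sum_factorials, Finset.mul_sum]
    exact Finset.sum_le_sum fun s _ => hterm2 s
  constructor
  · rw [div_le_iff₀ hfac]
    rw [hS, hg] at htot
    have : ((n : ℝ) + 1) * (n.factorial : ℝ) ≤ (a * b * n.factorial) * n.factorial := by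
      linarith [htot, show (n.factorial : ℝ) * a * (n.factorial * b) =
        (a * b * n.factorial) * n.factorial by ring]
    exact le_of_mul_le_mul_right this hfac
  · intro heq
    have htot2 : ((n : ℝ) + 1) * (n.factorial : ℝ) =
      (GP μ).toReal * ∑ s : Finset ι, (GF N (fun i => i ∈ s)).toReal *
        (GF N (fun i => ¬ i ∈ s)).toReal := by
      rw [hS, hg]
      have : (n.factorial : ℝ) * a * (n.factorial * b) = (a * b) * (n.factorial * n.factorial) := by
        ring
      rw [this, heq]
      field_simp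
    rw [← sum_factorials, Finset.mul_sum] at htot2
    have hall := (Finset.sum_eq_sum_iff_of_le (fun s _ => hterm2 s)).1 htot2
    have hadd : ∀ i, GP μ ≤ GF μ (fun j => j ∈ ({i} : Finset ι)) *
        GF μ (fun j => ¬ j ∈ ({i} : Finset ι)) := by
      intro i
      have h1 := hall {i} (Finset.mem_univ _)
      have h2 := hterm {i}
      rw [h1] at h2
      have h3 := le_of_mul_le_mul_right h2 (hfpos {i})
      rw [← ENNReal.toReal_mul] at h3
      exact (ENNReal.toReal_le_toReal (GP_lt_top h.hμ).ne
        (ENNReal.mul_ne_top (GF_lt_top h.hμ _).ne (GF_lt_top h.hμ _).ne)).1 h3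
    refine ⟨fun i => μ (Pi.single i 1), fun i => h.hμ.nonneg _, fun x hx => ?_⟩
    refine linear_of_additive h.hμ (fun i x hx => ?_) x hx
    have h4 := additive_on h.hμ _ (hadd i) x hx
    have e1 : res (fun j => j ∈ ({i} : Finset ι)) x = res (fun j => j = i) x := by
      funext j; simp [res]
    have e2 : res (fun j => ¬ j ∈ ({i} : Finset ι)) x = res (fun j => ¬ j = i) x := by
      funext j; simp [res]
    rw [e1, e2] at h4
    exact h4

end Pool.Agent.Helper47.AQ
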