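import Pool.Agent.Helper47.AQ.Prod

/-!
# Joins
-/

open MeasureTheory Set Filter Topology
open scoped ENNReal Pointwise

noncomputable section

namespace Pool.Agent.Helper47.AQ

variable {ι κ : Type} [Fintype ι] [Fintype κ]

theorem lint_join (G : ((ι ⊕ κ) ⊕ Unit → ℝ) → ℝ≥0∞) (hG : Measurable G) :
    ∫⁻ z, G z = ∫⁻ w : ι ⊕ κ → ℝ, ∫⁻ t : ℝ, G (Sum.elim w (fun _ => t)) := by
  rw [lint_sum G hG]
  refine lintegral_congr fun w => ?_
  have hu := volume_preserving_funUnique Unit ℝ
  have hG' : Measurable fun y : Unit → ℝ => G (Sum.elim w y) :=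
    hG.comp (measurable_elim.comp (measurable_const.prodMk measurable_id))
  have h := hu.symm.lintegral_comp hG'
  rw [← h]
  rfl

theorem measurable_elim_unit {α : Type} [MeasurableSpace α] (f : α → ι ⊕ κ → ℝ) (g : α → ℝ)
    (hf : Measurable f) (hg : Measurable g) :
    Measurable fun a => (Sum.elim (f a) (fun _ => g a) : (ι ⊕ κ) ⊕ Unit → ℝ) := by
  refine measurable_pi_lambda _ fun o => ?_
  cases o with
  | inl i => exact (measurable_pi_apply i).comp hf
  | inr j => exact hg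

theorem joinSet_eq_image (K : Set (ι → ℝ)) (L : Set (κ → ℝ)) :
    joinSet K L = (fun q : ℝ × (ι → ℝ) × (κ → ℝ) =>
      (Sum.elim (Sum.elim (q.1 • q.2.1) ((1 - q.1) • q.2.2)) (fun _ => q.1) :
        (ι ⊕ κ) ⊕ Unit → ℝ)) '' (Icc (0 : ℝ) 1 ×ˢ K ×ˢ L) := by
  ext z
  constructor
  · rintro ⟨t, ht, x, hx, y, hy, rfl⟩
    exact ⟨(t, x, y), ⟨ht, hx, hy⟩, rfl⟩
  · rintro ⟨⟨t, x, y⟩, ⟨ht, hx, hy⟩, rfl⟩
    exact ⟨t, ht, x, hx, y, hy, rfl⟩

theorem IsBody.join {K : Set (ι → ℝ)} {L : Set (κ → ℝ)} (hK : IsBody K) (hL : IsBody L) :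
    IsBody (joinSet K L) where
  conv := by
    rintro z ⟨t, ht, x, hx, y, hy, rfl⟩ w ⟨s, hs, x', hx', y', hy', rfl⟩ a b ha hb hab
    have hT0 : 0 ≤ a * t + b * s := add_nonneg (mul_nonneg ha ht.1) (mul_nonneg hb hs.1)
    have hS0 : 0 ≤ a * (1 - t) + b * (1 - s) :=
      add_nonneg (mul_nonneg ha (by linarith [ht.2])) (mul_nonneg hb (by linarith [hs.2]))
    have hTS : (a * t + b * s) + (a * (1 - t) + b * (1 - s)) = 1 := by linear_combination hab
    obtain ⟨X, hX, hXe⟩ : ∃ X ∈ K, (a * t + b * s) • X = (a * t) • x + (b * s) • x' := by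
      rcases hT0.eq_or_lt with h0 | h0
      · have h1 : a * t = 0 := by nlinarith [mul_nonneg ha ht.1, mul_nonneg hb hs.1]
        have h2 : b * s = 0 := by nlinarith [mul_nonneg ha ht.1, mul_nonneg hb hs.1]
        exact ⟨x, hx, by rw [h1, h2]; simp⟩
      · refine ⟨((a * t) / (a * t + b * s)) • x + ((b * s) / (a * t + b * s)) • x',
          hK.conv hx hx' (div_nonneg (mul_nonneg ha ht.1) h0.le)
            (div_nonneg (mul_nonneg hb hs.1) h0.le) (by field_simp), ?_⟩
        rw [smul_add, smul_smul, smul_smul, mul_div_cancel₀ _ h0.ne', mul_div_cancel₀ _ h0.ne']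
    obtain ⟨Y, hY, hYe⟩ : ∃ Y ∈ L, (a * (1 - t) + b * (1 - s)) • Y =
        (a * (1 - t)) • y + (b * (1 - s)) • y' := by
      have p1 : 0 ≤ a * (1 - t) := mul_nonneg ha (by linarith [ht.2])
      have p2 : 0 ≤ b * (1 - s) := mul_nonneg hb (by linarith [hs.2])
      rcases hS0.eq_or_lt with h0 | h0
      · have h1 : a * (1 - t) = 0 := by linarith
        have h2 : b * (1 - s) = 0 := by linarith
        exact ⟨y, hy, by rw [h1, h2]; simp⟩
      · refine ⟨((a * (1 - t)) / (a * (1 - t) + b * (1 - s))) • y +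
          ((b * (1 - s)) / (a * (1 - t) + b * (1 - s))) • y',
          hL.conv hy hy' (div_nonneg p1 h0.le) (div_nonneg p2 h0.le) (by field_simp), ?_⟩
        rw [smul_add, smul_smul, smul_smul, mul_div_cancel₀ _ h0.ne', mul_div_cancel₀ _ h0.ne']
    refine ⟨a * t + b * s, ⟨hT0, by linarith⟩, X, hX, Y, hY, ?_⟩
    have hYe' : (1 - (a * t + b * s)) • Y = (a * (1 - t)) • y + (b * (1 - s)) • y' := by
      rw [← hYe]; congr 1; linear_combination -hTS
    rw [hXe, hYe']
    funext o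
    rcases o with (i | j) | u
    · simp only [Pi.add_apply, Pi.smul_apply, Sum.elim_inl, smul_eq_mul]; ring
    · simp only [Pi.add_apply, Pi.smul_apply, Sum.elim_inl, Sum.elim_inr, smul_eq_mul]; ring
    · simp only [Pi.add_apply, Pi.smul_apply, Sum.elim_inr, smul_eq_mul]
  comp := by
    rw [joinSet_eq_image]
    refine (isCompact_Icc.prod (hK.comp.prod hL.comp)).image ?_
    refine continuous_pi fun o => ?_
    rcases o with (i | j) | u
    · simp only [Sum.elim_inl, Pi.smul_apply, smul_eq_mul]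
      exact continuous_fst.mul ((continuous_apply i).comp (continuous_fst.comp continuous_snd))
    · simp only [Sum.elim_inl, Sum.elim_inr, Pi.smul_apply, smul_eq_mul]
      exact (continuous_const.sub continuous_fst).mul
        ((continuous_apply j).comp (continuous_snd.comp continuous_snd))
    · simp only [Sum.elim_inr]
      exact continuous_fst
  int := by
    obtain ⟨x, hx⟩ := hK.int
    obtain ⟨y, hy⟩ := hL.int
    set T : ((ι ⊕ κ) ⊕ Unit → ℝ) → ℝ := fun z => z (Sum.inr ()) with hT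
    have hTc : Continuous T := continuous_apply _
    set f1 : ((ι ⊕ κ) ⊕ Unit → ℝ) → ι → ℝ := fun z i => (T z)⁻¹ * z (Sum.inl (Sum.inl i))
    set f2 : ((ι ⊕ κ) ⊕ Unit → ℝ) → κ → ℝ := fun z j => (1 - T z)⁻¹ * z (Sum.inl (Sum.inr j))
    set U : Set ((ι ⊕ κ) ⊕ Unit → ℝ) := {z | 0 < T z} ∩ {z | T z < 1} with hU
    have hUo : IsOpen U := (isOpen_lt continuous_const hTc).inter (isOpen_lt hTc continuous_const)
    have hf1 : ContinuousOn f1 U := by
      refine continuousOn_pi.2 fun i => ContinuousOn.mul (ContinuousOn.inv₀ hTc.continuousOn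
        fun z hz => ne_of_gt hz.1) (continuous_apply _).continuousOn
    have hf2 : ContinuousOn f2 U := by
      refine continuousOn_pi.2 fun i => ContinuousOn.mul (ContinuousOn.inv₀
        (continuousOn_const.sub hTc.continuousOn)
        fun z hz => ne_of_gt (sub_pos.2 hz.2)) (continuous_apply _).continuousOn
    refine ⟨Sum.elim (Sum.elim ((1 / 2 : ℝ) • x) ((1 / 2 : ℝ) • y)) (fun _ => 1 / 2), ?_⟩
    rw [mem_interior]
    refine ⟨(U ∩ f1 ⁻¹' interior K) ∩ (U ∩ f2 ⁻¹' interior L), ?_,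
      (hf1.isOpen_inter_preimage hUo isOpen_interior).inter
        (hf2.isOpen_inter_preimage hUo isOpen_interior), ⟨⟨⟨?_, ?_⟩, ?_⟩, ⟨⟨?_, ?_⟩, ?_⟩⟩⟩
    · rintro z ⟨⟨h1, h2⟩, ⟨_, h3⟩⟩
      refine ⟨T z, ⟨(le_of_lt h1.1), (le_of_lt h1.2)⟩, f1 z, interior_subset h2, f2 z,
        interior_subset h3, ?_⟩
      have e1 : T z ≠ 0 := ne_of_gt h1.1
      have e2 : 1 - T z ≠ 0 := ne_of_gt (sub_pos.2 h1.2)
      funext o
      rcases o with (i | j) | u
      · simp only [Sum.elim_inl, Pi.smul_apply, smul_eq_mul, f1]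
        rw [← mul_assoc, mul_inv_cancel₀ e1, one_mul]
      · simp only [Sum.elim_inl, Sum.elim_inr, Pi.smul_apply, smul_eq_mul, f2]
        rw [← mul_assoc, mul_inv_cancel₀ e2, one_mul]
      · simp only [Sum.elim_inr, hT]
    · show (0 : ℝ) < 1 / 2
      norm_num
    · show (1 / 2 : ℝ) < 1
      norm_num
    · have : f1 (Sum.elim (Sum.elim ((1 / 2 : ℝ) • x) ((1 / 2 : ℝ) • y)) (fun _ => 1 / 2)) = x := by
        funext i
        simp [f1, hT]
      rw [mem_preimage, this]; exact hx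
    · show (0 : ℝ) < 1 / 2
      norm_num
    · show (1 / 2 : ℝ) < 1
      norm_num
    · have : f2 (Sum.elim (Sum.elim ((1 / 2 : ℝ) • x) ((1 / 2 : ℝ) • y)) (fun _ => 1 / 2)) = y := by
        funext i
        simp only [f2, hT, Sum.elim_inl, Sum.elim_inr, Pi.smul_apply, smul_eq_mul]
        norm_num
        ring
      rw [mem_preimage, this]; exact hy

theorem lint_beta (a b : ℕ) :
    ∫⁻ t in Ioo (0 : ℝ) 1, ENNReal.ofReal (t ^ a * (1 - t) ^ b) =
      ENNReal.ofReal ((a.factorial : ℝ) * b.factorial / (a + b + 1).factorial) := by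
  have h1 := ProbabilityTheory.lintegral_betaPDF_eq_one (α := (a : ℝ) + 1) (β := (b : ℝ) + 1)
    (by positivity) (by positivity)
  rw [ProbabilityTheory.lintegral_betaPDF] at h1
  have hB : ProbabilityTheory.beta ((a : ℝ) + 1) ((b : ℝ) + 1) =
      (a.factorial : ℝ) * b.factorial / (a + b + 1).factorial := by
    unfold ProbabilityTheory.beta
    rw [Real.Gamma_nat_eq_factorial, Real.Gamma_nat_eq_factorial,
      show (a : ℝ) + 1 + (b + 1) = ((a + b + 1 : ℕ) : ℝ) + 1 by push_cast; ring,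
      Real.Gamma_nat_eq_factorial]
  have hBpos : 0 < ProbabilityTheory.beta ((a : ℝ) + 1) ((b : ℝ) + 1) :=
    ProbabilityTheory.beta_pos (by positivity) (by positivity)
  rw [← hB]
  set B := ProbabilityTheory.beta ((a : ℝ) + 1) ((b : ℝ) + 1)
  have h2 : ∀ t ∈ Ioo (0 : ℝ) 1, ENNReal.ofReal (t ^ a * (1 - t) ^ b) = ENNReal.ofReal B *
      ENNReal.ofReal (1 / B * t ^ ((a : ℝ) + 1 - 1) * (1 - t) ^ ((b : ℝ) + 1 - 1)) := by
    intro t ht
    rw [← ENNReal.ofReal_mul hBpos.le]
    congr 1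
    simp only [add_sub_cancel_right, Real.rpow_natCast]
    field_simp
  rw [setLIntegral_congr_fun measurableSet_Ioo h2, lintegral_const_mul, h1, mul_one]
  fun_prop

theorem mem_join_iff {K : Set (ι → ℝ)} {L : Set (κ → ℝ)} (w : ι ⊕ κ → ℝ) (t : ℝ)
    (ht : t ∈ Ioo (0 : ℝ) 1) :
    (Sum.elim w (fun _ => t) : (ι ⊕ κ) ⊕ Unit → ℝ) ∈ joinSet K L ↔
      w ∈ prodSet (t • K) ((1 - t) • L) := by
  have e1 : t ≠ 0 := ne_of_gt ht.1
  have e2 : 1 - t ≠ 0 := ne_of_gt (sub_pos.2 ht.2)
  constructor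
  · rintro ⟨s, hs, x, hx, y, hy, h⟩
    have hst : t = s := congrFun h (Sum.inr ())
    subst hst
    have hw : w = Sum.elim (t • x) ((1 - t) • y) := by
      funext o
      exact congrFun h (Sum.inl o)
    rw [hw]
    exact ⟨⟨x, hx, rfl⟩, ⟨y, hy, rfl⟩⟩
  · rintro ⟨⟨x, hx, h1⟩, ⟨y, hy, h2⟩⟩
    refine ⟨t, ⟨ht.1.le, ht.2.le⟩, x, hx, y, hy, ?_⟩
    funext o
    rcases o with (i | j) | u
    · exact (congrFun h1 i).symm
    · exact (congrFun h2 j).symm
    · rfl

theorem IsBody.smul {K : Set (ι → ℝ)} (h : IsBody K) (t : ℝ) (ht : t ≠ 0) : IsBody (t • K) where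
  conv := h.conv.smul t
  comp := h.comp.smul t
  int := by
    rw [interior_smul₀ ht]
    exact h.int.smul_set

theorem vol_join {K : Set (ι → ℝ)} {L : Set (κ → ℝ)} (hK : IsBody K) (hL : IsBody L) :
    volume (joinSet K L) = ENNReal.ofReal (((Fintype.card ι).factorial : ℝ) *
      (Fintype.card κ).factorial / (Fintype.card ι + Fintype.card κ + 1).factorial) *
        (volume K * volume L) := by
  have hm := (hK.join hL).comp.isClosed.measurableSet
  have hmi : Measurable ((joinSet K L).indicator fun _ => (1 : ℝ≥0∞)) :=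
    measurable_const.indicator hm
  have h1 := lint_join ((joinSet K L).indicator fun _ => (1 : ℝ≥0∞)) hmi
  rw [lintegral_indicator_const hm, one_mul] at h1
  rw [h1, lintegral_lintegral_swap]
  swap
  · exact (hmi.comp (measurable_elim_unit _ _ measurable_fst measurable_snd)).aemeasurable
  have h2 : ∫⁻ t : ℝ, ∫⁻ w : ι ⊕ κ → ℝ, (joinSet K L).indicator (fun _ => (1 : ℝ≥0∞))
      (Sum.elim w (fun _ => t)) = ∫⁻ t in Ioo (0 : ℝ) 1, ∫⁻ w : ι ⊕ κ → ℝ,
        (joinSet K L).indicator (fun _ => (1 : ℝ≥0∞)) (Sum.elim w (fun _ => t)) := by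
    rw [← lintegral_indicator measurableSet_Ioo]
    refine lintegral_congr_ae ?_
    have hne : ∀ᵐ t : ℝ, t ≠ 0 ∧ t ≠ 1 := by
      have a0 : ∀ᵐ t : ℝ, t ≠ 0 := by
        rw [ae_iff]; simp
      have a1 : ∀ᵐ t : ℝ, t ≠ 1 := by
        rw [ae_iff]; simp
      filter_upwards [a0, a1] with t h0 h1 using ⟨h0, h1⟩
    filter_upwards [hne] with t ht
    by_cases htI : t ∈ Ioo (0 : ℝ) 1
    · rw [indicator_of_mem htI]
    · rw [indicator_of_notMem htI]
      have h3 : ∀ w : ι ⊕ κ → ℝ, (joinSet K L).indicator (fun _ => (1 : ℝ≥0∞))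
          (Sum.elim w (fun _ => t)) = 0 := by
        intro w
        refine indicator_of_notMem ?_ _
        rintro ⟨s, hs, x, hx, y, hy, h⟩
        have hst : t = s := congrFun h (Sum.inr ())
        rw [← hst] at hs
        exact htI ⟨lt_of_le_of_ne hs.1 ht.1.symm, lt_of_le_of_ne hs.2 ht.2⟩
      simp [h3]
  rw [h2, ← lint_beta, ← lintegral_mul_const _ (by fun_prop)]
  refine setLIntegral_congr_fun measurableSet_Ioo fun t ht => ?_
  have e1 : t ≠ 0 := ne_of_gt ht.1
  have e2 : 1 - t ≠ 0 := ne_of_gt (sub_pos.2 ht.2)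
  have h4 : ∀ w : ι ⊕ κ → ℝ, (joinSet K L).indicator (fun _ => (1 : ℝ≥0∞))
      (Sum.elim w (fun _ => t)) =
        (prodSet (t • K) ((1 - t) • L)).indicator (fun _ => (1 : ℝ≥0∞)) w := by
    intro w
    by_cases hw : w ∈ prodSet (t • K) ((1 - t) • L)
    · rw [indicator_of_mem hw, indicator_of_mem ((mem_join_iff w t ht).2 hw)]
    · rw [indicator_of_notMem hw, indicator_of_notMem fun h => hw ((mem_join_iff w t ht).1 h)]
  have hb1 := hK.smul t e1
  have hb2 := hL.smul (1 - t) e2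
  beta_reduce
  simp_rw [h4]
  rw [lintegral_indicator_const (hb1.prod hb2).comp.isClosed.measurableSet, one_mul,
    vol_prod hb1 hb2, Measure.addHaar_smul, Measure.addHaar_smul,
    Module.finrank_fintype_fun_eq_card, Module.finrank_fintype_fun_eq_card,
    abs_of_pos (pow_pos ht.1 _), abs_of_pos (pow_pos (sub_pos.2 ht.2) _),
    ENNReal.ofReal_mul (pow_nonneg ht.1.le _)]
  ring

theorem lint_one_sub {K : Set (ι → ℝ)} (hK : IsBody K) :
    ∫⁻ p in dpol K, ENNReal.ofReal (1 - wd K p) =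
      ENNReal.ofReal (1 / ((Fintype.card ι : ℝ) + 1)) * volume (dpol K) := by
  have hmK : MeasurableSet (dpol K) := by
    rw [hK.dpol_eq]
    exact measurableSet_le hK.wd_continuous.measurable measurable_const
  have h1 : ∀ p ∈ dpol K, ENNReal.ofReal (1 - wd K p) =
      ∫⁻ t in Icc (0 : ℝ) 1, {t : ℝ | wd K p ≤ t}.indicator (fun _ => (1 : ℝ≥0∞)) t := by
    intro p hp
    have hms : MeasurableSet {t : ℝ | wd K p ≤ t} := measurableSet_Ici
    rw [lintegral_indicator_const hms, one_mul, Measure.restrict_apply hms]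
    have : {t : ℝ | wd K p ≤ t} ∩ Icc 0 1 = Icc (wd K p) 1 := by
      ext t
      constructor
      · rintro ⟨h1, h2⟩; exact ⟨h1, h2.2⟩
      · rintro ⟨h1, h2⟩; exact ⟨h1, (hK.wd_nonneg p).trans h1, h2⟩
    rw [this, Real.volume_Icc]
  rw [setLIntegral_congr_fun hmK h1, lintegral_lintegral_swap]
  swap
  · have hms : MeasurableSet {z : (ι → ℝ) × ℝ | wd K z.1 ≤ z.2} :=
      measurableSet_le (hK.wd_continuous.measurable.comp measurable_fst) measurable_snd
    have h4 : (Function.uncurry fun (p : ι → ℝ) (t : ℝ) =>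
        {t : ℝ | wd K p ≤ t}.indicator (fun _ => (1 : ℝ≥0∞)) t) =
        {z : (ι → ℝ) × ℝ | wd K z.1 ≤ z.2}.indicator (fun _ => 1) := by
      funext z
      simp only [Function.uncurry]
      by_cases hz : wd K z.1 ≤ z.2
      · rw [indicator_of_mem (s := {t : ℝ | wd K z.1 ≤ t}) hz,
          indicator_of_mem (s := {z : (ι → ℝ) × ℝ | wd K z.1 ≤ z.2}) hz]
      · rw [indicator_of_notMem (s := {t : ℝ | wd K z.1 ≤ t}) hz,
          indicator_of_notMem (s := {z : (ι → ℝ) × ℝ | wd K z.1 ≤ z.2}) hz]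
    rw [h4]
    exact (measurable_const.indicator hms).aemeasurable
  rw [← restrict_Ioo_eq_restrict_Icc]
  have h5 : ∀ t ∈ Ioo (0 : ℝ) 1, ∫⁻ p in dpol K,
      {t : ℝ | wd K p ≤ t}.indicator (fun _ => (1 : ℝ≥0∞)) t =
        ENNReal.ofReal (t ^ Fintype.card ι * (1 - t) ^ 0) * volume (dpol K) := by
    intro t ht
    have h6 : ∀ p, {t : ℝ | wd K p ≤ t}.indicator (fun _ => (1 : ℝ≥0∞)) t =
        {p | wd K p ≤ t}.indicator (fun _ => (1 : ℝ≥0∞)) p := by
      intro p
      by_cases hz : wd K p ≤ t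
      · rw [indicator_of_mem (s := {t : ℝ | wd K p ≤ t}) hz,
          indicator_of_mem (s := {p | wd K p ≤ t}) hz]
      · rw [indicator_of_notMem (s := {t : ℝ | wd K p ≤ t}) hz,
          indicator_of_notMem (s := {p | wd K p ≤ t}) hz]
    simp_rw [h6]
    have hms : MeasurableSet {p | wd K p ≤ t} :=
      measurableSet_le hK.wd_continuous.measurable measurable_const
    rw [lintegral_indicator_const hms, one_mul, Measure.restrict_apply hms]
    have h7 : {p | wd K p ≤ t} ∩ dpol K = univ ∩ {p | wd K p ≤ t} := by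
      rw [univ_inter, inter_eq_left, hK.dpol_eq]
      intro p hp
      have hp' : wd K p ≤ t := hp
      exact hp'.trans ht.2.le
    rw [h7, vol_scale univ (fun t _ x => by simp) (wd K) (fun t ht x => hK.wd_smul t ht x) t ht.1,
      univ_inter, ← hK.dpol_eq, pow_zero, mul_one]
  rw [setLIntegral_congr_fun measurableSet_Ioo h5, lintegral_mul_const _ (by fun_prop), lint_beta]
  congr 2
  rw [add_zero, Nat.factorial_succ]
  push_cast
  have : (0 : ℝ) < ((Fintype.card ι).factorial : ℝ) := by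
    exact_mod_cast (Fintype.card ι).factorial_pos
  field_simp
  simp

theorem mem_dpol_join {K : Set (ι → ℝ)} {L : Set (κ → ℝ)} (hK : IsBody K) (hL : IsBody L)
    (p : ι → ℝ) (q : κ → ℝ) (s : ℝ) :
    (Sum.elim (Sum.elim p q) (fun _ => s) : (ι ⊕ κ) ⊕ Unit → ℝ) ∈ dpol (joinSet K L) ↔
      (p ∈ dpol K ∧ q ∈ dpol L) ∧
        s ∈ Icc (hs K (-p) + hs L q - 1) (1 - hs K p - hs L (-q)) := by
  have hsum : ∀ (t t' : ℝ) (x x' : ι → ℝ) (y y' : κ → ℝ),
      ∑ o, (Sum.elim (Sum.elim p q) (fun _ => s) : (ι ⊕ κ) ⊕ Unit → ℝ) o *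
        ((Sum.elim (Sum.elim (t • x) ((1 - t) • y)) (fun _ => t) : (ι ⊕ κ) ⊕ Unit → ℝ) o -
         (Sum.elim (Sum.elim (t' • x') ((1 - t') • y')) (fun _ => t') :
          (ι ⊕ κ) ⊕ Unit → ℝ) o) =
      t * (∑ i, p i * x i) + (1 - t) * (∑ j, q j * y j) + t' * (∑ i, (-p) i * x' i) +
        (1 - t') * (∑ j, (-q) j * y' j) + s * (t - t') := by
    intro t t' x x' y y'
    rw [Fintype.sum_sum_type, Fintype.sum_sum_type]
    simp only [Sum.elim_inl, Sum.elim_inr, Pi.smul_apply, smul_eq_mul, Pi.neg_apply,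
      Finset.univ_unique, Finset.sum_const, Finset.card_singleton, one_smul]
    have a1 : ∑ i, p i * (t * x i - t' * x' i) =
        t * (∑ i, p i * x i) + t' * (∑ i, -p i * x' i) := by
      rw [Finset.mul_sum, Finset.mul_sum, ← Finset.sum_add_distrib]
      exact Finset.sum_congr rfl fun i _ => by ring
    have a2 : ∑ i, q i * ((1 - t) * y i - (1 - t') * y' i) =
        (1 - t) * (∑ i, q i * y i) + (1 - t') * (∑ i, -q i * y' i) := by
      rw [Finset.mul_sum, Finset.mul_sum, ← Finset.sum_add_distrib]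
      exact Finset.sum_congr rfl fun i _ => by ring
    rw [a1, a2]
    ring
  obtain ⟨x0, hx0⟩ := hK.nonempty
  obtain ⟨y0, hy0⟩ := hL.nonempty
  constructor
  · intro h
    have g : ∀ t ∈ Icc (0 : ℝ) 1, ∀ t' ∈ Icc (0 : ℝ) 1, ∀ x ∈ K, ∀ x' ∈ K, ∀ y ∈ L, ∀ y' ∈ L,
        t * (∑ i, p i * x i) + (1 - t) * (∑ j, q j * y j) + t' * (∑ i, (-p) i * x' i) +
        (1 - t') * (∑ j, (-q) j * y' j) + s * (t - t') ≤ 1 := by
      intro t ht t' ht' x hx x' hx' y hy y' hy'
      rw [← hsum]
      exact h _ ⟨t, ht, x, hx, y, hy, rfl⟩ _ ⟨t', ht', x', hx', y', hy', rfl⟩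
    have i0 : (0 : ℝ) ∈ Icc (0 : ℝ) 1 := ⟨le_rfl, zero_le_one⟩
    have i1 : (1 : ℝ) ∈ Icc (0 : ℝ) 1 := ⟨zero_le_one, le_rfl⟩
    have split : ∀ {α : Type} [Fintype α] (r a b : α → ℝ),
        ∑ i, r i * (a i - b i) = ∑ i, r i * a i + ∑ i, (-r) i * b i := by
      intro α _ r a b
      rw [← Finset.sum_add_distrib]
      exact Finset.sum_congr rfl fun i _ => by simp only [Pi.neg_apply]; ring
    refine ⟨⟨fun x hx x' hx' => ?_, fun y hy y' hy' => ?_⟩, ?_, ?_⟩
    · have := g 1 i1 1 i1 x hx x' hx' y0 hy0 y0 hy0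
      rw [split]
      linarith
    · have := g 0 i0 0 i0 x0 hx0 x0 hx0 y hy y' hy'
      rw [split]
      linarith
    · have k1 : ∀ y ∈ L, hs K (-p) ≤ 1 + s - ∑ j, q j * y j := by
        intro y hy
        refine hK.hs_le _ _ fun x' hx' => ?_
        have := g 0 i0 1 i1 x0 hx0 x' hx' y hy y0 hy0
        linarith
      have k2 : hs L q ≤ 1 + s - hs K (-p) := by
        refine hL.hs_le _ _ fun y hy => ?_
        have := k1 y hy
        linarith
      linarith
    · have k1 : ∀ y' ∈ L, hs K p ≤ 1 - s - ∑ j, (-q) j * y' j := by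
        intro y' hy'
        refine hK.hs_le _ _ fun x hx => ?_
        have := g 1 i1 0 i0 x hx x0 hx0 y0 hy0 y' hy'
        linarith
      have k2 : hs L (-q) ≤ 1 - s - hs K p := by
        refine hL.hs_le _ _ fun y hy => ?_
        have := k1 y hy
        linarith
      linarith
  · rintro ⟨⟨hp, hq⟩, hs1, hs2⟩
    rintro _ ⟨t, ht, x, hx, y, hy, rfl⟩ _ ⟨t', ht', x', hx', y', hy', rfl⟩
    rw [hsum]
    have b1 := hK.le_hs p hx
    have b2 := hL.le_hs q hy
    have b3 := hK.le_hs (-p) hx'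
    have b4 := hL.le_hs (-q) hy'
    have c1 : hs K p + hs K (-p) ≤ 1 := by rw [hK.dpol_eq] at hp; exact hp
    have c2 : hs L q + hs L (-q) ≤ 1 := by rw [hL.dpol_eq] at hq; exact hq
    have ht0 := ht.1
    have ht1 : 0 ≤ 1 - t := by linarith [ht.2]
    have ht0' := ht'.1
    have ht1' : 0 ≤ 1 - t' := by linarith [ht'.2]
    have d1 := mul_le_mul_of_nonneg_left b1 ht0
    have d2 := mul_le_mul_of_nonneg_left b2 ht1
    have d3 := mul_le_mul_of_nonneg_left b3 ht0'
    have d4 := mul_le_mul_of_nonneg_left b4 ht1'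
    have e1 := mul_le_mul_of_nonneg_left c1 (mul_nonneg ht0 ht0')
    have e2 := mul_le_mul_of_nonneg_left c2 (mul_nonneg ht1 ht1')
    have e3 := mul_le_mul_of_nonneg_left (show hs K p + hs L (-q) + s ≤ 1 by linarith)
      (mul_nonneg ht0 ht1')
    have e4 := mul_le_mul_of_nonneg_left (show hs K (-p) + hs L q - s ≤ 1 by linarith)
      (mul_nonneg ht1 ht0')
    nlinarith

theorem dpol_join {K : Set (ι → ℝ)} {L : Set (κ → ℝ)} (hK : IsBody K) (hL : IsBody L) :
    volume (dpol (joinSet K L)) =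
      ENNReal.ofReal (1 / ((Fintype.card ι : ℝ) + 1) + 1 / ((Fintype.card κ : ℝ) + 1)) *
        (volume (dpol K) * volume (dpol L)) := by
  have hJ := hK.join hL
  have hm : MeasurableSet (dpol (joinSet K L)) := by
    rw [hJ.dpol_eq]
    exact measurableSet_le hJ.wd_continuous.measurable measurable_const
  have hmK : MeasurableSet (dpol K) := by
    rw [hK.dpol_eq]
    exact measurableSet_le hK.wd_continuous.measurable measurable_const
  have hmL : MeasurableSet (dpol L) := by
    rw [hL.dpol_eq]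
    exact measurableSet_le hL.wd_continuous.measurable measurable_const
  have hmi : Measurable ((dpol (joinSet K L)).indicator fun _ => (1 : ℝ≥0∞)) :=
    measurable_const.indicator hm
  have h1 := lint_join ((dpol (joinSet K L)).indicator fun _ => (1 : ℝ≥0∞)) hmi
  rw [lintegral_indicator_const hm, one_mul] at h1
  have hmw : Measurable fun w : ι ⊕ κ → ℝ => ∫⁻ t : ℝ,
      (dpol (joinSet K L)).indicator (fun _ => (1 : ℝ≥0∞)) (Sum.elim w (fun _ => t)) :=
    Measurable.lintegral_prod_right'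
      (f := fun z : (ι ⊕ κ → ℝ) × ℝ => (dpol (joinSet K L)).indicator (fun _ => (1 : ℝ≥0∞))
        (Sum.elim z.1 (fun _ => z.2)))
      (hmi.comp (measurable_elim_unit _ _ measurable_fst measurable_snd))
  rw [h1, lint_sum _ hmw]
  have hmwK : Measurable fun p : ι → ℝ => ENNReal.ofReal (1 - wd K p) :=
    (ENNReal.continuous_ofReal.comp (continuous_const.sub hK.wd_continuous)).measurable
  have hmwL : Measurable fun p : κ → ℝ => ENNReal.ofReal (1 - wd L p) :=
    (ENNReal.continuous_ofReal.comp (continuous_const.sub hL.wd_continuous)).measurable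
  have h2 : ∀ p : ι → ℝ, ∀ q : κ → ℝ, ∫⁻ t : ℝ,
      (dpol (joinSet K L)).indicator (fun _ => (1 : ℝ≥0∞))
        (Sum.elim (Sum.elim p q) (fun _ => t)) =
      (dpol K).indicator (fun p => (dpol L).indicator (fun q =>
        ENNReal.ofReal (1 - wd K p) + ENNReal.ofReal (1 - wd L q)) q) p := by
    intro p q
    by_cases hp : p ∈ dpol K
    · by_cases hq : q ∈ dpol L
      · rw [indicator_of_mem hp, indicator_of_mem hq]
        have h3 : ∀ t : ℝ, (dpol (joinSet K L)).indicator (fun _ => (1 : ℝ≥0∞))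
            (Sum.elim (Sum.elim p q) (fun _ => t)) =
            (Icc (hs K (-p) + hs L q - 1) (1 - hs K p - hs L (-q))).indicator
              (fun _ => (1 : ℝ≥0∞)) t := by
          intro t
          by_cases ht : t ∈ Icc (hs K (-p) + hs L q - 1) (1 - hs K p - hs L (-q))
          · rw [indicator_of_mem ht,
              indicator_of_mem ((mem_dpol_join hK hL p q t).2 ⟨⟨hp, hq⟩, ht⟩)]
          · rw [indicator_of_notMem ht,
              indicator_of_notMem fun h => ht ((mem_dpol_join hK hL p q t).1 h).2]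
        simp_rw [h3]
        rw [lintegral_indicator_const measurableSet_Icc, one_mul, Real.volume_Icc,
          ← ENNReal.ofReal_add]
        · congr 1
          unfold wd
          ring
        · have : wd K p ≤ 1 := by rw [hK.dpol_eq] at hp; exact hp
          linarith
        · have : wd L q ≤ 1 := by rw [hL.dpol_eq] at hq; exact hq
          linarith
      · rw [indicator_of_mem hp, indicator_of_notMem hq]
        have h3 : ∀ t : ℝ, (dpol (joinSet K L)).indicator (fun _ => (1 : ℝ≥0∞))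
            (Sum.elim (Sum.elim p q) (fun _ => t)) = 0 := fun t =>
          indicator_of_notMem (fun h => hq ((mem_dpol_join hK hL p q t).1 h).1.2) _
        simp [h3]
    · rw [indicator_of_notMem hp]
      have h3 : ∀ t : ℝ, (dpol (joinSet K L)).indicator (fun _ => (1 : ℝ≥0∞))
          (Sum.elim (Sum.elim p q) (fun _ => t)) = 0 := fun t =>
        indicator_of_notMem (fun h => hp ((mem_dpol_join hK hL p q t).1 h).1.1) _
      simp [h3]
  simp_rw [h2]
  have h4 : ∀ p : ι → ℝ, ∫⁻ q : κ → ℝ, (dpol K).indicator (fun p => (dpol L).indicator (fun q =>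
        ENNReal.ofReal (1 - wd K p) + ENNReal.ofReal (1 - wd L q)) q) p =
      (dpol K).indicator (fun p => ENNReal.ofReal (1 - wd K p) * volume (dpol L) +
        ENNReal.ofReal (1 / ((Fintype.card κ : ℝ) + 1)) * volume (dpol L)) p := by
    intro p
    by_cases hp : p ∈ dpol K
    · simp only [indicator_of_mem hp]
      rw [lintegral_indicator hmL, lintegral_add_left measurable_const, setLIntegral_const,
        lint_one_sub hL]
    · simp only [indicator_of_notMem hp]
      simp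
  simp_rw [h4]
  rw [lintegral_indicator hmK, lintegral_add_left (hmwK.mul_const _), setLIntegral_const,
    lintegral_mul_const _ hmwK, lint_one_sub hK, ENNReal.ofReal_add (by positivity) (by positivity)]
  ring

theorem F_join {K : Set (ι → ℝ)} {L : Set (κ → ℝ)} (hK : IsBody K) (hL : IsBody L) :
    F (joinSet K L) = (((Fintype.card ι).factorial : ℝ) *
      (Fintype.card κ).factorial / (Fintype.card ι + Fintype.card κ + 1).factorial) *
      (1 / ((Fintype.card ι : ℝ) + 1) + 1 / ((Fintype.card κ : ℝ) + 1)) * (F K * F L) := by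
  unfold F
  rw [vol_join hK hL, dpol_join hK hL]
  simp only [ENNReal.toReal_mul]
  rw [ENNReal.toReal_ofReal (by positivity), ENNReal.toReal_ofReal (by positivity)]
  ring

end Pool.Agent.Helper47.AQ
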