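import Pool.Agent.Helper47.AQ.Few

/-!
# The affine quermassintegral of the lines in terms of the volume of the polar of the difference
body
-/

open MeasureTheory Set Filter Topology
open scoped ENNReal

noncomputable section

namespace Pool.Agent.Helper47.AQ

variable {ι : Type} [Fintype ι]

/-- Polar coordinates for the volume of a star body. -/
theorem polar {E : Type} [NormedAddCommGroup E] [NormedSpace ℝ E] [MeasurableSpace E]
    [BorelSpace E] [FiniteDimensional ℝ E] [Nontrivial E] (μ : Measure E) [μ.IsAddHaarMeasure]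
    (n : ℕ) (hdim : Module.finrank ℝ E = n) (w : E → ℝ) (hc : Continuous w)
    (hs : ∀ t : ℝ, 0 < t → ∀ x, w (t • x) = t * w x) (hpos : ∀ x, x ≠ 0 → 0 < w x) :
    μ {x | w x < 1} = ∫⁻ u : Metric.sphere (0 : E) 1,
      ENNReal.ofReal (((w u)⁻¹) ^ n / n) ∂μ.toSphere := by
  have hn0 : 0 < n := by rw [← hdim]; exact Module.finrank_pos
  have hmp := μ.measurePreserving_homeomorphUnitSphereProd
  rw [hdim] at hmp
  set S : Set (Metric.sphere (0 : E) 1 × Ioi (0 : ℝ)) := {q | q.2.1 * w q.1 < 1} with hS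
  have hSm : MeasurableSet S := by
    refine measurableSet_lt ?_ measurable_const
    exact (measurable_subtype_coe.comp measurable_snd).mul
      (hc.measurable.comp (measurable_subtype_coe.comp measurable_fst))
  have h1 := hmp.measure_preimage hSm.nullMeasurableSet
  have h2 : (homeomorphUnitSphereProd E) ⁻¹' S =
      ((↑) : ({0}ᶜ : Set E) → E) ⁻¹' {x | w x < 1} := by
    ext x
    have hx0 : (x : E) ≠ 0 := x.2
    have hx1 : 0 < ‖(x : E)‖ := norm_pos_iff.2 hx0
    have h3 : ‖(x : E)‖ * w (((homeomorphUnitSphereProd E) x).1 : E) = w x := by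
      rw [← hs _ hx1]
      congr 1
      rw [homeomorphUnitSphereProd_apply_fst_coe, smul_smul, mul_inv_cancel₀ hx1.ne', one_smul]
    show ((homeomorphUnitSphereProd E) x).2.1 * w (((homeomorphUnitSphereProd E) x).1 : E) < 1 ↔
      w x < 1
    rw [homeomorphUnitSphereProd_apply_snd_coe, h3]
  have h4 : μ {x : E | w x < 1} =
      (Measure.comap ((↑) : ({0}ᶜ : Set E) → E) μ) (((↑) : ({0}ᶜ : Set E) → E) ⁻¹'
        {x | w x < 1}) := by
    rw [comap_subtype_coe_apply (measurableSet_singleton _).compl, Subtype.image_preimage_coe]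
    rw [inter_comm, ← Set.sdiff_eq, measure_sdiff_null (measure_singleton _)]
  rw [h4, ← h2, h1, Measure.prod_apply hSm]
  refine lintegral_congr fun u => ?_
  have hu : 0 < w u := hpos _ (by
    intro h0
    have := u.2
    rw [h0] at this
    simp at this)
  have h5 : Prod.mk u ⁻¹' S = Iio (⟨(w u)⁻¹, inv_pos.2 hu⟩ : Ioi (0 : ℝ)) := by
    ext r
    show r.1 * w u < 1 ↔ r.1 < (w u)⁻¹
    rw [lt_inv_comm₀ r.2 hu, ← one_div, lt_div_iff₀ r.2, mul_comm]
  rw [h5, Measure.volumeIoiPow_apply_Iio]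
  have h6 : n - 1 + 1 = n := Nat.sub_add_cancel hn0
  rw [h6]
  congr 2
  have : ((n - 1 : ℕ) : ℝ) + 1 = n := by exact_mod_cast h6
  rw [this]

/-- The average form of the polar coordinates. -/
theorem polar_average {E : Type} [NormedAddCommGroup E] [NormedSpace ℝ E] [MeasurableSpace E]
    [BorelSpace E] [FiniteDimensional ℝ E] [Nontrivial E] (μ : Measure E) [μ.IsAddHaarMeasure]
    (n : ℕ) (hdim : Module.finrank ℝ E = n) (w : E → ℝ) (hc : Continuous w)
    (hs : ∀ t : ℝ, 0 < t → ∀ x, w (t • x) = t * w x) (hpos : ∀ x, x ≠ 0 → 0 < w x) :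
    (μ {x | w x < 1}).toReal = (μ (Metric.ball 0 1)).toReal *
      ⨍ u : Metric.sphere (0 : E) 1, ((w u) ^ n)⁻¹ ∂μ.toSphere := by
  have hn0 : 0 < n := by rw [← hdim]; exact Module.finrank_pos
  have hn1 : (0 : ℝ) < n := by exact_mod_cast hn0
  have hne : ∀ u : Metric.sphere (0 : E) 1, (u : E) ≠ 0 := by
    intro u h0
    have := u.2
    rw [h0] at this
    simp at this
  have hcu : Continuous fun u : Metric.sphere (0 : E) 1 => ((w u) ^ n)⁻¹ :=
    ((hc.comp continuous_subtype_val).pow n).inv₀ fun u => (pow_pos (hpos _ (hne u)) n).ne'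
  have h1 := polar μ n hdim w hc hs hpos
  have h2 : ∀ u : Metric.sphere (0 : E) 1, ENNReal.ofReal (((w u)⁻¹) ^ n / n) =
      ENNReal.ofReal ((n : ℝ)⁻¹ * ((w u) ^ n)⁻¹) := by
    intro u
    congr 1
    rw [inv_pow]
    field_simp
  simp_rw [h2] at h1
  have hnn : ∀ u : Metric.sphere (0 : E) 1, 0 ≤ (n : ℝ)⁻¹ * ((w u) ^ n)⁻¹ := fun u =>
    mul_nonneg (inv_nonneg.2 hn1.le) (inv_nonneg.2 (pow_nonneg (hpos _ (hne u)).le n))
  have h3 : (μ {x | w x < 1}).toReal =
      ∫ u : Metric.sphere (0 : E) 1, (n : ℝ)⁻¹ * ((w u) ^ n)⁻¹ ∂μ.toSphere := by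
    rw [h1, integral_eq_lintegral_of_nonneg_ae (Eventually.of_forall hnn)
      (continuous_const.mul hcu).aestronglyMeasurable]
  rw [h3, integral_const_mul, average_eq, Measure.toSphere_real_apply_univ, hdim, smul_eq_mul]
  have h4 : μ.real (Metric.ball (0 : E) 1) = (μ (Metric.ball (0 : E) 1)).toReal := rfl
  have h5 : 0 < (μ (Metric.ball (0 : E) 1)).toReal :=
    ENNReal.toReal_pos (Metric.measure_ball_pos μ _ one_pos).ne' measure_ball_lt_top.ne
  rw [h4]
  field_simp

theorem IsBody.lam_eq {K : Set (ι → ℝ)} (h : IsBody K) (u : EuclideanSpace ℝ ι) :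
    lam K u = wd K u.ofLp := by
  set f : (ι → ℝ) → ℝ := fun x => ∑ i, u i * x i with hf
  have hc : Continuous f := continuous_finsetSum _ fun i _ =>
    continuous_const.mul (continuous_apply i)
  have h1 : IsCompact (f '' K) := h.comp.image hc
  have h2 : IsConnected (f '' K) :=
    (h.conv.isConnected h.nonempty).image f hc.continuousOn
  have h3 := eq_Icc_of_connected_compact h2 h1
  have h4 : sSup (f '' K) = hs K u.ofLp := rfl
  have h5 : sInf (f '' K) = -hs K (-u.ofLp) := by
    rw [Real.sInf_def]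
    congr 1
    unfold hs
    congr 1
    ext t
    constructor
    · rintro ⟨x, hx, hxt⟩
      refine ⟨x, hx, ?_⟩
      have : f x = -t := hxt
      simp only [Pi.neg_apply, neg_mul, Finset.sum_neg_distrib]
      have h6 : ∑ i, u.ofLp i * x i = f x := rfl
      rw [h6, this, neg_neg]
    · rintro ⟨x, hx, rfl⟩
      refine ⟨x, hx, ?_⟩
      simp only [Pi.neg_apply, neg_mul, Finset.sum_neg_distrib, neg_neg]
      rfl
  have h6 : lam K u = (volume (f '' K)).toReal := rfl
  rw [h6, h3, h4, h5, Real.volume_Icc, ENNReal.toReal_ofReal]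
  · unfold wd; ring
  · have := h.wd_nonneg u.ofLp
    unfold wd at this
    linarith

theorem IsBody.vol_lt {K : Set (ι → ℝ)} (h : IsBody K) :
    volume {p | wd K p < 1} = volume (dpol K) := by
  rw [h.dpol_eq]
  refine le_antisymm (measure_mono fun p hp => (show wd K p < 1 from hp).le) ?_
  have h1 : ∀ t : ℝ, 0 < t → t < 1 →
      ENNReal.ofReal (t ^ Fintype.card ι) * volume {p | wd K p ≤ 1} ≤ volume {p | wd K p < 1} := by
    intro t ht ht1
    have h2 := vol_scale univ (fun t _ x => by simp) (wd K) (fun t ht x => h.wd_smul t ht x) t ht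
    rw [univ_inter, univ_inter] at h2
    rw [← h2]
    exact measure_mono fun p hp => lt_of_le_of_lt hp ht1
  have h3 : Tendsto (fun t : ℝ => ENNReal.ofReal (t ^ Fintype.card ι) * volume {p | wd K p ≤ 1})
      (𝓝[<] 1) (𝓝 (ENNReal.ofReal ((1 : ℝ) ^ Fintype.card ι) * volume {p | wd K p ≤ 1})) := by
    refine ENNReal.Tendsto.mul_const ?_ (Or.inl (by simp))
    refine (ENNReal.tendsto_ofReal ?_)
    exact ((continuous_pow _).tendsto 1).mono_left nhdsWithin_le_nhds
  rw [one_pow, ENNReal.ofReal_one, one_mul] at h3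
  refine le_of_tendsto h3 ?_
  filter_upwards [Ioo_mem_nhdsLT (show (0 : ℝ) < 1 from one_pos)] with t ht
  exact h1 t ht.1 ht.2

theorem kap_eq [Nonempty ι] :
    (volume (Metric.ball (0 : EuclideanSpace ℝ ι) 1)).toReal = kap (Fintype.card ι) := by
  have : Nonempty (Fin (Fintype.card ι)) := Fin.pos_iff_nonempty.1 Fintype.card_pos
  unfold kap
  rw [EuclideanSpace.volume_ball, EuclideanSpace.volume_ball, Fintype.card_fin]

theorem kap_pos (n : ℕ) : 0 < kap n :=
  ENNReal.toReal_pos (Metric.measure_ball_pos volume _ one_pos).ne' measure_ball_lt_top.ne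

theorem IsBody.average [Nonempty ι] {K : Set (ι → ℝ)} (h : IsBody K) :
    (volume (dpol K)).toReal = kap (Fintype.card ι) *
      ⨍ u : Metric.sphere (0 : EuclideanSpace ℝ ι) 1, (lam K u ^ Fintype.card ι)⁻¹
        ∂(volume : Measure (EuclideanSpace ℝ ι)).toSphere := by
  have hcont : Continuous fun x : EuclideanSpace ℝ ι => wd K x.ofLp :=
    h.wd_continuous.comp (PiLp.continuous_ofLp 2 _)
  have h1 := polar_average (volume : Measure (EuclideanSpace ℝ ι)) (Fintype.card ι)
    (by simp) (fun x => wd K x.ofLp) hcont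
    (fun t ht x => by
      show wd K (t • x.ofLp) = t * wd K x.ofLp
      exact h.wd_smul t ht _)
    (fun x hx => by
      obtain ⟨ε, hε, h2⟩ := h.le_wd
      refine lt_of_lt_of_le ?_ (h2 x.ofLp)
      refine mul_pos hε ?_
      have h3 : ∃ i, x i ≠ 0 := by
        by_contra hcon
        push Not at hcon
        exact hx (by ext i; simpa using hcon i)
      obtain ⟨i, hi⟩ := h3
      exact Finset.sum_pos' (fun _ _ => abs_nonneg _) ⟨i, Finset.mem_univ _, abs_pos.2 hi⟩)
  have h2 : volume {x : EuclideanSpace ℝ ι | wd K x.ofLp < 1} = volume {p | wd K p < 1} :=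
    (PiLp.volume_preserving_ofLp ι).measure_preimage
      (isOpen_lt h.wd_continuous continuous_const).measurableSet.nullMeasurableSet
  rw [h2, h.vol_lt, kap_eq] at h1
  rw [h1]
  congr 2
  funext u
  rw [h.lam_eq]

theorem IsBody.Phi_eq [Nonempty ι] {K : Set (ι → ℝ)} (h : IsBody K) :
    aC (Fintype.card ι) * Phi K =
      kap (Fintype.card ι) ^ (((Fintype.card ι : ℝ) - 1) / (Fintype.card ι : ℝ)) *
        (volume K).toReal ^ (1 / (Fintype.card ι : ℝ)) *
        ((((Fintype.card ι : ℝ) + 1) / ((Fintype.card ι).factorial : ℝ)) / F K) ^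
          (1 / (Fintype.card ι : ℝ)) := by
  set n := Fintype.card ι with hn
  have hn0 : 0 < n := Fintype.card_pos
  have hn1 : (0 : ℝ) < n := by exact_mod_cast hn0
  have hκ := kap_pos n
  have hfac : (0 : ℝ) < (n.factorial : ℝ) := by exact_mod_cast n.factorial_pos
  have h1 := h.average
  rw [← hn] at h1
  have hV := h.vol_pos
  have hD := h.dpol_pos
  have h2 : (⨍ u : Metric.sphere (0 : EuclideanSpace ℝ ι) 1, (lam K u ^ n)⁻¹
        ∂(volume : Measure (EuclideanSpace ℝ ι)).toSphere) = (volume (dpol K)).toReal / kap n := by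
    rw [h1]; field_simp
  have hPhi : Phi K = kap n / 2 * ((volume (dpol K)).toReal / kap n) ^ (-(1 / (n : ℝ))) := by
    unfold Phi
    rw [← hn, h2]
  set c : ℝ := ((n : ℝ) + 1) / (n.factorial : ℝ) with hc
  have hc0 : 0 < c := by positivity
  have haC : aC n = 2 * kap n ^ (-(2 / (n : ℝ))) * c ^ (1 / (n : ℝ)) := rfl
  rw [hPhi, haC]
  unfold F
  set V := (volume K).toReal
  set D := (volume (dpol K)).toReal
  set r : ℝ := 1 / (n : ℝ) with hr
  have h2r : (2 / (n : ℝ)) = r + r := by rw [hr]; ring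
  have h1r : ((n : ℝ) - 1) / n = 1 - r := by rw [hr]; field_simp
  rw [h2r, h1r, Real.div_rpow hc0.le (mul_pos hV hD).le, Real.mul_rpow hV.le hD.le,
    Real.div_rpow hD.le hκ.le, Real.rpow_neg hD.le, Real.rpow_neg hκ.le r,
    Real.rpow_neg hκ.le, Real.rpow_sub hκ, Real.rpow_one, Real.rpow_add hκ]
  have e1 : kap n ^ r ≠ 0 := (Real.rpow_pos_of_pos hκ r).ne'
  have e2 : V ^ r ≠ 0 := (Real.rpow_pos_of_pos hV r).ne'
  have e3 : D ^ r ≠ 0 := (Real.rpow_pos_of_pos hD r).ne'
  field_simp

theorem IsBody.Phi_pos [Nonempty ι] {K : Set (ι → ℝ)} (h : IsBody K) : 0 < Phi K := by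
  have h1 := h.average
  have hD := h.dpol_pos
  have hκ := kap_pos (Fintype.card ι)
  unfold Phi
  refine mul_pos (by positivity) (Real.rpow_pos_of_pos ?_ _)
  rw [h1] at hD
  exact pos_of_mul_pos_right hD hκ.le

theorem aC_pos (n : ℕ) : 0 < aC n := by
  have h1 := kap_pos n
  have h2 : (0 : ℝ) < (n.factorial : ℝ) := by exact_mod_cast n.factorial_pos
  unfold aC
  positivity

/-- The inequality for `Φ` is equivalent to the inequality for the volume product. -/
theorem IsBody.Phi_iff [Nonempty ι] {K : Set (ι → ℝ)} (h : IsBody K) :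
    (aC (Fintype.card ι) * Phi K ≤
      kap (Fintype.card ι) ^ (((Fintype.card ι : ℝ) - 1) / (Fintype.card ι : ℝ)) *
        (volume K).toReal ^ (1 / (Fintype.card ι : ℝ)) ↔
      ((Fintype.card ι : ℝ) + 1) / ((Fintype.card ι).factorial : ℝ) ≤ F K) ∧
    (aC (Fintype.card ι) * Phi K =
      kap (Fintype.card ι) ^ (((Fintype.card ι : ℝ) - 1) / (Fintype.card ι : ℝ)) *
        (volume K).toReal ^ (1 / (Fintype.card ι : ℝ)) ↔
      F K = ((Fintype.card ι : ℝ) + 1) / ((Fintype.card ι).factorial : ℝ)) := by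
  rw [h.Phi_eq]
  set n := Fintype.card ι with hn
  have hn0 : 0 < n := Fintype.card_pos
  have hn1 : (0 : ℝ) < n := by exact_mod_cast hn0
  have hκ := kap_pos n
  have hV := h.vol_pos
  have hF : 0 < F K := mul_pos h.vol_pos h.dpol_pos
  have hfac : (0 : ℝ) < (n.factorial : ℝ) := by exact_mod_cast n.factorial_pos
  set c : ℝ := ((n : ℝ) + 1) / (n.factorial : ℝ) with hc
  have hc0 : 0 < c := by positivity
  set X := kap n ^ (((n : ℝ) - 1) / (n : ℝ)) * (volume K).toReal ^ (1 / (n : ℝ)) with hX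
  have hX0 : 0 < X := by positivity
  have hr : (0 : ℝ) < 1 / (n : ℝ) := by positivity
  have hq : 0 ≤ c / F K := by positivity
  constructor
  · rw [mul_le_iff_le_one_right hX0, Real.rpow_le_one_iff_of_pos (div_pos hc0 hF)]
    constructor
    · rintro (⟨h1, h2⟩ | ⟨h1, h2⟩)
      · exact absurd h2 (not_le.2 hr)
      · exact (div_le_one hF).1 h1
    · intro h1
      exact Or.inr ⟨(div_le_one hF).2 h1, hr.le⟩
  · constructor
    · intro h1
      have h2 : (c / F K) ^ (1 / (n : ℝ)) = 1 := by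
        have h3 : X * (c / F K) ^ (1 / (n : ℝ)) = X * 1 := by rw [h1, mul_one]
        exact mul_left_cancel₀ hX0.ne' h3
      have h4 : c / F K = 1 := by
        have h3 : (c / F K) ^ (1 / (n : ℝ)) = (1 : ℝ) ^ (1 / (n : ℝ)) := by
          rw [h2, Real.one_rpow]
        exact (Real.rpow_left_inj hq zero_le_one hr.ne').1 h3
      rw [div_eq_one_iff_eq hF.ne'] at h4
      exact h4.symm
    · intro h1
      rw [h1, div_self hc0.ne', Real.one_rpow, mul_one]

end Pool.Agent.Helper47.AQ
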