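import Pool.Agent.Helper47.AQ.Gen

/-!
# Cartesian products
-/

open MeasureTheory Set Filter Topology
open scoped ENNReal

noncomputable section

namespace Pool.Agent.Helper47.AQ

variable {ι κ : Type} [Fintype ι] [Fintype κ]

theorem lint_sum (G : (ι ⊕ κ → ℝ) → ℝ≥0∞) (hG : Measurable G) :
    ∫⁻ z, G z = ∫⁻ x : ι → ℝ, ∫⁻ y : κ → ℝ, G (Sum.elim x y) := by
  have h := volume_measurePreserving_sumPiEquivProdPi_symm (fun _ : ι ⊕ κ => ℝ)
  have hs : ∀ z : (ι → ℝ) × (κ → ℝ),
      (MeasurableEquiv.sumPiEquivProdPi (fun _ : ι ⊕ κ => ℝ)).symm z = Sum.elim z.1 z.2 := by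
    intro z
    funext i
    cases i <;> rfl
  rw [← h.lintegral_comp hG, Measure.volume_eq_prod, lintegral_prod]
  · simp only [hs]
  · exact (hG.comp (MeasurableEquiv.measurable _)).aemeasurable

theorem measurable_elim : Measurable fun z : (ι → ℝ) × (κ → ℝ) => (Sum.elim z.1 z.2 : ι ⊕ κ → ℝ) := by
  refine measurable_pi_lambda _ fun o => ?_
  cases o with
  | inl i => exact (measurable_pi_apply i).comp measurable_fst
  | inr j => exact (measurable_pi_apply j).comp measurable_snd

theorem continuous_inl : Continuous fun z : ι ⊕ κ → ℝ => fun i => z (Sum.inl i) :=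
  continuous_pi fun i => continuous_apply (Sum.inl i)

theorem continuous_inr : Continuous fun z : ι ⊕ κ → ℝ => fun j => z (Sum.inr j) :=
  continuous_pi fun j => continuous_apply (Sum.inr j)

theorem IsBody.prod {K : Set (ι → ℝ)} {L : Set (κ → ℝ)} (hK : IsBody K) (hL : IsBody L) :
    IsBody (prodSet K L) where
  conv := by
    rintro z ⟨h1, h2⟩ w ⟨h3, h4⟩ a b ha hb hab
    exact ⟨hK.conv h1 h3 ha hb hab, hL.conv h2 h4 ha hb hab⟩
  comp := by
    have h : prodSet K L = (fun z : (ι → ℝ) × (κ → ℝ) => (Sum.elim z.1 z.2 : ι ⊕ κ → ℝ)) ''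
        (K ×ˢ L) := by
      ext z
      constructor
      · rintro ⟨h1, h2⟩
        refine ⟨(fun i => z (Sum.inl i), fun j => z (Sum.inr j)), ⟨h1, h2⟩, ?_⟩
        funext o
        cases o <;> rfl
      · rintro ⟨⟨x, y⟩, ⟨h1, h2⟩, rfl⟩
        exact ⟨h1, h2⟩
    rw [h]
    refine (hK.comp.prod hL.comp).image ?_
    refine continuous_pi fun o => ?_
    cases o with
    | inl i => exact (continuous_apply i).comp continuous_fst
    | inr j => exact (continuous_apply j).comp continuous_snd
  int := by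
    obtain ⟨x, hx⟩ := hK.int
    obtain ⟨y, hy⟩ := hL.int
    refine ⟨Sum.elim x y, ?_⟩
    rw [mem_interior]
    refine ⟨(fun z : ι ⊕ κ → ℝ => fun i => z (Sum.inl i)) ⁻¹' interior K ∩
      (fun z : ι ⊕ κ → ℝ => fun j => z (Sum.inr j)) ⁻¹' interior L, ?_, ?_, ?_⟩
    · rintro z ⟨h1, h2⟩
      exact ⟨interior_subset h1, interior_subset h2⟩
    · exact (isOpen_interior.preimage continuous_inl).inter
        (isOpen_interior.preimage continuous_inr)
    · exact ⟨hx, hy⟩

theorem vol_prod {K : Set (ι → ℝ)} {L : Set (κ → ℝ)} (hK : IsBody K) (hL : IsBody L) :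
    volume (prodSet K L) = volume K * volume L := by
  have hm := (hK.prod hL).comp.isClosed.measurableSet
  have h1 := lint_sum ((prodSet K L).indicator fun _ => (1 : ℝ≥0∞)) (measurable_const.indicator hm)
  rw [lintegral_indicator_const hm, one_mul] at h1
  rw [h1]
  have h2 : ∀ x : ι → ℝ, ∫⁻ y : κ → ℝ, (prodSet K L).indicator (fun _ => (1 : ℝ≥0∞))
      (Sum.elim x y) = K.indicator (fun _ => volume L) x := by
    intro x
    by_cases hx : x ∈ K
    · rw [indicator_of_mem hx]
      have h3 : ∀ y : κ → ℝ, (prodSet K L).indicator (fun _ => (1 : ℝ≥0∞)) (Sum.elim x y) =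
          L.indicator (fun _ => (1 : ℝ≥0∞)) y := by
        intro y
        by_cases hy : y ∈ L
        · rw [indicator_of_mem hy, indicator_of_mem]
          exact ⟨hx, hy⟩
        · rw [indicator_of_notMem hy, indicator_of_notMem]
          exact fun h => hy h.2
      simp_rw [h3]
      rw [lintegral_indicator_const hL.comp.isClosed.measurableSet, one_mul]
    · rw [indicator_of_notMem hx]
      have h3 : ∀ y : κ → ℝ, (prodSet K L).indicator (fun _ => (1 : ℝ≥0∞)) (Sum.elim x y) = 0 :=
        fun y => indicator_of_notMem (fun h => hx h.1) _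
      simp [h3]
  simp_rw [h2]
  rw [lintegral_indicator_const hK.comp.isClosed.measurableSet, mul_comm]

theorem hs_prod {K : Set (ι → ℝ)} {L : Set (κ → ℝ)} (hK : IsBody K) (hL : IsBody L)
    (z : ι ⊕ κ → ℝ) :
    hs (prodSet K L) z = hs K (fun i => z (Sum.inl i)) + hs L (fun j => z (Sum.inr j)) := by
  have hP := hK.prod hL
  apply le_antisymm
  · refine hP.hs_le _ _ fun w hw => ?_
    rw [Fintype.sum_sum_type]
    exact add_le_add (hK.le_hs _ hw.1) (hL.le_hs _ hw.2)
  · have key : ∀ x ∈ K, ∀ y ∈ L, ∑ i, z (Sum.inl i) * x i + ∑ j, z (Sum.inr j) * y j ≤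
        hs (prodSet K L) z := by
      intro x hx y hy
      have := hP.le_hs z (x := Sum.elim x y) ⟨hx, hy⟩
      rw [Fintype.sum_sum_type] at this
      exact this
    have h1 : ∀ y ∈ L, hs K (fun i => z (Sum.inl i)) ≤
        hs (prodSet K L) z - ∑ j, z (Sum.inr j) * y j := by
      intro y hy
      refine hK.hs_le _ _ fun x hx => ?_
      have := key x hx y hy
      linarith
    have h2 : hs L (fun j => z (Sum.inr j)) ≤
        hs (prodSet K L) z - hs K (fun i => z (Sum.inl i)) := by
      refine hL.hs_le _ _ fun y hy => ?_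
      have := h1 y hy
      linarith
    linarith

theorem wd_prod {K : Set (ι → ℝ)} {L : Set (κ → ℝ)} (hK : IsBody K) (hL : IsBody L)
    (z : ι ⊕ κ → ℝ) :
    wd (prodSet K L) z = wd K (fun i => z (Sum.inl i)) + wd L (fun j => z (Sum.inr j)) := by
  unfold wd
  rw [hs_prod hK hL, hs_prod hK hL]
  have e1 : (fun i => (-z) (Sum.inl i)) = -(fun i => z (Sum.inl i)) := rfl
  have e2 : (fun i => (-z) (Sum.inr i)) = -(fun i => z (Sum.inr i)) := rfl
  rw [e1, e2]
  ring

theorem dpol_prod {K : Set (ι → ℝ)} {L : Set (κ → ℝ)} (hK : IsBody K) (hL : IsBody L) :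
    ((Fintype.card ι + Fintype.card κ).factorial : ℝ≥0∞) * volume (dpol (prodSet K L)) =
      ((Fintype.card ι).factorial * volume (dpol K)) *
        ((Fintype.card κ).factorial * volume (dpol L)) := by
  have h1 := (hK.prod hL).laplace
  rw [Fintype.card_sum] at h1
  rw [← h1, ← hK.laplace, ← hL.laplace]
  have hm : Measurable fun z : ι ⊕ κ → ℝ => ENNReal.ofReal (Real.exp (-(wd (prodSet K L) z))) :=
    (ENNReal.continuous_ofReal.comp
      (Real.continuous_exp.comp (hK.prod hL).wd_continuous.neg)).measurable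
  have hmK : Measurable fun z : ι → ℝ => ENNReal.ofReal (Real.exp (-(wd K z))) :=
    (ENNReal.continuous_ofReal.comp (Real.continuous_exp.comp hK.wd_continuous.neg)).measurable
  have hmL : Measurable fun z : κ → ℝ => ENNReal.ofReal (Real.exp (-(wd L z))) :=
    (ENNReal.continuous_ofReal.comp (Real.continuous_exp.comp hL.wd_continuous.neg)).measurable
  rw [lint_sum _ hm, mul_comm, ← lintegral_const_mul _ hmK]
  refine lintegral_congr fun x => ?_
  rw [mul_comm, ← lintegral_const_mul _ hmL]
  refine lintegral_congr fun y => ?_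
  rw [← ENNReal.ofReal_mul (Real.exp_pos _).le, ← Real.exp_add, wd_prod hK hL]
  congr 2
  simp only [Sum.elim_inl, Sum.elim_inr]
  ring

theorem F_prod {K : Set (ι → ℝ)} {L : Set (κ → ℝ)} (hK : IsBody K) (hL : IsBody L) :
    ((Fintype.card ι + Fintype.card κ).factorial : ℝ) * F (prodSet K L) =
      ((Fintype.card ι).factorial * F K) * ((Fintype.card κ).factorial * F L) := by
  have h1 := congrArg ENNReal.toReal (dpol_prod hK hL)
  simp only [ENNReal.toReal_mul, ENNReal.toReal_natCast] at h1
  unfold F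
  rw [vol_prod hK hL, ENNReal.toReal_mul]
  calc _ = ((volume K).toReal * (volume L).toReal) *
        (((Fintype.card ι + Fintype.card κ).factorial : ℝ) *
          (volume (dpol (prodSet K L))).toReal) := by ring
    _ = _ := by rw [h1]; ring

end Pool.Agent.Helper47.AQ
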