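import Pool.Agent.Helper47.AQ.Basic

/-!
# The inequality of Saint-Raymond in terms of integrals over the orthant
-/

open MeasureTheory Set Filter Topology
open scoped ENNReal

noncomputable section

namespace Pool.Agent.Helper47.AQ

variable {ι : Type} [Fintype ι]

theorem GP_lt_top {N : (ι → ℝ) → ℝ} (h : UNorm N) : GP N < ⊤ := by
  obtain ⟨c, hc, h2⟩ := h.pos
  have h1 : Integrable ((Ioi (0 : ℝ)).indicator fun x => Real.exp (-c * x)) :=
    (integrable_indicator_iff measurableSet_Ioi).2 (exp_neg_integrableOn_Ioi 0 hc)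
  have h3 : Integrable fun x : ι → ℝ =>
      ∏ i, (Ioi (0 : ℝ)).indicator (fun x => Real.exp (-c * x)) (x i) :=
    Integrable.fintype_prod (fun _ => h1)
  have h4 := h3.lintegral_lt_top
  refine lt_of_le_of_lt ?_ h4
  unfold GP
  rw [← lintegral_indicator measurableSet_P]
  refine lintegral_mono fun x => ?_
  by_cases hx : x ∈ P ι
  · rw [indicator_of_mem hx]
    refine ENNReal.ofReal_le_ofReal ?_
    have h5 : ∏ i, (Ioi (0 : ℝ)).indicator (fun x => Real.exp (-c * x)) (x i)
        = Real.exp (∑ i, (-c * x i)) := by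
      rw [Real.exp_sum]
      exact Finset.prod_congr rfl fun i _ => indicator_of_mem (s := Ioi (0 : ℝ)) (hx i) _
    rw [h5, ← Finset.mul_sum]
    refine Real.exp_le_exp.2 ?_
    have h6 := h2 x
    have h7 : ∑ i, |x i| = ∑ i, x i := Finset.sum_congr rfl fun i _ => abs_of_pos (hx i)
    rw [h7] at h6
    linarith
  · rw [indicator_of_notMem hx]
    exact zero_le

theorem isOpen_P : IsOpen (P ι) := by
  have : P ι = ⋂ i, {x : ι → ℝ | 0 < x i} := by ext x; simp [P]
  rw [this]
  exact isOpen_iInter_of_finite fun i => isOpen_lt continuous_const (continuous_apply i)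

theorem GP_pos {N : (ι → ℝ) → ℝ} (h : UNorm N) : 0 < GP N := by
  have h1 : 0 < volume (P ι) := isOpen_P.measure_pos _ ⟨fun _ => 1, fun _ => one_pos⟩
  rw [pos_iff_ne_zero]
  intro h0
  unfold GP at h0
  rw [lintegral_eq_zero_iff h.measurable] at h0
  have h2 : ∀ᵐ x ∂(volume.restrict (P ι)), False := by
    filter_upwards [h0] with x hx
    simp only [Pi.zero_apply, ENNReal.ofReal_eq_zero] at hx
    exact absurd hx (not_le.2 (Real.exp_pos _))
  rw [ae_iff] at h2
  simp only [not_false_eq_true, ofPred_true, Measure.restrict_apply MeasurableSet.univ,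
    univ_inter] at h2
  exact h1.ne' h2

theorem toReal_pos {N : (ι → ℝ) → ℝ} (h : UNorm N) : 0 < (GP N).toReal :=
  ENNReal.toReal_pos (GP_pos h).ne' (GP_lt_top h).ne

/-- the shifted pieces -/
def piece (y : ι → ℝ) : Option ι → Set (ι → ℝ)
  | none => {x | ∀ k, y k < x k}
  | some i => {x | (0 < x i ∧ x i < y i) ∧ ∀ k, k ≠ i → y k < x k}

theorem measurableSet_piece (y : ι → ℝ) (o : Option ι) : MeasurableSet (piece y o) := by
  classical
  cases o with
  | none =>
    have : piece y none = ⋂ k, {x : ι → ℝ | y k < x k} := by ext x; simp [piece]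
    rw [this]
    exact MeasurableSet.iInter fun k => measurableSet_lt measurable_const (measurable_pi_apply k)
  | some i =>
    have : piece y (some i) = ({x : ι → ℝ | 0 < x i} ∩ {x | x i < y i}) ∩
        ⋂ k, ⋂ (_ : k ≠ i), {x : ι → ℝ | y k < x k} := by
      ext x; simp [piece]
    rw [this]
    refine ((measurableSet_lt measurable_const (measurable_pi_apply i)).inter
      (measurableSet_lt (measurable_pi_apply i) measurable_const)).inter ?_
    exact MeasurableSet.iInter fun k => MeasurableSet.iInter fun _ =>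
      measurableSet_lt measurable_const (measurable_pi_apply k)

theorem piece_disjoint (y : ι → ℝ) : Pairwise (Function.onFun Disjoint (piece y)) := by
  intro o o' hoo
  rw [Function.onFun, Set.disjoint_left]
  intro x hx hx'
  cases o with
  | none =>
    cases o' with
    | none => exact hoo rfl
    | some i => exact absurd (hx i) (not_lt.2 hx'.1.2.le)
  | some i =>
    cases o' with
    | none => exact absurd (hx' i) (not_lt.2 hx.1.2.le)
    | some j =>
      have hij : i ≠ j := fun h => hoo (by rw [h])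
      exact absurd (hx.2 j hij.symm) (not_lt.2 hx'.1.2.le)

theorem piece_sub (y : ι → ℝ) (hy : ∀ i, 0 ≤ y i) (o : Option ι) : piece y o ⊆ P ι := by
  intro x hx i
  cases o with
  | none => exact lt_of_le_of_lt (hy i) (hx i)
  | some j =>
    by_cases h : i = j
    · rw [h]; exact hx.1.1
    · exact lt_of_le_of_lt (hy i) (hx.2 i h)

theorem shift_none {N : (ι → ℝ) → ℝ} (h : UNorm N) (y : ι → ℝ) :
    ENNReal.ofReal (Real.exp (-(N y))) * GP N ≤
      ∫⁻ x in piece y none, ENNReal.ofReal (Real.exp (-(N x))) := by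
  rw [← lintegral_indicator (measurableSet_piece y none),
    ← lintegral_add_right_eq_self _ y]
  unfold GP
  rw [← lintegral_const_mul _ h.measurable, ← lintegral_indicator measurableSet_P]
  refine lintegral_mono fun x => ?_
  by_cases hx : x ∈ P ι
  · have hx' : x + y ∈ piece y none := fun k => by
      have := hx k
      simp only [Pi.add_apply]; linarith
    rw [indicator_of_mem hx, indicator_of_mem hx', ← ENNReal.ofReal_mul (Real.exp_pos _).le,
      ← Real.exp_add]
    refine ENNReal.ofReal_le_ofReal (Real.exp_le_exp.2 ?_)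
    have := h.add x y
    linarith
  · rw [indicator_of_notMem hx]
    exact zero_le

theorem shift_some {N : (ι → ℝ) → ℝ} (h : UNorm N) (y : ι → ℝ)
    (hy : ∀ i, 0 ≤ y i) (i : ι) (p : ι → Prop) [DecidablePred p] (hp : ∀ k, p k ↔ k = i) :
    ENNReal.ofReal (y i) * (ENNReal.ofReal (Real.exp (-(2 * N y))) *
      GF N (fun k => ¬ p k)) ≤
      ∫⁻ x in piece y (some i), ENNReal.ofReal (Real.exp (-(N x))) := by
  have hm := h.measurable
  have hi : p i := (hp i).2 rfl
  rw [← lintegral_indicator (measurableSet_piece y (some i)),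
    lint_split p _ (hm.indicator (measurableSet_piece y (some i)))]
  -- the inner integral for fixed first coordinate
  have key : ∀ x1 : {k // p k} → ℝ, x1 ∈ Set.pi univ (fun _ => Ioo 0 (y i)) →
      ENNReal.ofReal (Real.exp (-(2 * N y))) * GF N (fun k => ¬ p k) ≤
      ∫⁻ x2 : {k // ¬ p k} → ℝ, (piece y (some i)).indicator
        (fun x => ENNReal.ofReal (Real.exp (-(N x)))) (glue p x1 x2) := by
    intro x1 hx1
    have hx1' : 0 < x1 ⟨i, hi⟩ ∧ x1 ⟨i, hi⟩ < y i := hx1 ⟨i, hi⟩ (mem_univ _)
    rw [← lintegral_add_right_eq_self _ (fun k : {k // ¬ p k} => y k.1)]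
    unfold GF GP
    rw [← lintegral_const_mul _ (h.face fun k => ¬ p k).measurable,
      ← lintegral_indicator measurableSet_P]
    refine lintegral_mono fun z => ?_
    by_cases hz : z ∈ P {k // ¬ p k}
    · have hmem : glue p x1 (z + fun k : {k // ¬ p k} => y k.1) ∈
          piece y (some i) := by
        refine ⟨?_, fun k hk => ?_⟩
        · simpa [glue, hi] using hx1'
        · have hk' : ¬ p k := fun h => hk ((hp k).1 h)
          have := hz ⟨k, hk'⟩
          simp only [glue, hk', dite_false, Pi.add_apply]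
          linarith
      rw [indicator_of_mem hz, indicator_of_mem hmem,
        ← ENNReal.ofReal_mul (Real.exp_pos _).le, ← Real.exp_add]
      refine ENNReal.ofReal_le_ofReal (Real.exp_le_exp.2 ?_)
      have e1 : glue p x1 (z + fun k : {k // ¬ p k} => y k.1) =
          ext p x1 + (ext (fun k => ¬ p k) z +
            ext (fun k => ¬ p k) (fun k : {k // ¬ p k} => y k.1)) := by
        rw [glue_eq, ext_add]
      rw [e1]
      have a1 := h.add (ext p x1) (ext (fun k => ¬ p k) z +
            ext (fun k => ¬ p k) (fun k : {k // ¬ p k} => y k.1))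
      have a2 := h.add (ext (fun k => ¬ p k) z)
        (ext (fun k => ¬ p k) (fun k : {k // ¬ p k} => y k.1))
      have a3 : N (ext p x1) ≤ N y := by
        refine h.mono _ _ fun k => ?_
        by_cases hk : p k
        · have hki := (hp k).1 hk
          subst hki
          simp only [ext, hk, dite_true]
          rw [abs_of_pos hx1'.1, abs_of_nonneg (hy _)]
          exact hx1'.2.le
        · simp [ext, hk]
      have a4 : N (ext (fun k => ¬ p k) (fun k : {k // ¬ p k} => y k.1)) ≤ N y := by
        refine h.mono _ _ fun k => ?_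
        by_cases hk : p k
        · simp [ext, hk]
        · simp [ext, hk]
      linarith
    · rw [indicator_of_notMem hz]
      exact zero_le
  -- integrate in the first coordinate
  have hcard : Fintype.card {k // p k} = 1 :=
    Fintype.card_eq_one_iff.2 ⟨⟨i, hi⟩, fun k => Subtype.ext ((hp k.1).1 k.2)⟩
  have hvol : volume (Set.pi univ (fun _ : {k // p k} => Ioo 0 (y i))) =
      ENNReal.ofReal (y i) := by
    rw [volume_pi_pi]
    simp [hcard]
  have hmeas : MeasurableSet (Set.pi univ (fun _ : {k // p k} => Ioo 0 (y i))) :=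
    MeasurableSet.univ_pi fun _ => measurableSet_Ioo
  calc ENNReal.ofReal (y i) * (ENNReal.ofReal (Real.exp (-(2 * N y))) *
        GF N (fun k => ¬ p k))
      = ∫⁻ _ in Set.pi univ (fun _ : {k // p k} => Ioo 0 (y i)),
          (ENNReal.ofReal (Real.exp (-(2 * N y))) * GF N (fun k => ¬ p k)) := by
        rw [setLIntegral_const, hvol, mul_comm]
    _ ≤ ∫⁻ x1 in Set.pi univ (fun _ : {k // p k} => Ioo 0 (y i)),
          ∫⁻ x2 : {k // ¬ p k} → ℝ, (piece y (some i)).indicator
            (fun x => ENNReal.ofReal (Real.exp (-(N x)))) (glue p x1 x2) :=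
        setLIntegral_mono' hmeas fun x1 hx1 => key x1 hx1
    _ ≤ _ := setLIntegral_le_lintegral _ _

theorem sum_le_GP {N : (ι → ℝ) → ℝ} (h : UNorm N) [DecidableEq ι] (y : ι → ℝ)
    (hy : ∀ i, 0 ≤ y i) :
    ENNReal.ofReal (Real.exp (-(N y))) * GP N + ∑ i, ENNReal.ofReal (y i) *
      (ENNReal.ofReal (Real.exp (-(2 * N y))) *
      GF N (fun k => ¬ k = i)) ≤ GP N := by
  calc _ ≤ (∫⁻ x in piece y none, ENNReal.ofReal (Real.exp (-(N x)))) +
        ∑ i, ∫⁻ x in piece y (some i), ENNReal.ofReal (Real.exp (-(N x))) :=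
        add_le_add (shift_none h y) (Finset.sum_le_sum fun i _ => shift_some h y hy i (fun k => k = i) fun _ => Iff.rfl)
    _ = ∑ o : Option ι, ∫⁻ x in piece y o, ENNReal.ofReal (Real.exp (-(N x))) := by
        rw [Fintype.sum_option]
    _ = ∫⁻ x in ⋃ o, piece y o, ENNReal.ofReal (Real.exp (-(N x))) := by
        rw [lintegral_iUnion (fun o => measurableSet_piece y o) (piece_disjoint y), tsum_fintype]
    _ ≤ GP N := lintegral_mono_set (iUnion_subset fun o => piece_sub y hy o)

/-- The flux inequality. -/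
theorem flux {N : (ι → ℝ) → ℝ} (h : UNorm N) [DecidableEq ι] (y : ι → ℝ)
    (hy : ∀ i, 0 ≤ y i) :
    ∑ i, y i * (GF N (fun k => ¬ k = i)).toReal ≤
      N y * (GP N).toReal := by
  set g := (GP N).toReal with hg
  set S := ∑ i, y i * (GF N (fun k => ¬ k = i)).toReal
    with hS
  have hgpos : 0 < g := toReal_pos h
  have h1 : ∀ t : ℝ, 0 < t → Real.exp (-(2 * (t * N y))) * S ≤ N y * g := by
    intro t ht
    have h2 := sum_le_GP h (t • y) fun i => by
      simpa using mul_nonneg ht.le (hy i)
    have hNt : N (t • y) = t * N y := by rw [h.smul, abs_of_pos ht]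
    have hfin : ∀ i, GF N (fun k => ¬ k = i) ≠ ⊤ :=
      fun i => (GP_lt_top (h.face _)).ne
    have h3 := ENNReal.toReal_mono (GP_lt_top h).ne h2
    rw [ENNReal.toReal_add (ENNReal.mul_ne_top ENNReal.ofReal_ne_top (GP_lt_top h).ne)
      (ENNReal.sum_ne_top.2 fun i _ => ENNReal.mul_ne_top ENNReal.ofReal_ne_top
        (ENNReal.mul_ne_top ENNReal.ofReal_ne_top (hfin i))),
      ENNReal.toReal_mul, ENNReal.toReal_ofReal (Real.exp_pos _).le,
      ENNReal.toReal_sum (fun i _ => ENNReal.mul_ne_top ENNReal.ofReal_ne_top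
        (ENNReal.mul_ne_top ENNReal.ofReal_ne_top (hfin i)))] at h3
    have h4 : ∑ i, (ENNReal.ofReal ((t • y) i) * (ENNReal.ofReal (Real.exp (-(2 * N (t • y)))) *
        GF N (fun k => ¬ k = i))).toReal =
        t * (Real.exp (-(2 * (t * N y))) * S) := by
      rw [hS, Finset.mul_sum, Finset.mul_sum]
      refine Finset.sum_congr rfl fun i _ => ?_
      rw [ENNReal.toReal_mul, ENNReal.toReal_mul, ENNReal.toReal_ofReal (Real.exp_pos _).le,
        ENNReal.toReal_ofReal (by simpa using mul_nonneg ht.le (hy i)), hNt]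
      simp only [Pi.smul_apply, smul_eq_mul]
      ring
    rw [h4, hNt, ← hg] at h3
    have h5 : 1 - t * N y ≤ Real.exp (-(t * N y)) := by
      have := Real.add_one_le_exp (-(t * N y))
      linarith
    have h6 : t * (Real.exp (-(2 * (t * N y))) * S) ≤ t * (N y * g) := by
      nlinarith [mul_le_mul_of_nonneg_right h5 hgpos.le]
    exact le_of_mul_le_mul_left h6 ht
  have h7 : Tendsto (fun t : ℝ => Real.exp (-(2 * (t * N y))) * S) (𝓝[>] 0) (𝓝 S) := by
    have : Continuous fun t : ℝ => Real.exp (-(2 * (t * N y))) * S := by fun_prop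
    have h8 := this.tendsto 0
    simp only [zero_mul, mul_zero, neg_zero, Real.exp_zero, one_mul] at h8
    exact h8.mono_left nhdsWithin_le_nhds
  exact le_of_tendsto h7 (by filter_upwards [self_mem_nhdsWithin] with t ht using h1 t ht)

/-- A dual pair of unconditional norms. -/
structure Dual (μ N : (ι → ℝ) → ℝ) : Prop where
  hμ : UNorm μ
  hN : UNorm N
  b1 : ∀ y : ι → ℝ, (∀ p : ι → ℝ, ∑ i, |p i| * |y i| ≤ N p) → μ y ≤ 1
  b2 : ∀ p : ι → ℝ, (∀ y : ι → ℝ, ∑ i, |p i| * |y i| ≤ μ y) → N p ≤ 1

theorem Dual.face {μ N : (ι → ℝ) → ℝ} (h : Dual μ N) (p : ι → Prop) [DecidablePred p] :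
    Dual (fun x : {i // p i} → ℝ => μ (ext p x)) (fun x : {i // p i} → ℝ => N (ext p x)) where
  hμ := h.hμ.face p
  hN := h.hN.face p
  b1 y hy := by
    refine h.b1 _ fun q => ?_
    have h1 := hy fun i => q i.1
    have h2 : ∑ i, |q i| * |ext p y i| = ∑ i : {i // p i}, |q i.1| * |y i| :=
      sum_ext p y (fun i t => |q i| * |t|) (fun i => by simp)
    rw [h2]
    refine h1.trans (h.hN.mono _ _ fun i => ?_)
    by_cases hi : p i
    · simp [ext, hi]
    · simp [ext, hi]
  b2 y hy := by
    refine h.b2 _ fun q => ?_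
    have h1 := hy fun i => q i.1
    have h2 : ∑ i, |ext p y i| * |q i| = ∑ i : {i // p i}, |y i| * |q i.1| :=
      sum_ext p y (fun i t => |t| * |q i|) (fun i => by simp)
    rw [h2]
    refine h1.trans (h.hμ.mono _ _ fun i => ?_)
    by_cases hi : p i
    · simp [ext, hi]
    · simp [ext, hi]

theorem Dual.symm {μ N : (ι → ℝ) → ℝ} (h : Dual μ N) : Dual N μ where
  hμ := h.hN
  hN := h.hμ
  b1 y hy := h.b2 y fun p => by
    have := hy p
    simpa [mul_comm] using this
  b2 y hy := h.b1 y fun p => by
    have := hy p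
    simpa [mul_comm] using this

/-- Saint-Raymond's inequality. -/
theorem saint_raymond (n : ℕ) : ∀ (ι : Type) [Fintype ι], Fintype.card ι = n →
    ∀ μ N : (ι → ℝ) → ℝ, Dual μ N → (n.factorial : ℝ) ≤ (GP μ).toReal * (GP N).toReal := by
  classical
  induction n with
  | zero =>
    intro ι _ hc μ N h
    have he : IsEmpty ι := Fintype.card_eq_zero_iff.1 hc
    have h1 : ∀ M : (ι → ℝ) → ℝ, UNorm M → GP M = 1 := by
      intro M hM
      have h2 : P ι = univ := by
        ext x
        simp [P]
      unfold GP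
      rw [h2, Measure.restrict_univ]
      have h3 : ∀ x : ι → ℝ, x = 0 := fun x => by ext i; exact he.elim i
      have h4 : ∀ x : ι → ℝ, ENNReal.ofReal (Real.exp (-(M x))) = 1 := fun x => by
        rw [h3 x, hM.zero]; simp
      simp only [h4]
      rw [lintegral_one, volume_pi, Measure.pi_of_empty]
      simp
    rw [h1 μ h.hμ, h1 N h.hN]
    simp
  | succ m ih =>
    intro ι _ hc μ N h
    set gμ := (GP μ).toReal
    set gN := (GP N).toReal
    have hgμ : 0 < gμ := toReal_pos h.hμ
    have hgN : 0 < gN := toReal_pos h.hN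
    set y : ι → ℝ := fun i =>
      (GF N (fun k => ¬ k = i)).toReal / gN with hy
    have hy0 : ∀ i, 0 ≤ y i := fun i => div_nonneg ENNReal.toReal_nonneg hgN.le
    have hμy : μ y ≤ 1 := by
      refine h.b1 y fun p => ?_
      have h1 := flux h.hN (fun i => |p i|) fun i => abs_nonneg _
      have h2 : N (fun i => |p i|) = N p := h.hN.abs_eq _ _ fun i => abs_abs _
      rw [h2] at h1
      have h3 : ∑ i, |p i| * |y i| =
          (∑ i, |p i| * (GF N (fun k => ¬ k = i)).toReal)
            / gN := by
        rw [Finset.sum_div]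
        refine Finset.sum_congr rfl fun i _ => ?_
        rw [abs_of_nonneg (hy0 i)]
        ring
      rw [h3, div_le_iff₀ hgN]
      exact h1
    have h4 := flux h.hμ y hy0
    have h5 : μ y * gμ ≤ gμ := by nlinarith
    have h6 : ∑ i, y i * (GF μ (fun k => ¬ k = i)).toReal
        ≤ gμ := h4.trans h5
    have h7 : ∀ i, (m.factorial : ℝ) ≤
        (GF μ (fun k => ¬ k = i)).toReal *
        (GF N (fun k => ¬ k = i)).toReal := by
      intro i
      refine ih {k // ¬ k = i} ?_ _ _ (h.face _)
      rw [Fintype.card_subtype_compl, Fintype.card_subtype_eq, hc]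
      rfl
    have h8 : ∑ i : ι, (m.factorial : ℝ) / gN ≤ gμ := by
      refine le_trans (Finset.sum_le_sum fun i _ => ?_) h6
      rw [hy]
      simp only []
      rw [div_mul_eq_mul_div, mul_comm ((GF N (fun k => ¬ k = i)).toReal)]
      exact div_le_div_of_nonneg_right (h7 i) hgN.le
    rw [Finset.sum_const, Finset.card_univ, hc, nsmul_eq_mul, mul_div_assoc',
      div_le_iff₀ hgN] at h8
    rw [Nat.factorial_succ]
    push_cast at h8 ⊢
    linarith

end Pool.Agent.Helper47.AQ
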