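import Pool.Agent.Helper47.AQ.Affine
import Pool.Agent.Helper65.Mahler.BM

/-!
# The volumes of the slices of the set of the affine functions with values in `[0, 1]`
-/

open MeasureTheory Set Filter Topology
open scoped ENNReal

noncomputable section

namespace Pool.Agent.Helper47.AQ

variable {ι κ : Type} [Fintype ι] [Fintype κ]

/-- Brunn–Minkowski for a general finite index type. -/
theorem bm (R : ℝ) (A B S : Set (ι → ℝ)) (hA : MeasurableSet A) (hB : MeasurableSet B)
    (hS : MeasurableSet S) (hAR : ∀ x ∈ A, ∀ i, |x i| ≤ R) (hBR : ∀ x ∈ B, ∀ i, |x i| ≤ R)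
    (hSR : ∀ x ∈ S, ∀ i, |x i| ≤ R) (h : ∀ a ∈ A, ∀ b ∈ B, (1 / 2 : ℝ) • (a + b) ∈ S) :
    volume A * volume B ≤ volume S ^ 2 := by
  set e := Fintype.equivFin ι with he
  set f : (ι → ℝ) → (Fin (Fintype.card ι) → ℝ) := fun x => x ∘ e.symm with hf
  have himg : ∀ T : Set (ι → ℝ), f '' T = (fun y : Fin (Fintype.card ι) → ℝ => y ∘ e) ⁻¹' T := by
    intro T
    ext y
    constructor
    · rintro ⟨x, hx, rfl⟩
      show (x ∘ e.symm) ∘ e ∈ T
      rw [Function.comp_assoc, e.symm_comp_self, Function.comp_id]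
      exact hx
    · intro hy
      refine ⟨y ∘ e, hy, ?_⟩
      show (y ∘ e) ∘ e.symm = y
      rw [Function.comp_assoc, e.self_comp_symm, Function.comp_id]
  have hmeas : ∀ T : Set (ι → ℝ), MeasurableSet T → MeasurableSet (f '' T) := by
    intro T hT
    rw [himg]
    exact (measurable_pi_lambda _ fun i => measurable_pi_apply (e i)) hT
  have hbox : ∀ T : Set (ι → ℝ), (∀ x ∈ T, ∀ i, |x i| ≤ R) →
      f '' T ⊆ Helper65.Mahler.box (Fintype.card ι) R := by
    rintro T hT _ ⟨x, hx, rfl⟩ i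
    exact abs_le.1 (hT x hx (e.symm i))
  have h1 := Helper65.Mahler.brunn_minkowski (Fintype.card ι) R (f '' A) (f '' B) (f '' S)
    (hmeas A hA) (hmeas B hB) (hmeas S hS) (hbox A hAR) (hbox B hBR) (hbox S hSR) (by
      rintro _ ⟨a, ha, rfl⟩ _ ⟨b, hb, rfl⟩
      exact ⟨(1 / 2 : ℝ) • (a + b), h a ha b hb, rfl⟩)
  have hv : ∀ T : Set (ι → ℝ), volume (f '' T) = volume T := fun T => vol_reindex e T
  rw [hv, hv, hv] at h1
  exact h1

/-- The vectors `p` with `-a ≤ ⟨p, x⟩ ≤ b` for all `x` in `K`. -/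
def QS (K : Set (ι → ℝ)) (a b : ℝ) : Set (ι → ℝ) := {p | hs K (-p) ≤ a ∧ hs K p ≤ b}

/-- The volume of `QS K a b`. -/
def GS (K : Set (ι → ℝ)) (a b : ℝ) : ℝ≥0∞ := volume (QS K a b)

theorem IsBody.closed_QS {K : Set (ι → ℝ)} (h : IsBody K) (a b : ℝ) : IsClosed (QS K a b) :=
  (isClosed_le (h.hs_continuous.comp continuous_neg) continuous_const).inter
    (isClosed_le h.hs_continuous continuous_const)

theorem IsBody.bound_QS {K : Set (ι → ℝ)} (h : IsBody K) :
    ∃ C : ℝ, 0 < C ∧ ∀ a b p, p ∈ QS K a b → ∀ i, |p i| ≤ C * (a + b) := by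
  obtain ⟨ε, hε, h2⟩ := h.le_wd
  refine ⟨1 / ε, by positivity, fun a b p hp i => ?_⟩
  have h3 := h2 p
  have h4 : |p i| ≤ ∑ i, |p i| :=
    Finset.single_le_sum (f := fun i => |p i|) (fun i _ => abs_nonneg _) (Finset.mem_univ i)
  have h5 : wd K p ≤ a + b := by
    unfold wd
    linarith [hp.1, hp.2]
  rw [one_div, inv_mul_eq_div, le_div_iff₀ hε]
  nlinarith

theorem IsBody.GS_ne_top {K : Set (ι → ℝ)} (h : IsBody K) (a b : ℝ) : GS K a b ≠ ⊤ := by
  obtain ⟨C, hC, h2⟩ := h.bound_QS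
  refine (lt_of_le_of_lt (measure_mono (t := Metric.closedBall 0 (max (C * (a + b)) 0)) ?_)
    (isCompact_closedBall _ _).measure_lt_top).ne
  intro p hp
  rw [mem_closedBall_zero_iff]
  exact (pi_norm_le_iff_of_nonneg (le_max_right _ _)).2 fun i =>
    (h2 a b p hp i).trans (le_max_left _ _)

theorem GS_mono {K : Set (ι → ℝ)} {a b a' b' : ℝ} (ha : a ≤ a') (hb : b ≤ b') :
    GS K a b ≤ GS K a' b' :=
  measure_mono fun _ hp => ⟨hp.1.trans ha, hp.2.trans hb⟩

theorem GS_symm (K : Set (ι → ℝ)) (a b : ℝ) : GS K a b = GS K b a := by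
  have h1 : QS K a b = (fun p => -p) ⁻¹' QS K b a := by
    ext p
    show (hs K (-p) ≤ a ∧ hs K p ≤ b) ↔ (hs K (-(-p)) ≤ b ∧ hs K (-p) ≤ a)
    rw [neg_neg]
    exact and_comm
  unfold GS
  rw [h1]
  exact (Measure.measurePreserving_neg (volume : Measure (ι → ℝ))).measure_preimage_equiv
    (f := MeasurableEquiv.neg _) _

theorem IsBody.GS_mid {K : Set (ι → ℝ)} (h : IsBody K) (a b a' b' : ℝ) :
    GS K a b * GS K a' b' ≤ GS K ((a + a') / 2) ((b + b') / 2) ^ 2 := by
  obtain ⟨C, hC, h2⟩ := h.bound_QS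
  refine bm (max (max (C * (a + b)) (C * (a' + b'))) (C * ((a + a') / 2 + (b + b') / 2))) _ _ _
    (h.closed_QS a b).measurableSet (h.closed_QS a' b').measurableSet
    (h.closed_QS _ _).measurableSet
    (fun p hp i => (h2 a b p hp i).trans ((le_max_left _ _).trans (le_max_left _ _)))
    (fun p hp i => (h2 a' b' p hp i).trans ((le_max_right _ _).trans (le_max_left _ _)))
    (fun p hp i => (h2 _ _ p hp i).trans (le_max_right _ _)) ?_
  intro p hp q hq
  have key : ∀ u v : ι → ℝ, hs K ((1 / 2 : ℝ) • (u + v)) ≤ (hs K u + hs K v) / 2 := by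
    intro u v
    rw [h.hs_smul _ (by norm_num)]
    have := h.hs_add u v
    linarith
  constructor
  · have h3 := key (-p) (-q)
    have h4 : (-((1 / 2 : ℝ) • (p + q))) = (1 / 2 : ℝ) • (-p + -q) := by
      rw [← neg_add, smul_neg]
    rw [h4]
    have h5 := hp.1
    have h6 := hq.1
    linarith
  · have h3 := key p q
    have h5 := hp.2
    have h6 := hq.2
    linarith

theorem IsBody.GS_cont {K : Set (ι → ℝ)} (h : IsBody K) {a b : ℝ} {c : ℝ≥0∞}
    (hc : ∀ ε : ℝ, 0 < ε → c ≤ GS K (a + ε) (b + ε)) : c ≤ GS K a b := by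
  set s : ℕ → Set (ι → ℝ) := fun n => QS K (a + 1 / ((n : ℝ) + 1)) (b + 1 / ((n : ℝ) + 1)) with hs'
  have h1 : QS K a b = ⋂ n, s n := by
    ext p
    rw [mem_iInter]
    constructor
    · intro hp n
      have : (0 : ℝ) < 1 / ((n : ℝ) + 1) := by positivity
      exact ⟨hp.1.trans (by linarith), hp.2.trans (by linarith)⟩
    · intro hp
      constructor
      · refine le_of_forall_pos_le_add fun ε hε => ?_
        obtain ⟨n, hn⟩ := exists_nat_one_div_lt hε
        exact (hp n).1.trans (by linarith)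
      · refine le_of_forall_pos_le_add fun ε hε => ?_
        obtain ⟨n, hn⟩ := exists_nat_one_div_lt hε
        exact (hp n).2.trans (by linarith)
  have hanti : Antitone s := by
    intro m n hmn p hp
    have h3 : (1 : ℝ) / ((n : ℝ) + 1) ≤ 1 / ((m : ℝ) + 1) := by
      refine one_div_le_one_div_of_le (by positivity) ?_
      have : (m : ℝ) ≤ n := by exact_mod_cast hmn
      linarith
    exact ⟨hp.1.trans (by linarith), hp.2.trans (by linarith)⟩
  have h2 := tendsto_measure_iInter_atTop (μ := (volume : Measure (ι → ℝ)))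
    (fun n => (h.closed_QS _ _).measurableSet.nullMeasurableSet) hanti ⟨0, h.GS_ne_top _ _⟩
  rw [← h1] at h2
  refine ge_of_tendsto' h2 fun n => hc _ (by positivity)

/-- The slices decrease away from the centre. -/
theorem IsBody.unimodal {K : Set (ι → ℝ)} (h : IsBody K) {s t : ℝ} (hst : |t - 1 / 2| ≤ |s - 1 / 2|) :
    GS K s (1 - s) ≤ GS K t (1 - t) := by
  -- reduction to `s ≤ 1 / 2`
  have key : ∀ s t : ℝ, s ≤ t → t ≤ 1 - s → GS K s (1 - s) ≤ GS K t (1 - t) := by
    intro s t h1 h2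
    set c := GS K s (1 - s) with hc
    set S : Set ℝ := {r | c ≤ GS K r (1 - r)} with hS
    have hclosed : IsClosed S := by
      refine IsSeqClosed.isClosed fun u x hu hx => ?_
      refine h.GS_cont fun ε hε => ?_
      have h3 : ∀ᶠ n in atTop, |u n - x| < ε := by
        have := (Metric.tendsto_nhds.1 hx) ε hε
        filter_upwards [this] with n hn
        rwa [Real.dist_eq] at hn
      obtain ⟨n, hn⟩ := h3.exists
      rw [abs_lt] at hn
      exact le_trans (hu n) (GS_mono (by linarith [hn.1, hn.2]) (by linarith [hn.1, hn.2]))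
    have hs1 : s ∈ S := by
      show c ≤ GS K s (1 - s)
      exact le_of_eq hc
    have hs2 : 1 - s ∈ S := by
      show c ≤ GS K (1 - s) (1 - (1 - s))
      rw [GS_symm, sub_sub_cancel]
    have hmid : ∀ x ∈ S, ∀ y ∈ S, (x + y) / 2 ∈ S := by
      intro x hx y hy
      have h3 := h.GS_mid x (1 - x) y (1 - y)
      have h4 : (1 - x + (1 - y)) / 2 = 1 - (x + y) / 2 := by ring
      rw [h4] at h3
      have h5 : c * c ≤ GS K ((x + y) / 2) (1 - (x + y) / 2) ^ 2 :=
        (mul_le_mul' hx hy).trans h3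
      rw [← sq] at h5
      exact (ENNReal.pow_le_pow_left_iff two_ne_zero).1 h5
    by_contra hcon
    have htS : t ∉ S := hcon
    have hA : IsCompact (S ∩ Icc s t) := isCompact_Icc.inter_left hclosed
    have hB : IsCompact (S ∩ Icc t (1 - s)) := isCompact_Icc.inter_left hclosed
    obtain ⟨x, hx⟩ := hA.exists_isGreatest ⟨s, hs1, le_rfl, h1⟩
    obtain ⟨y, hy⟩ := hB.exists_isLeast ⟨1 - s, hs2, h2, le_rfl⟩
    have hxt : x < t := lt_of_le_of_ne hx.1.2.2 fun h => htS (h ▸ hx.1.1)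
    have hty : t < y := lt_of_le_of_ne hy.1.2.1 fun h => htS (h ▸ hy.1.1)
    have hm := hmid x hx.1.1 y hy.1.1
    rcases lt_trichotomy ((x + y) / 2) t with h3 | h3 | h3
    · have := hx.2 ⟨hm, by linarith [hx.1.2.1], h3.le⟩
      linarith
    · exact htS (h3 ▸ hm)
    · have := hy.2 ⟨hm, h3.le, by linarith [hy.1.2.2]⟩
      linarith
  rcases le_total s (1 / 2) with hs | hs
  · rw [abs_of_nonpos (by linarith : s - 1 / 2 ≤ 0), abs_le] at hst
    exact key s t (by linarith [hst.1]) (by linarith [hst.2])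
  · rw [abs_of_nonneg (by linarith : 0 ≤ s - 1 / 2), abs_le] at hst
    have h1 := key (1 - s) t (by linarith [hst.1]) (by linarith [hst.2])
    rw [sub_sub_cancel, GS_symm] at h1
    exact h1

end Pool.Agent.Helper47.AQ
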